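import Mathlib

/-!
Paths and cycles given by their vertex sets.
-/

namespace Pool.Agent.Lib.MP_b07792_co.EV

open Finset
open scoped Classical

variable {V : Type}

/-- a path from `a` to `b` whose vertex set is `S` -/
inductive Pth (G : SimpleGraph V) : Finset V → V → V → Prop
  | one (a : V) : Pth G {a} a a
  | cons {S : Finset V} {a b c : V} : G.Adj a b → a ∉ S → Pth G S b c → Pth G (insert a S) a c

/-- a cycle whose vertex set is `S` -/
def Cy (G : SimpleGraph V) (S : Finset V) : Prop := ∃ a b, Pth G S a b ∧ G.Adj b a ∧ 3 ≤ #S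

/-- a cycle with at least `m` vertices inside `X` -/
def Lg (G : SimpleGraph V) (m : ℕ) (X : Finset V) : Prop := ∃ S ⊆ X, Cy G S ∧ m ≤ #S

/-- the number of neighbours of `v` in `X` -/
noncomputable def dg (G : SimpleGraph V) (v : V) (X : Finset V) : ℕ := #{w ∈ X | G.Adj v w}

/-- a separation of order at most one -/
def Sep (G : SimpleGraph V) (X Y Z : Finset V) : Prop :=
  Y ∪ Z = X ∧ #(Y ∩ Z) ≤ 1 ∧ ¬Y ⊆ Z ∧ ¬Z ⊆ Y ∧ ∀ a ∈ Y, a ∉ Z → ∀ b ∈ Z, b ∉ Y → ¬G.Adj a b

/-- The theorem of Dirac on the circumference. -/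
def DiracSt : Prop :=
  ∀ (V : Type) (G : SimpleGraph V) (X : Finset V) (d : ℕ), 2 ≤ d → (∀ v ∈ X, d ≤ dg G v X) →
    2 * d ≤ #X → (∀ Y Z, ¬Sep G X Y Z) → Lg G (2 * d) X

/-- The theorem of Ore on Hamilton paths with given ends. -/
def OreSt : Prop :=
  ∀ (V : Type) (G : SimpleGraph V) (Q : Finset V) (a b : V), (∀ v ∈ Q, #Q + 1 ≤ 2 * dg G v Q) →
    a ∈ Q → b ∈ Q → a ≠ b → Pth G Q a b

variable {G : SimpleGraph V} {S S' : Finset V} {a b a' b' : V}

theorem Pth.left (h : Pth G S a b) : a ∈ S := by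
  cases h <;> simp

theorem Pth.right (h : Pth G S a b) : b ∈ S := by
  induction h with
  | one => simp
  | cons _ _ _ ih => exact mem_insert_of_mem ih

theorem Pth.of_eq (h : Pth G S a b) (e : S = S') : Pth G S' a b := e ▸ h

theorem Pth.append (h : Pth G S a b) (h' : Pth G S' a' b') (hd : Disjoint S S')
    (e : G.Adj b a') : Pth G (S ∪ S') a b' := by
  induction h with
  | one a => exact (Pth.cons e (disjoint_singleton_left.1 hd) h').of_eq (insert_eq _ _)
  | cons h1 h2 _ ih =>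
    rw [disjoint_insert_left] at hd
    exact (Pth.cons h1 (by simp [h2, hd.1]) (ih hd.2 e)).of_eq (insert_union _ _ _).symm

theorem Pth.symm (h : Pth G S a b) : Pth G S b a := by
  induction h with
  | one a => exact .one a
  | cons h1 h2 _ ih =>
    exact (ih.append (.one _) (disjoint_singleton_right.2 h2) h1.symm).of_eq
      (by rw [union_comm, insert_eq])

theorem Pth.mono {G' : SimpleGraph V} (h : Pth G S a b)
    (e : ∀ x ∈ S, ∀ y ∈ S, G.Adj x y → G'.Adj x y) : Pth G' S a b := by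
  induction h with
  | one a => exact .one a
  | cons h1 h2 h3 ih =>
    exact .cons (e _ (mem_insert_self _ _) _ (mem_insert_of_mem h3.left) h1) h2
      (ih fun x hx y hy => e x (mem_insert_of_mem hx) y (mem_insert_of_mem hy))

/-- `P 0, ..., P m` is a path -/
def En (G : SimpleGraph V) (P : ℕ → V) (m : ℕ) : Prop :=
  (∀ i ≤ m, ∀ j ≤ m, P i = P j → i = j) ∧ ∀ i < m, G.Adj (P i) (P (i + 1))

theorem Pth.enum (h : Pth G S a b) :
    ∃ (m : ℕ) (P : ℕ → V), En G P m ∧ P 0 = a ∧ P m = b ∧ S = (Icc 0 m).image P := by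
  induction h with
  | one a => exact ⟨0, fun _ => a, ⟨fun i hi j hj _ => by omega, fun i hi => by omega⟩, rfl, rfl,
      by simp⟩
  | @cons S a b c h1 h2 _ ih =>
    obtain ⟨m, P, ⟨e1, e2⟩, e3, e4, rfl⟩ := ih
    have k : ∀ j ≤ m, a ≠ P j := fun j hj e => h2 (mem_image.2 ⟨j, by simpa using hj, e.symm⟩)
    refine ⟨m + 1, fun i => Nat.casesOn i a P, ⟨fun i hi j hj e => ?_, fun i hi => ?_⟩, rfl, e4, ?_⟩
    · rcases i with _ | i <;> rcases j with _ | j
      · rfl
      · exact absurd e (k j (by omega))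
      · exact absurd e.symm (k i (by omega))
      · rw [e1 i (by omega) j (by omega) e]
    · rcases i with _ | i
      · show G.Adj a (P 0)
        rwa [e3]
      · exact e2 i (by omega)
    · ext x
      simp only [mem_insert, mem_image, mem_Icc]
      constructor
      · rintro (rfl | ⟨i, hi, rfl⟩)
        · exact ⟨0, by omega, rfl⟩
        · exact ⟨i + 1, by omega, rfl⟩
      · rintro ⟨_ | i, hi, rfl⟩
        · exact .inl rfl
        · exact .inr ⟨i, by omega, rfl⟩

variable {P : ℕ → V} {m : ℕ}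

theorem En.seg (h : En G P m) {p q : ℕ} (h1 : p ≤ q) (h2 : q ≤ m) :
    Pth G ((Icc p q).image P) (P p) (P q) := by
  induction q, h1 using Nat.le_induction with
  | base => simpa using Pth.one (P p)
  | succ q h1 ih =>
    refine ((ih (by omega)).append (.one (P (q + 1))) ?_ (h.2 q h2)).of_eq ?_
    · rw [disjoint_singleton_right, mem_image]
      rintro ⟨i, hi, e⟩
      have := mem_Icc.1 hi
      have := h.1 i (by omega) _ h2 e
      omega
    · rw [← image_singleton P, ← image_union]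
      congr 1
      ext i
      simp only [mem_union, mem_Icc, mem_singleton]
      omega

theorem En.card (h : En G P m) {I : Finset ℕ} (hI : ∀ i ∈ I, i ≤ m) : #(I.image P) = #I :=
  card_image_of_injOn fun i hi j hj e => h.1 i (hI i hi) j (hI j hj) e

theorem En.disj (h : En G P m) {I J : Finset ℕ} (hI : ∀ i ∈ I, i ≤ m) (hJ : ∀ i ∈ J, i ≤ m)
    (e : Disjoint I J) : Disjoint (I.image P) (J.image P) := by
  rw [disjoint_left]
  intro x hx hy
  obtain ⟨i, hi, rfl⟩ := mem_image.1 hx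
  obtain ⟨j, hj, e'⟩ := mem_image.1 hy
  exact disjoint_left.1 e hi (h.1 j (hJ j hj) i (hI i hi) e' ▸ hj)

theorem En.mem (h : En G P m) {I : Finset ℕ} (hI : ∀ i ∈ I, i ≤ m) {j : ℕ} (hj : j ≤ m) :
    P j ∈ I.image P ↔ j ∈ I :=
  ⟨fun e => by
    obtain ⟨i, hi, e'⟩ := mem_image.1 e
    exact h.1 i (hI i hi) j hj e' ▸ hi, mem_image_of_mem P⟩

/-- A cycle can be opened at any of its vertices. -/
theorem Cy.rot (h : Cy G S) {u : V} (hu : u ∈ S) : ∃ b, Pth G S u b ∧ G.Adj b u := by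
  obtain ⟨a, b, h1, h2, -⟩ := h
  obtain ⟨m, P, e, rfl, rfl, rfl⟩ := h1.enum
  obtain ⟨i, hi, rfl⟩ := mem_image.1 hu
  have hi := (mem_Icc.1 hi).2
  rcases i with _ | i
  · exact ⟨_, h1, h2⟩
  refine ⟨P i, ((e.seg hi le_rfl).append (e.seg (Nat.zero_le i) (by omega)) ?_ h2).of_eq ?_,
    e.2 i hi⟩
  · exact e.disj (by simp) (by simp only [mem_Icc]; omega)
      (disjoint_left.2 fun j => by simp only [mem_Icc]; omega)
  · rw [← image_union]
    congr 1
    ext j
    simp only [mem_union, mem_Icc]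
    omega

theorem Lg.mono {X Y : Finset V} (h : Lg G m X) (e : X ⊆ Y) : Lg G m Y :=
  let ⟨S, h1, h2⟩ := h
  ⟨S, h1.trans e, h2⟩

theorem Pth.walk (h : Pth G S a b) : ∃ w : G.Walk a b, w.IsPath ∧ w.length + 1 = #S ∧
    ∀ x, x ∈ w.support ↔ x ∈ S := by
  induction h with
  | one a => exact ⟨.nil, by simp, by simp, by simp⟩
  | cons h1 h2 _ ih =>
    obtain ⟨w, w1, w2, w3⟩ := ih
    refine ⟨.cons h1 w, w1.cons (by rwa [w3]), ?_, fun x => by simp [w3]⟩
    rw [card_insert_of_notMem h2, SimpleGraph.Walk.length_cons, w2]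

theorem Cy.walk (h : Cy G S) : ∃ (u : V) (c : G.Walk u u), c.IsCycle ∧ c.length = #S ∧
    ∀ x, x ∈ c.support ↔ x ∈ S := by
  obtain ⟨a, b, h1, h2, h3⟩ := h
  obtain ⟨w, w1, w2, w3⟩ := h1.walk
  refine ⟨b, .cons h2 w, (SimpleGraph.Walk.cons_isCycle_iff w h2).2 ⟨w1, fun e => ?_⟩,
    by rw [SimpleGraph.Walk.length_cons, w2], fun x => ?_⟩
  · rw [Sym2.eq_swap] at e
    have := w1.length_eq_one_of_mem_edges e
    omega
  · rw [SimpleGraph.Walk.support_cons, List.mem_cons, w3]
    exact ⟨fun e => e.elim (fun e => e ▸ h1.right) id, .inr⟩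

end Pool.Agent.Lib.MP_b07792_co.EV
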