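import Pool.Agent.Lib.MP_b07792_co.EV.Ctr

/-!
A four-cycle whose removal leaves a dense graph.
-/

namespace Pool.Agent.Lib.MP_b07792_co.EV

open Finset
open scoped Classical

variable {V : Type} {G : SimpleGraph V} {X W : Finset V} {T : ℕ} {a b c u v : V}

theorem ee_even (G : SimpleGraph V) (X : Finset V) : Even (ee G X X) := by
  induction X using Finset.induction_on with
  | empty => simp [ee]
  | insert v X h ih =>
    rw [ee_insert h]
    exact ih.add (even_two_mul _)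

/-- Deleting edges down to a given number. -/
theorem thin {m : ℕ} (h : 2 * m ≤ ee G X X) : ∃ G' ≤ G, ee G' X X = 2 * m := by
  induction hn : ee G X X using Nat.strong_induction_on generalizing G with
  | _ n ih =>
  rcases h.eq_or_lt with e | e
  · exact ⟨G, le_rfl, e.symm⟩
  obtain ⟨u, hu, h1⟩ : ∃ u ∈ X, 0 < dg G u X := by
    by_contra k
    push Not at k
    have := ee_le (G := G) (A := X) (B := X) (k := 0) k
    omega
  obtain ⟨v, hv⟩ := card_pos.1 h1
  rw [mem_filter] at hv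
  have e1 : ee (G.deleteEdges {s(u, v)}) (X.erase u) (X.erase u) =
      ee G (X.erase u) (X.erase u) := by
    refine sum_congr rfl fun a ha => ?_
    rw [dg, dg]
    congr 1
    ext b
    have := ne_of_mem_erase ha
    simp only [mem_filter, mem_erase, SimpleGraph.deleteEdges_adj, Set.mem_singleton_iff,
      Sym2.eq_iff]
    tauto
  have e2 : dg (G.deleteEdges {s(u, v)}) u X + 1 = dg G u X := by
    rw [dg, dg, ← card_erase_add_one (s := {w ∈ X | G.Adj u w}) (mem_filter.2 hv)]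
    congr 2
    ext w
    have := hv.2.ne
    simp only [mem_filter, mem_erase, SimpleGraph.deleteEdges_adj, Set.mem_singleton_iff,
      Sym2.eq_iff]
    tauto
  have e3 := ee_erase (G := G) hu
  have e4 := ee_erase (G := G.deleteEdges {s(u, v)}) hu
  obtain ⟨k, hk⟩ := ee_even G X
  obtain ⟨G', g1, g2⟩ := ih _ (by omega) (G := G.deleteEdges {s(u, v)}) (by omega) rfl
  exact ⟨G', g1.trans (G.deleteEdges_le _), g2⟩

namespace C4a

/-- the number of non-neighbours -/
noncomputable def nd (G : SimpleGraph V) (X : Finset V) (v : V) : ℤ := #X - 1 - dg G v X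

theorem nn (ha : a ∈ X) (hW : W ⊆ X) (h : a ∉ W) : (#W : ℤ) ≤ nd G X a + dg G a W := by
  have e1 := dg_union (G := G) (v := a) (sdiff_disjoint : Disjoint (X \ W) W)
  have e2 := dg_lt (G := G) (mem_sdiff.2 ⟨ha, h⟩)
  have e3 := card_sdiff_add_card_eq_card hW
  rw [sdiff_union_of_subset hW] at e1
  unfold nd
  omega

theorem nd_nonneg (ha : a ∈ X) : 0 ≤ nd G X a := by
  have := dg_lt (G := G) ha
  unfold nd
  omega

theorem nd_pos (ha : a ∈ X) (hc : c ∈ X) (e : a ≠ c) (h : ¬G.Adj a c) : 1 ≤ nd G X a := by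
  have := nn (G := G) ha (singleton_subset_iff.2 hc) (by simpa using e)
  simpa [dg, filter_singleton, h] using this

theorem pairs {N : Finset V} {f : V → ℤ} {K : ℤ} (h2 : 2 ≤ #N)
    (h : ∀ a ∈ N, ∀ c ∈ N, a ≠ c → f a + f c ≤ K) : 2 * ∑ a ∈ N, f a ≤ #N * K := by
  obtain ⟨a, ha, hm⟩ := exists_max_image N f (card_pos.1 (by omega))
  have e1 := card_erase_add_one ha
  obtain ⟨c, hc⟩ := card_pos.1 (show 0 < #(N.erase a) by omega)
  have e2 := card_erase_add_one hc
  have e3 := sum_le_card_nsmul ((N.erase a).erase c) (fun w => 2 * f w) K fun w hw => by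
    have w1 := mem_erase.1 (mem_of_mem_erase hw)
    have := h w w1.2 a ha w1.1
    have := hm w w1.2
    show 2 * f w ≤ K
    omega
  have e4 := h c (mem_of_mem_erase hc) a ha (ne_of_mem_erase hc)
  rw [← mul_sum, nsmul_eq_mul] at e3
  rw [← sum_erase_add _ _ ha, ← sum_erase_add _ _ hc, ← e1, ← e2]
  push_cast
  linarith

theorem arith {T μ j y m q : ℤ} (hT : 3 ≤ T) (hμ : 2 ≤ μ) (j1 : 1 ≤ j) (j2 : j + 1 ≤ T)
    (y0 : 0 ≤ y) (y1 : 3 * y ≤ μ) (hm : m ≤ y + q) (hq : q * T ≤ 2 * T + μ)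
    (h : (2 * T - j) * (μ - 1 + j + y) ≤ 2 * (m * j)) : False := by
  have e1 : j * q < 2 * j + μ := by
    refine lt_of_mul_lt_mul_right ?_ (show 0 ≤ T by omega)
    have := mul_le_mul_of_nonneg_left hq (show 0 ≤ j by omega)
    have := mul_lt_mul_of_pos_right (show j < T by omega) (show 0 < μ by omega)
    linarith
  have e2 := mul_le_mul_of_nonneg_right hm (show 0 ≤ j by omega)
  have e3 := mul_nonneg (show 0 ≤ T - 1 - j by omega) y0
  have e4 := mul_le_mul_of_nonneg_left y1 (show 0 ≤ T - 3 by omega)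
  have e5 := mul_nonneg (show 0 ≤ T - 1 - j by omega) (show 0 ≤ μ - 1 + j by omega)
  have e6 := mul_nonneg (show 0 ≤ T - 3 by omega) (show 0 ≤ j by omega)
  have e7 := mul_nonneg (show 0 ≤ T by omega) (show 0 ≤ μ - 2 by omega)
  linarith

theorem cyc (hvb : v ≠ b) (hac : a ≠ c) (e1 : G.Adj v a) (e2 : G.Adj a b) (e3 : G.Adj b c)
    (e4 : G.Adj c v) : Cy G {v, a, b, c} ∧ #({v, a, b, c} : Finset V) = 4 := by
  have n1 : b ∉ ({c} : Finset V) := by simp [e3.ne]
  have n2 : a ∉ ({b, c} : Finset V) := by simp [e2.ne, hac]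
  have n3 : v ∉ ({a, b, c} : Finset V) := by simp [e1.ne, hvb, e4.ne']
  have k : #({v, a, b, c} : Finset V) = 4 := by
    rw [card_insert_of_notMem n3, card_insert_of_notMem n2, card_insert_of_notMem n1, card_singleton]
  exact ⟨⟨v, c, .cons e1 n3 (.cons e2 n2 (.cons e3 n1 (.one c))), e4, by omega⟩, k⟩

/-- no four-cycle is good -/
def Fail (G : SimpleGraph V) (X : Finset V) (T : ℕ) : Prop :=
  ∀ S ⊆ X, Cy G S → #S = 4 → ee G (X \ S) (X \ S) ≤ 2 * (T - 2) * #(X \ S)

theorem f0 (hT : 2 ≤ T) (he : ee G X X = 2 * T * #X) (hF : Fail G X T) (hv : v ∈ X) (ha : a ∈ X)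
    (hb : b ∈ X) (hc : c ∈ X) (hvb : v ≠ b) (hac : a ≠ c) (e1 : G.Adj v a) (e2 : G.Adj a b)
    (e3 : G.Adj b c) (e4 : G.Adj c v) : nd G X v + nd G X a + nd G X b + nd G X c +
      (if G.Adj v b then 1 else 0) + (if G.Adj a c then 1 else 0) ≤ 2 * (#X - 1 - 2 * T) + 2 := by
  obtain ⟨k1, k2⟩ := cyc hvb hac e1 e2 e3 e4
  have n1 : b ∉ ({c} : Finset V) := by simp [e3.ne]
  have n2 : a ∉ ({b, c} : Finset V) := by simp [e2.ne, hac]
  have n3 : v ∉ ({a, b, c} : Finset V) := by simp [e1.ne, hvb, e4.ne']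
  have hS : ({v, a, b, c} : Finset V) ⊆ X := by simp [insert_subset_iff, *]
  have p1 := hF _ hS k1 k2
  have p2 := ee_union (G := G) (disjoint_sdiff : Disjoint {v, a, b, c} (X \ {v, a, b, c}))
  have p3 := ee_union_right (G := G) (C := {v, a, b, c})
    (disjoint_sdiff : Disjoint {v, a, b, c} (X \ {v, a, b, c}))
  rw [union_sdiff_of_subset hS] at p2 p3
  have p4 : ee G {v, a, b, c} X = dg G v X + (dg G a X + (dg G b X + dg G c X)) := by
    rw [ee, sum_insert n3, sum_insert n2, sum_insert n1, sum_singleton]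
  have p5 : 8 + 2 * (if G.Adj v b then 1 else 0) + 2 * (if G.Adj a c then 1 else 0) ≤
      ee G {v, a, b, c} {v, a, b, c} := by
    rw [ee_insert n3, ee_insert n2, ee_insert n1, dg_eq, dg_eq, dg_eq, sum_insert n2, sum_insert n1,
      sum_insert n1, sum_singleton, sum_singleton, sum_singleton, if_pos e1, if_pos e2, if_pos e3,
      if_pos e4.symm]
    omega
  have p6 := card_sdiff_add_card_eq_card hS
  obtain ⟨t, rfl⟩ : ∃ t, T = t + 2 := ⟨T - 2, by omega⟩
  rw [Nat.add_sub_cancel] at p1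
  rw [k2] at p6
  have p7 : 2 * (t + 2) * #X = 2 * t * #(X \ {v, a, b, c}) + 8 * t + 4 * #X := by
    rw [← p6]
    ring
  unfold nd
  split_ifs at p5 ⊢ <;> omega

end C4a

open C4a in
/-- A four-cycle whose removal leaves a dense graph. -/
theorem c4' (hT : 3 ≤ T) (hn : 2 * T + 2 ≤ #X) (he : ee G X X = 2 * T * #X)
    (h1 : ∀ v ∈ X, 1 ≤ dg G v X)
    (h3 : 2 * T + 3 ≤ #X → ∀ u ∈ X, ∀ v ∈ X, G.Adj u v → T ≤ #(cn G u v X)) :
    ∃ S ⊆ X, Cy G S ∧ #S = 4 ∧ 2 * (T - 2) * #(X \ S) < ee G (X \ S) (X \ S) := by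
  by_contra hF
  replace hF : Fail G X T := fun S s1 s2 s3 => not_lt.1 fun k => hF ⟨S, s1, s2, s3, k⟩
  obtain ⟨μ, hμ⟩ : ∃ μ : ℤ, μ = #X - 1 - 2 * T := ⟨_, rfl⟩
  have F := fun v a b c => f0 (v := v) (a := a) (b := b) (c := c) (by omega) he hF
  rw [← hμ] at F
  have nb : ∀ v ∈ X, ∃ b ∈ X, G.Adj v b := fun v hv =>
    let ⟨b, hb⟩ := card_pos.1 (h1 v hv)
    ⟨b, mem_filter.1 hb⟩
  have t2 : ∀ v ∈ X, ∀ b ∈ X, G.Adj v b → 2 ≤ #(cn G v b X) := fun v hv b hb e => by
    rcases hn.eq_or_lt with n | n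
    · have hb' : b ∈ X.erase v := mem_erase.2 ⟨e.ne', hb⟩
      have p1 := ee_erase (G := G) hv
      have p2 := ee_erase (G := G) hb'
      have p3 := ee_self_le G ((X.erase v).erase b)
      have p4 := card_erase_add_one hv
      have p5 := card_erase_add_one hb'
      have p6 : dg G b (X.erase v) + 1 ≤ dg G b X := by
        conv_rhs => rw [← insert_erase hv, dg, filter_insert, if_pos e.symm,
          card_insert_of_notMem (fun k => notMem_erase v X (mem_filter.1 k).1)]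
        exact le_rfl
      have p7 : dg G v X + dg G b X ≤ #X + #(cn G v b X) := by
        rw [dg, dg, ← card_union_add_card_inter, ← filter_and]
        exact add_le_add (card_le_card (union_subset (filter_subset _ _) (filter_subset _ _))) le_rfl
      have p8 : #((X.erase v).erase b) = 2 * T := by omega
      rw [p8] at p3
      rw [← n] at he p7
      nlinarith
    · exact (show 2 ≤ T by omega).trans (h3 n v hv b hb e)
  have F3 : ∀ v ∈ X, ∀ b ∈ X, v ≠ b → 2 ≤ #(cn G v b X) →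
      nd G X v + nd G X b + (if G.Adj v b then 1 else 0) ≤ 2 * μ + 1 := fun v hv b hb e k => by
    obtain ⟨a, ha, c, hc, hac⟩ := one_lt_card.1 k
    rw [mem_cn] at ha hc
    have p := F v a b c hv ha.1 hb hc.1 e hac ha.2.1 ha.2.2.symm hc.2.2 hc.2.1.symm
    have := nd_nonneg (G := G) ha.1
    have := nd_nonneg (G := G) hc.1
    by_cases k : G.Adj a c
    · rw [if_pos k] at p
      omega
    · have := nd_pos ha.1 hc.1 hac k
      rw [if_neg k] at p
      omega
  have S0 : ∑ v ∈ X, (nd G X v - μ) = 0 := by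
    have : (∑ v ∈ X, (dg G v X : ℤ)) = 2 * T * #X := by exact_mod_cast he
    simp only [nd, sum_sub_distrib, this, sum_const, nsmul_eq_mul, hμ]
    ring
  obtain ⟨v, hv, hm⟩ := exists_max_image X (nd G X) (card_pos.1 (by omega))
  obtain ⟨j, hj⟩ : ∃ j, nd G X v = μ + j := ⟨nd G X v - μ, by ring⟩
  have j1 : 1 ≤ j := by
    by_contra k
    have all := (sum_eq_zero_iff_of_nonpos fun w hw => by have := hm w hw; omega).1 S0
    obtain ⟨b, hb, e⟩ := nb v hv
    obtain ⟨a, ha, c, hc, hac⟩ := one_lt_card.1 (t2 v hv b hb e)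
    rw [mem_cn] at ha hc
    have p := F v a b c hv ha.1 hb hc.1 e.ne hac ha.2.1 ha.2.2.symm hc.2.2 hc.2.1.symm
    have := all v hv
    have := all a ha.1
    have := all b hb
    have := all c hc.1
    rw [if_pos e] at p
    split_ifs at p <;> omega
  obtain ⟨N, hN⟩ : ∃ N, N = {w ∈ X | G.Adj v w} := ⟨_, rfl⟩
  have mN : ∀ {w}, w ∈ N ↔ w ∈ X ∧ G.Adj v w := fun {w} => by rw [hN, mem_filter]
  have NX : N ⊆ X := fun w hw => (mN.1 hw).1
  have cN : (#N : ℤ) = 2 * T - j := by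
    have : #N = dg G v X := by rw [hN, dg]
    unfold nd at hj
    omega
  rcases hn.eq_or_lt with n | n
  · have z : ∀ w ∈ N, nd G X w = 0 ∧ j = 1 := fun w hw => by
      rw [mN] at hw
      have p := F3 v hv w hw.1 hw.2.ne (t2 v hv w hw.1 hw.2)
      have := nd_nonneg (G := G) hw.1
      rw [if_pos hw.2] at p
      omega
    obtain ⟨b, hb⟩ := nb v hv
    have j2 := (z b (mN.2 hb)).2
    have p1 := sum_le_card_nsmul N (fun w => nd G X w - μ) (-1) fun w hw => by
      have := (z w hw).1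
      show nd G X w - μ ≤ -1
      omega
    have p2 := sum_le_card_nsmul (X \ N) (fun w => nd G X w - μ) 1 fun w hw => by
      have := hm w (mem_sdiff.1 hw).1
      show nd G X w - μ ≤ 1
      omega
    have p3 := card_sdiff_add_card_eq_card NX
    rw [← sum_sdiff NX] at S0
    rw [nsmul_eq_mul] at p1 p2
    omega
  replace h3 := h3 n
  obtain ⟨B, hB⟩ : ∃ B, B = {w ∈ X | μ + 1 ≤ nd G X w} := ⟨_, rfl⟩
  have mB : ∀ {w}, w ∈ B ↔ w ∈ X ∧ μ + 1 ≤ nd G X w := fun {w} => by rw [hB, mem_filter]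
  have BX : B ⊆ X := fun w hw => (mB.1 hw).1
  have B1 : ∀ w ∈ B, ∀ w' ∈ B, w ≠ w' → #(cn G w w' X) ≤ 1 := fun w hw w' hw' e => by
    by_contra k
    rw [mB] at hw hw'
    have p := F3 w hw.1 w' hw'.1 e (by omega)
    split_ifs at p <;> omega
  have NB : N ⊆ X \ B := fun w hw => by
    rw [mN] at hw
    refine mem_sdiff.2 ⟨hw.1, fun k => ?_⟩
    have := B1 v (mB.2 ⟨hv, by omega⟩) w k hw.2.ne
    have := t2 v hv w hw.1 hw.2
    omega
  have cs : ∀ a, cn G v a X ⊆ N := fun a w hw => mN.2 ⟨(mem_cn.1 hw).1, (mem_cn.1 hw).2.1⟩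
  obtain ⟨b, hb⟩ := nb v hv
  have d1 : T + 1 ≤ #N := by
    have p1 := h3 v hv b hb.1 hb.2
    have p2 : cn G v b X ⊆ N.erase b := fun w hw =>
      mem_erase.2 ⟨(mem_cn.1 hw).2.2.ne', cs b hw⟩
    have := card_le_card p2
    have := card_erase_add_one (mN.2 hb)
    omega
  obtain ⟨u, hu, hy⟩ := exists_min_image N (nd G X) ⟨b, mN.2 hb⟩
  have uX := NX hu
  have P : ∀ a ∈ N, ∀ c ∈ N, a ≠ c → nd G X a + nd G X c ≤ μ + 1 - j - nd G X u :=
    fun a ha c hc e => by
      have p1 := h3 v hv a (NX ha) (mN.1 ha).2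
      have p2 := h3 v hv c (NX hc) (mN.1 hc).2
      have p3 := card_union_add_card_inter (cn G v a X) (cn G v c X)
      have p4 := card_le_card (union_subset (cs a) (cs c))
      obtain ⟨w, hw⟩ := card_pos.1 (show 0 < #(cn G v a X ∩ cn G v c X) by omega)
      rw [mem_inter, mem_cn, mem_cn] at hw
      have p5 := F v a w c hv (NX ha) hw.1.1 (NX hc) hw.1.2.1.ne e (mN.1 ha).2 hw.1.2.2
        hw.2.2.2.symm (mN.1 hc).2.symm
      have := hy w (mN.2 ⟨hw.1.1, hw.1.2.1⟩)
      rw [if_pos hw.1.2.1] at p5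
      split_ifs at p5 <;> omega
  have y1 : 3 * nd G X u ≤ μ := by
    have := card_erase_add_one hu
    obtain ⟨c, hc⟩ := card_pos.1 (show 0 < #(N.erase u) by omega)
    have := P c (mem_of_mem_erase hc) u hu (ne_of_mem_erase hc)
    have := hy c (mem_of_mem_erase hc)
    omega
  have q1 : dg G u B * T ≤ #(X.erase u) := by
    have p1 : ∀ w ∈ {w ∈ B | G.Adj u w}, T ≤ #(cn G u w X) := fun w hw =>
      h3 u uX w (BX (mem_filter.1 hw).1) (mem_filter.1 hw).2
    refine (card_nsmul_le_sum _ _ _ p1).trans ?_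
    rw [← card_biUnion]
    · refine card_le_card (biUnion_subset.2 fun w _ z hz => ?_)
      exact mem_erase.2 ⟨(mem_cn.1 hz).2.1.ne', (mem_cn.1 hz).1⟩
    · intro w hw w' hw' e
      rw [coe_filter] at hw hw'
      refine disjoint_left.2 fun z hz hz' => ?_
      rw [mem_cn] at hz hz'
      exact hz.2.1.ne (card_le_one.1 (B1 w hw.1 w' hw'.1 e) u
        (mem_cn.2 ⟨uX, hw.2.symm, hw'.2.symm⟩) z (mem_cn.2 ⟨hz.1, hz.2.2, hz'.2.2⟩))
  have q2 := card_erase_add_one uX
  have D1 := sum_le_card_nsmul B (fun w => nd G X w - μ) j fun w hw => by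
    have := hm w (BX hw)
    show nd G X w - μ ≤ j
    omega
  have D2 : ∑ w ∈ N, (μ - nd G X w) ≤ ∑ w ∈ X \ B, (μ - nd G X w) :=
    sum_le_sum_of_subset_of_nonneg NB fun w hw _ => by
      rw [mem_sdiff, mB] at hw
      have := not_and.1 hw.2 hw.1
      omega
  have D3 := pairs (by omega) P
  rw [← sum_sdiff BX] at S0
  simp only [sum_sub_distrib, sum_const, nsmul_eq_mul] at S0 D1 D2
  refine arith (T := T) (μ := μ) (j := j) (y := nd G X u) (m := #B) (q := dg G u B) (by omega)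
    (by omega) j1 (by omega) (nd_nonneg uX) y1 (nn uX BX (mem_sdiff.1 (NB hu)).2) ?_ ?_
  · have : ((dg G u B * T : ℕ) : ℤ) ≤ #(X.erase u) := by exact_mod_cast q1
    push_cast at this
    omega
  · rw [← cN]
    linarith

/-- The statement used in the induction. -/
def C4St : Prop :=
  ∀ (V : Type) (G : SimpleGraph V) (X : Finset V) (t : ℕ), 1 ≤ t → 2 * (t + 2) + 2 ≤ #X →
    ee G X X = 2 * (t + 2) * #X → (∀ v ∈ X, 1 ≤ dg G v X) →
    (#X ≠ 2 * (t + 2) + 2 → ∀ u ∈ X, ∀ v ∈ X, G.Adj u v → t + 2 ≤ #(cn G u v X)) →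
    ∃ S ⊆ X, Cy G S ∧ 4 ≤ #S ∧ 2 * t * #(X \ S) < ee G (X \ S) (X \ S)

theorem c4 : C4St := fun _ _ _ t ht hn he h1 h3 =>
  let ⟨S, s1, s2, s3, s4⟩ := c4' (T := t + 2) (by omega) hn he h1 fun k => h3 (by omega)
  ⟨S, s1, s2, s3.ge, s4⟩

end Pool.Agent.Lib.MP_b07792_co.EV
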