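import Pool.Agent.Lib.MP_b07792_co.EV.C4

/-!
Disjoint cycles with at least four vertices: average degree `4 k - 1` gives `k` of them.
-/

namespace Pool.Agent.Lib.MP_b07792_co.EV

open Finset
open scoped Classical

variable {V : Type} {G : SimpleGraph V} {X W : Finset V} {t : ℕ} {a b c u v : V}

namespace C4b

open C4a

theorem arith {T μ j y m q : ℤ} (hT : 3 ≤ T) (j1 : 1 ≤ j) (j2 : j ≤ T)
    (y0 : 0 ≤ y) (y1 : 3 * y ≤ μ - j) (hm : m ≤ y + q) (hq : q * T ≤ 2 * T + 1 + μ)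
    (h : (2 * T + 1 - j) * (μ + j + y) ≤ 2 * (m * j) + 2) : False := by
  rcases (show 1 ≤ μ by omega).eq_or_lt with rfl | hμ
  · obtain rfl : j = 1 := by omega
    obtain rfl : y = 0 := by omega
    have : q < 3 := lt_of_mul_lt_mul_right (by linarith) (show 0 ≤ T by omega)
    omega
  have e1 : 3 * (j * q) ≤ 7 * j + 3 * μ := by
    refine le_of_mul_le_mul_right ?_ (show 0 < T by omega)
    have := mul_le_mul_of_nonneg_left hq (show 0 ≤ j by omega)
    have := mul_le_mul_of_nonneg_right j2 (show 0 ≤ μ by omega)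
    have := mul_le_mul_of_nonneg_left hT (show 0 ≤ j by omega)
    linarith
  have e2 := mul_le_mul_of_nonneg_right hm (show 0 ≤ j by omega)
  have e3 := mul_nonneg (show 0 ≤ T - j by omega) y0
  have e4 := mul_le_mul_of_nonneg_left y1 (show 0 ≤ T - 1 by omega)
  have e5 := mul_nonneg (show 0 ≤ T - j by omega) (show 0 ≤ μ + j by omega)
  have e6 := mul_nonneg (show 0 ≤ T - 3 by omega) (show 0 ≤ j by omega)
  have e7 := mul_nonneg (show 0 ≤ T - 1 by omega) (show 0 ≤ μ - 2 by omega)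
  linarith

/-- no four-cycle is good -/
def Fail (G : SimpleGraph V) (X : Finset V) (t : ℕ) : Prop :=
  ∀ S ⊆ X, Cy G S → #S = 4 → ee G (X \ S) (X \ S) < t * #(X \ S)

theorem f0 (he : (t + 4) * #X ≤ ee G X X) (hF : Fail G X t) (hv : v ∈ X) (ha : a ∈ X)
    (hb : b ∈ X) (hc : c ∈ X) (hvb : v ≠ b) (hac : a ≠ c) (e1 : G.Adj v a) (e2 : G.Adj a b)
    (e3 : G.Adj b c) (e4 : G.Adj c v) : 2 * (nd G X v + nd G X a + nd G X b + nd G X c +
      (if G.Adj v b then 1 else 0) + (if G.Adj a c then 1 else 0)) ≤ 4 * (#X - t - 5) + 3 := by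
  obtain ⟨k1, k2⟩ := cyc hvb hac e1 e2 e3 e4
  have n1 : b ∉ ({c} : Finset V) := by simp [e3.ne]
  have n2 : a ∉ ({b, c} : Finset V) := by simp [e2.ne, hac]
  have n3 : v ∉ ({a, b, c} : Finset V) := by simp [e1.ne, hvb, e4.ne']
  have hS : ({v, a, b, c} : Finset V) ⊆ X := by simp [insert_subset_iff, *]
  have p1 := hF _ hS k1 k2
  have p2 := ee_union (G := G) (disjoint_sdiff : Disjoint {v, a, b, c} (X \ {v, a, b, c}))
  have p3 := ee_union_right (G := G) (C := {v, a, b, c})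
    (disjoint_sdiff : Disjoint {v, a, b, c} (X \ {v, a, b, c}))
  rw [union_sdiff_of_subset hS] at p2 p3
  have p4 : ee G {v, a, b, c} X = dg G v X + (dg G a X + (dg G b X + dg G c X)) := by
    rw [ee, sum_insert n3, sum_insert n2, sum_insert n1, sum_singleton]
  have p5 : 8 + 2 * (if G.Adj v b then 1 else 0) + 2 * (if G.Adj a c then 1 else 0) ≤
      ee G {v, a, b, c} {v, a, b, c} := by
    rw [ee_insert n3, ee_insert n2, ee_insert n1, dg_eq, dg_eq, dg_eq, sum_insert n2, sum_insert n1,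
      sum_insert n1, sum_singleton, sum_singleton, sum_singleton, if_pos e1, if_pos e2, if_pos e3,
      if_pos e4.symm]
    omega
  have p6 := card_sdiff_add_card_eq_card hS
  rw [k2] at p6
  have p7 : (t + 4) * #X = t * #(X \ {v, a, b, c}) + 4 * t + 4 * #X := by
    rw [← p6]
    ring
  unfold nd
  split_ifs at p5 ⊢ <;> omega

end C4b

open C4a in
/-- A four-cycle whose removal leaves a dense graph, for odd average degree. -/
theorem c4h {T : ℕ} (hT : 3 ≤ T) (ht : t + 3 = 2 * T) (hn : X.Nonempty)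
    (he : (t + 4) * #X ≤ ee G X X) (he' : ee G X X ≤ (t + 4) * #X + 1)
    (h1 : ∀ v ∈ X, 1 ≤ dg G v X) (h3 : ∀ u ∈ X, ∀ v ∈ X, G.Adj u v → T ≤ #(cn G u v X)) :
    ∃ S ⊆ X, Cy G S ∧ #S = 4 ∧ t * #(X \ S) ≤ ee G (X \ S) (X \ S) := by
  by_contra hF
  replace hF : C4b.Fail G X t := fun S s1 s2 s3 => not_le.1 fun k => hF ⟨S, s1, s2, s3, k⟩
  obtain ⟨μ, hμ⟩ : ∃ μ : ℤ, μ = #X - t - 5 := ⟨_, rfl⟩
  have F := fun v a b c => C4b.f0 (v := v) (a := a) (b := b) (c := c) he hF
  rw [← hμ] at F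
  have nb : ∀ v ∈ X, ∃ b ∈ X, G.Adj v b := fun v hv =>
    let ⟨b, hb⟩ := card_pos.1 (h1 v hv)
    ⟨b, mem_filter.1 hb⟩
  have F3 : ∀ v ∈ X, ∀ b ∈ X, v ≠ b → 2 ≤ #(cn G v b X) →
      nd G X v + nd G X b ≤ 2 * μ := fun v hv b hb e k => by
    obtain ⟨a, ha, c, hc, hac⟩ := one_lt_card.1 k
    rw [mem_cn] at ha hc
    have p := F v a b c hv ha.1 hb hc.1 e hac ha.2.1 ha.2.2.symm hc.2.2 hc.2.1.symm
    have := nd_nonneg (G := G) ha.1
    have := nd_nonneg (G := G) hc.1
    by_cases k : G.Adj a c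
    · rw [if_pos k] at p
      split_ifs at p <;> omega
    · have := nd_pos ha.1 hc.1 hac k
      rw [if_neg k] at p
      split_ifs at p <;> omega
  have S0 : ∑ v ∈ X, (μ - nd G X v) ≤ 1 := by
    have : (∑ v ∈ X, (dg G v X : ℤ)) ≤ (t + 4) * #X + 1 := by exact_mod_cast he'
    simp only [nd, sum_sub_distrib, sum_const, nsmul_eq_mul, hμ]
    linarith
  obtain ⟨v, hv, hm⟩ := exists_max_image X (nd G X) hn
  obtain ⟨j, hj⟩ : ∃ j, nd G X v = μ + j := ⟨nd G X v - μ, by ring⟩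
  obtain ⟨b, hb⟩ := nb v hv
  have j1 : 1 ≤ j := by
    by_contra k
    obtain ⟨a, ha, c, hc, hac⟩ := one_lt_card.1 ((show 2 ≤ T by omega).trans (h3 v hv b hb.1 hb.2))
    rw [mem_cn] at ha hc
    have p := F v a b c hv ha.1 hb.1 hc.1 hb.2.ne hac ha.2.1 ha.2.2.symm hc.2.2 hc.2.1.symm
    have n1 : b ∉ ({c} : Finset V) := by simp [hc.2.2.ne]
    have n2 : a ∉ ({b, c} : Finset V) := by simp [ha.2.2.ne', hac]
    have n3 : v ∉ ({a, b, c} : Finset V) := by simp [ha.2.1.ne, hb.2.ne, hc.2.1.ne]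
    have hS : ({v, a, b, c} : Finset V) ⊆ X := by simp [insert_subset_iff, *]
    have q := sum_le_sum_of_subset_of_nonneg (f := fun w => μ - nd G X w) hS fun w hw _ => by
      have := hm w hw
      show 0 ≤ μ - nd G X w
      omega
    rw [sum_insert n3, sum_insert n2, sum_insert n1, sum_singleton] at q
    have := nd_nonneg (G := G) hv
    have := nd_nonneg (G := G) ha.1
    have := nd_nonneg (G := G) hb.1
    have := nd_nonneg (G := G) hc.1
    rw [if_pos hb.2] at p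
    by_cases k : G.Adj a c
    · rw [if_pos k] at p
      omega
    · have := nd_pos ha.1 hc.1 hac k
      rw [if_neg k] at p
      omega
  obtain ⟨N, hN⟩ : ∃ N, N = {w ∈ X | G.Adj v w} := ⟨_, rfl⟩
  have mN : ∀ {w}, w ∈ N ↔ w ∈ X ∧ G.Adj v w := fun {w} => by rw [hN, mem_filter]
  have NX : N ⊆ X := fun w hw => (mN.1 hw).1
  have cN : (#N : ℤ) = 2 * T + 1 - j := by
    have : #N = dg G v X := by rw [hN, dg]
    unfold nd at hj
    omega
  obtain ⟨B, hB⟩ : ∃ B, B = {w ∈ X | μ + 1 ≤ nd G X w} := ⟨_, rfl⟩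
  have mB : ∀ {w}, w ∈ B ↔ w ∈ X ∧ μ + 1 ≤ nd G X w := fun {w} => by rw [hB, mem_filter]
  have BX : B ⊆ X := fun w hw => (mB.1 hw).1
  have B1 : ∀ w ∈ B, ∀ w' ∈ B, w ≠ w' → #(cn G w w' X) ≤ 1 := fun w hw w' hw' e => by
    by_contra k
    rw [mB] at hw hw'
    have p := F3 w hw.1 w' hw'.1 e (by omega)
    omega
  have NB : N ⊆ X \ B := fun w hw => by
    rw [mN] at hw
    refine mem_sdiff.2 ⟨hw.1, fun k => ?_⟩
    have := B1 v (mB.2 ⟨hv, by omega⟩) w k hw.2.ne
    have := h3 v hv w hw.1 hw.2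
    omega
  have cs : ∀ a, cn G v a X ⊆ N := fun a w hw => mN.2 ⟨(mem_cn.1 hw).1, (mem_cn.1 hw).2.1⟩
  have d1 : T + 1 ≤ #N := by
    have p1 := h3 v hv b hb.1 hb.2
    have p2 : cn G v b X ⊆ N.erase b := fun w hw =>
      mem_erase.2 ⟨(mem_cn.1 hw).2.2.ne', cs b hw⟩
    have := card_le_card p2
    have := card_erase_add_one (mN.2 hb)
    omega
  obtain ⟨u, hu, hy⟩ := exists_min_image N (nd G X) ⟨b, mN.2 hb⟩
  have uX := NX hu
  have P : ∀ a ∈ N, ∀ c ∈ N, a ≠ c → nd G X a + nd G X c ≤ μ - j - nd G X u :=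
    fun a ha c hc e => by
      have p1 := h3 v hv a (NX ha) (mN.1 ha).2
      by_cases k : G.Adj a c
      · obtain ⟨w, hw, wc⟩ := exists_mem_ne (show 1 < #(cn G v a X) by omega) c
        rw [mem_cn] at hw
        have p5 := F v c a w hv (NX hc) (NX ha) hw.1 (mN.1 ha).2.ne wc.symm (mN.1 hc).2 k.symm
          hw.2.2 hw.2.1.symm
        have := hy w (mN.2 ⟨hw.1, hw.2.1⟩)
        rw [if_pos (mN.1 ha).2] at p5
        split_ifs at p5 <;> omega
      have p2 := h3 v hv c (NX hc) (mN.1 hc).2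
      have p3 := card_union_add_card_inter (cn G v a X) (cn G v c X)
      have p4 : #(cn G v a X ∪ cn G v c X) ≤ #(N.erase a) :=
        card_le_card (union_subset (fun w hw => mem_erase.2 ⟨(mem_cn.1 hw).2.2.ne', cs a hw⟩)
          fun w hw => mem_erase.2 ⟨fun z => k (z ▸ (mem_cn.1 hw).2.2.symm), cs c hw⟩)
      have p6 := card_erase_add_one ha
      obtain ⟨w, hw⟩ := card_pos.1 (show 0 < #(cn G v a X ∩ cn G v c X) by omega)
      rw [mem_inter, mem_cn, mem_cn] at hw
      have p5 := F v a w c hv (NX ha) hw.1.1 (NX hc) hw.1.2.1.ne e (mN.1 ha).2 hw.1.2.2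
        hw.2.2.2.symm (mN.1 hc).2.symm
      have := hy w (mN.2 ⟨hw.1.1, hw.1.2.1⟩)
      rw [if_pos hw.1.2.1, if_neg k] at p5
      omega
  have y1 : 3 * nd G X u ≤ μ - j := by
    have := card_erase_add_one hu
    obtain ⟨c, hc⟩ := card_pos.1 (show 0 < #(N.erase u) by omega)
    have := P c (mem_of_mem_erase hc) u hu (ne_of_mem_erase hc)
    have := hy c (mem_of_mem_erase hc)
    omega
  have q1 : dg G u B * T ≤ #(X.erase u) := by
    have p1 : ∀ w ∈ {w ∈ B | G.Adj u w}, T ≤ #(cn G u w X) := fun w hw =>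
      h3 u uX w (BX (mem_filter.1 hw).1) (mem_filter.1 hw).2
    refine (card_nsmul_le_sum _ _ _ p1).trans ?_
    rw [← card_biUnion]
    · refine card_le_card (biUnion_subset.2 fun w _ z hz => ?_)
      exact mem_erase.2 ⟨(mem_cn.1 hz).2.1.ne', (mem_cn.1 hz).1⟩
    · intro w hw w' hw' e
      rw [coe_filter] at hw hw'
      refine disjoint_left.2 fun z hz hz' => ?_
      rw [mem_cn] at hz hz'
      exact hz.2.1.ne (card_le_one.1 (B1 w hw.1 w' hw'.1 e) u
        (mem_cn.2 ⟨uX, hw.2.symm, hw'.2.symm⟩) z (mem_cn.2 ⟨hz.1, hz.2.2, hz'.2.2⟩))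
  have q2 := card_erase_add_one uX
  have D1 := sum_le_card_nsmul B (fun w => nd G X w - μ) j fun w hw => by
    have := hm w (BX hw)
    show nd G X w - μ ≤ j
    omega
  have D2 : ∑ w ∈ N, (μ - nd G X w) ≤ ∑ w ∈ X \ B, (μ - nd G X w) :=
    sum_le_sum_of_subset_of_nonneg NB fun w hw _ => by
      rw [mem_sdiff, mB] at hw
      have := not_and.1 hw.2 hw.1
      omega
  have D3 := pairs (by omega) P
  rw [← sum_sdiff BX] at S0
  simp only [sum_sub_distrib, sum_const, nsmul_eq_mul] at S0 D1 D2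
  refine C4b.arith (T := T) (μ := μ) (j := j) (y := nd G X u) (m := #B) (q := dg G u B) (by omega)
    j1 (by omega) (nd_nonneg uX) y1 (nn uX BX (mem_sdiff.1 (NB hu)).2) ?_ ?_
  · have : ((dg G u B * T : ℕ) : ℤ) ≤ #(X.erase u) := by exact_mod_cast q1
    push_cast at this
    omega
  · rw [← cN]
    linarith

theorem Nu.sub {G' : SimpleGraph V} {m k : ℕ} (h : Nu G' m k X) (e : G' ≤ G) : Nu G m k X := by
  induction k generalizing X with
  | zero => trivial
  | succ k ih =>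
    obtain ⟨S, h1, ⟨a, b, h2, h3, h4⟩, h5, h6⟩ := h
    exact ⟨S, h1, ⟨a, b, h2.mono fun _ _ _ _ z => e z, e h3, h4⟩, h5, ih h6⟩

/-- Average degree `4 k - 1` gives `k` disjoint cycles with at least four vertices. -/
theorem quad (hD : DiracSt) (k : ℕ) : ∀ (X : Finset V) (G : SimpleGraph V), X.Nonempty →
    (4 * k + 3) * #X ≤ ee G X X → Nu G 4 (k + 1) X := by
  induction k with
  | zero => exact fun X G h0 he => (eg (l := 2) (j := 3) hD le_rfl h0 rfl (by omega)).nu
  | succ k ihk =>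
  intro X
  induction hX : #X using Nat.strong_induction_on generalizing X with
  | _ n ih =>
  intro G0 h0 he0
  subst hX
  obtain ⟨r, hr⟩ := ee_even G0 X
  obtain ⟨G, g1, g2⟩ := thin (G := G0) (X := X) (m := ((4 * (k + 1) + 3) * #X + 1) / 2) (by omega)
  refine Nu.sub ?_ g1
  have he : (4 * (k + 1) + 3) * #X ≤ ee G X X := by omega
  have big : 4 * (k + 1) + 4 ≤ #X := by
    have p1 := ee_self_le G X
    have p2 := card_pos.2 h0
    exact le_of_mul_le_mul_right (by linarith) p2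
  have ne : ∀ v ∈ X, (X.erase v).Nonempty := fun v hv => card_pos.1 (by
    have := card_erase_add_one hv
    omega)
  by_contra hN
  obtain ⟨S, s1, s2, s3, s4⟩ := c4h (G := G) (T := 2 * k + 3) (t := 4 * k + 3) (by omega) (by omega)
    h0 (by linarith) (by have : (4 * k + 3 + 4) * #X = (4 * (k + 1) + 3) * #X := by ring
                         omega)
    (fun v hv => by
      by_contra z
      have d := card_erase_add_one hv
      have d1 := ee_erase (G := G) hv
      rw [← d, mul_add] at he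
      exact hN ((ih _ (by omega) (X.erase v) rfl G (ne v hv) (by omega)).mono (erase_subset _ _)))
    fun u hu v hv e => by
      by_contra z
      have d := card_erase_add_one hv
      have d1 := con_ee e hu hv
      rw [← d, mul_add] at he
      exact hN ((ih _ (by omega) (X.erase v) rfl (con G u v) (ne v hv) (by omega)).lift e hv)
  have := card_sdiff_add_card_eq_card s1
  exact hN ⟨S, s1, s2, s3.ge, ihk _ G (card_pos.1 (by omega)) s4⟩

end Pool.Agent.Lib.MP_b07792_co.EV
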