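import Pool.Agent.Lib.MP_b07792_co.EV.K

/-!
Contraction of an edge.
-/

namespace Pool.Agent.Lib.MP_b07792_co.EV

open Finset
open scoped Classical

variable {V : Type} {G : SimpleGraph V} {S X : Finset V} {k m : ℕ} {u v : V}

/-- the edges at `v` are copied to `u` -/
def con (G : SimpleGraph V) (u v : V) : SimpleGraph V where
  Adj a b := a ≠ b ∧ (G.Adj a b ∨ (a = u ∧ G.Adj v b) ∨ (b = u ∧ G.Adj v a))
  symm := ⟨fun _ _ h => ⟨h.1.symm, h.2.elim (fun e => .inl e.symm) fun e => .inr e.symm⟩⟩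
  loopless := ⟨fun _ h => h.1 rfl⟩

/-- the common neighbours -/
noncomputable def cn (G : SimpleGraph V) (u v : V) (X : Finset V) : Finset V :=
  {w ∈ X | G.Adj u w ∧ G.Adj v w}

theorem mem_cn {w : V} : w ∈ cn G u v X ↔ w ∈ X ∧ G.Adj u w ∧ G.Adj v w := mem_filter

theorem con_adj {a b : V} (ha : a ≠ u) (hb : b ≠ u) : (con G u v).Adj a b ↔ G.Adj a b :=
  ⟨fun h => h.2.elim id fun e => e.elim (fun e => absurd e.1 ha) fun e => absurd e.1 hb,
    fun h => ⟨h.ne, .inl h⟩⟩

theorem con_adj' {b : V} (hb : b ≠ u) : (con G u v).Adj u b ↔ G.Adj u b ∨ G.Adj v b :=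
  ⟨fun h => h.2.elim .inl fun e => e.elim (fun e => .inr e.2) fun e => absurd e.1 hb,
    fun h => ⟨hb.symm, h.elim .inl fun e => .inr (.inl ⟨rfl, e⟩)⟩⟩

theorem Pth.con {a b : V} (h : Pth (con G u v) S a b) (hu : u ∉ S) : Pth G S a b :=
  h.mono fun _ hx _ hy e => (con_adj (ne_of_mem_of_not_mem hx hu) (ne_of_mem_of_not_mem hy hu)).1 e

theorem Cy.con (h : Cy (con G u v) S) (hu : u ∉ S) : Cy G S :=
  let ⟨a, b, h1, h2, h3⟩ := h
  ⟨a, b, h1.con hu,
    (con_adj (ne_of_mem_of_not_mem h1.right hu) (ne_of_mem_of_not_mem h1.left hu)).1 h2, h3⟩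

theorem Nu.con (h : Nu (con G u v) m k X) (hu : u ∉ X) : Nu G m k X := by
  induction k generalizing X with
  | zero => trivial
  | succ k ih =>
    obtain ⟨S, h1, h2, h3, h4⟩ := h
    exact ⟨S, h1, h2.con fun e => hu (h1 e), h3, ih h4 fun e => hu (mem_sdiff.1 e).1⟩

theorem Cy.lift (h : Cy (EV.con G u v) S) (e : G.Adj u v) (hu : u ∈ S) (hv : v ∉ S) :
    ∃ S' ⊆ insert v S, Cy G S' ∧ #S ≤ #S' := by
  obtain ⟨b, h1, h2⟩ := h.rot hu
  obtain ⟨-, -, -, -, h3⟩ := h
  cases h1 with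
  | one => simp at h3
  | @cons T _ a _ h4 h5 h6 =>
    have h7 := h6.con h5
    have h8 : v ∉ T := fun c => hv (mem_insert_of_mem c)
    have c := card_insert_of_notMem h5
    have c' := card_insert_of_notMem h8
    have d : v ∉ insert u T := hv
    have d' : u ∉ insert v T := by simp [h5, e.ne]
    rcases (con_adj' (ne_of_mem_of_not_mem h6.left h5)).1 h4 with p | p <;>
      rcases (con_adj' (ne_of_mem_of_not_mem h6.right h5)).1 h2.symm with q | q
    · exact ⟨_, subset_insert _ _, ⟨u, b, .cons p h5 h7, q.symm, h3⟩, le_rfl⟩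
    · exact ⟨_, Subset.rfl, ⟨v, b, .cons e.symm d (.cons p h5 h7), q.symm,
        h3.trans (card_le_card (subset_insert _ _))⟩, card_le_card (subset_insert _ _)⟩
    · refine ⟨_, (insert_comm u v T).subset, ⟨u, b, .cons e d' (.cons p h8 h7), q.symm, ?_⟩, ?_⟩ <;>
        rw [card_insert_of_notMem d'] <;> omega
    · exact ⟨_, insert_subset_insert v (subset_insert _ _),
        ⟨v, b, .cons p h8 h7, q.symm, by omega⟩, by omega⟩

theorem Nu.lift (h : Nu (EV.con G u v) m k (X.erase v)) (e : G.Adj u v) (hv : v ∈ X) :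
    Nu G m k X := by
  induction k generalizing X with
  | zero => trivial
  | succ k ih =>
    obtain ⟨S, h1, h2, h3, h4⟩ := h
    have h5 : v ∉ S := fun c => notMem_erase v X (h1 c)
    have h6 := h1.trans (erase_subset v X)
    by_cases hu : u ∈ S
    · obtain ⟨S', a1, a2, a3⟩ := h2.lift e hu h5
      refine ⟨S', a1.trans (insert_subset hv h6), a2, h3.trans a3,
        (h4.con fun c => (mem_sdiff.1 c).2 hu).mono fun x hx => ?_⟩
      rw [mem_sdiff, mem_erase] at hx
      exact mem_sdiff.2 ⟨hx.1.2, fun c => (mem_insert.1 (a1 c)).elim hx.1.1 hx.2⟩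
    · exact ⟨S, h6, h2.con hu, h3, ih (by rwa [erase_sdiff_comm] at h4) (mem_sdiff.2 ⟨hv, h5⟩)⟩

theorem con_ee (e : G.Adj u v) (hu : u ∈ X) (hv : v ∈ X) :
    ee G X X ≤ ee (con G u v) (X.erase v) (X.erase v) + 2 + 2 * #(cn G u v X) := by
  have hu' : u ∈ X.erase v := mem_erase.2 ⟨e.ne, hu⟩
  set Y := (X.erase v).erase u with hY
  have hne : ∀ w ∈ Y, w ≠ u := fun w hw => ne_of_mem_erase hw
  have e1 : ee (con G u v) Y Y = ee G Y Y := sum_congr rfl fun a ha => congrArg card
    (filter_congr fun b hb => con_adj (hne a ha) (hne b hb))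
  have e2 : dg G u Y + dg G v Y ≤ dg (con G u v) u Y + #(cn G u v X) := by
    rw [dg, dg, ← card_union_add_card_inter]
    refine add_le_add (card_le_card fun w hw => ?_) (card_le_card fun w hw => ?_)
    · rw [← filter_or, mem_filter] at hw
      exact mem_filter.2 ⟨hw.1, (con_adj' (hne w hw.1)).2 hw.2⟩
    · rw [← filter_and, mem_filter] at hw
      exact mem_cn.2 ⟨mem_of_mem_erase (mem_of_mem_erase hw.1), hw.2⟩
  have e3 : dg G v (X.erase v) ≤ dg G v Y + 1 := by
    conv_lhs => rw [← insert_erase hu', insert_eq, dg_union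
      (disjoint_singleton_left.2 (notMem_erase u _)), ← hY]
    have := dg_le (G := G) (v := v) (A := {u})
    rw [card_singleton] at this
    omega
  rw [ee_erase hv, ee_erase hu', ee_erase (G := con G u v) hu', ← dg_erase (v := v),
    ← dg_erase (v := u), ← dg_erase (G := con G u v) (v := u), ← hY]
  omega

end Pool.Agent.Lib.MP_b07792_co.EV
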