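import Pool.Agent.Lib.MP_b07792_co.EV.St

/-!
The theorem of Dirac on the circumference.
-/

namespace Pool.Agent.Lib.MP_b07792_co.EV

open Finset Relation
open scoped Classical

namespace Dir

variable {V : Type} {G : SimpleGraph V} {O S W X : Finset V} {P : ℕ → V} {m : ℕ} {a b u v x : V}

theorem suffix (h : Pth G S a b) (hx : x ∈ S) : ∃ T ⊆ S, Pth G T x b := by
  induction h with
  | one a => exact ⟨_, Subset.rfl, mem_singleton.1 hx ▸ .one _⟩
  | cons h1 h2 h3 ih =>
    rcases mem_insert.1 hx with rfl | hx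
    · exact ⟨_, Subset.rfl, .cons h1 h2 h3⟩
    · obtain ⟨T, t1, t2⟩ := ih hx
      exact ⟨T, t1.trans (subset_insert _ _), t2⟩

/-- connected inside `O` -/
def Cn (G : SimpleGraph V) (O : Finset V) : V → V → Prop :=
  ReflTransGen fun u v => u ∈ O ∧ v ∈ O ∧ G.Adj u v

theorem Cn.symm (h : Cn G O u v) : Cn G O v u := by
  induction h with
  | refl => exact ReflTransGen.refl
  | tail _ h ih => exact ReflTransGen.head ⟨h.2.1, h.1, h.2.2.symm⟩ ih

theorem Cn.pth (h : Cn G O u v) (hv : v ∈ O) : ∃ S ⊆ O, Pth G S u v := by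
  induction h using ReflTransGen.head_induction_on with
  | refl => exact ⟨_, singleton_subset_iff.2 hv, .one v⟩
  | @head a c h _ ih =>
    obtain ⟨S, s1, s2⟩ := ih
    by_cases c : a ∈ S
    · obtain ⟨T, t1, t2⟩ := suffix s2 c
      exact ⟨T, t1.trans s1, t2⟩
    · exact ⟨_, insert_subset h.1 s1, .cons h.2.2 c s2⟩

theorem pth_cn (h : Pth G S a b) (hS : S ⊆ O) : ∀ x ∈ S, Cn G O a x := by
  induction h with
  | one a => exact fun x hx => mem_singleton.1 hx ▸ ReflTransGen.refl
  | cons h1 _ h3 ih =>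
    intro x hx
    rcases mem_insert.1 hx with rfl | hx
    · exact ReflTransGen.refl
    · have := (subset_insert _ _).trans hS
      exact ReflTransGen.head ⟨hS (mem_insert_self _ _), this h3.left, h1⟩ (ih this x hx)

/-- `w` is attached to `x` through `O` -/
def At (G : SimpleGraph V) (O : Finset V) (w x : V) : Prop :=
  w ∈ O ∧ ∃ w' ∈ O, Cn G O w w' ∧ G.Adj w' x

theorem At.move (h : At G O u x) (e : Cn G O v u) (hv : v ∈ O) : At G O v x :=
  let ⟨_, w, h1, h2, h3⟩ := h
  ⟨hv, w, h1, ReflTransGen.trans e h2, h3⟩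

/-- a bridge -/
def Br (G : SimpleGraph V) (O : Finset V) (x y : V) : Prop :=
  G.Adj x y ∨ ∃ w, At G O w x ∧ At G O w y

theorem Br.tail (h : Br G O a b) (hb : b ∉ O) : ∃ S ⊆ O, ∃ x, Pth G (insert b S) x b ∧
    G.Adj a x ∧ ∀ w ∈ S, At G O w a ∧ At G O w b := by
  rcases h with h | ⟨w, h1, h2⟩
  · exact ⟨∅, empty_subset _, b, .one b, h, by simp⟩
  obtain ⟨-, w1, a1, a2, a3⟩ := id h1
  obtain ⟨-, w2, b1, b2, b3⟩ := id h2
  obtain ⟨S, s1, s2⟩ := Cn.pth (ReflTransGen.trans a2.symm b2) b1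
  refine ⟨S, s1, w1, (s2.append (.one b) (disjoint_singleton_right.2 fun c => hb (s1 c))
    b3).of_eq (by rw [union_comm, insert_eq]), a3.symm, fun z hz => ?_⟩
  have : Cn G O z w := ReflTransGen.trans (pth_cn s2 s1 z hz).symm a2.symm
  exact ⟨h1.move this (s1 hz), h2.move this (s1 hz)⟩

theorem ext (h : En G P m) {p q : ℕ} (hW : Pth G W x (P p)) (h1 : p ≤ q) (h2 : q ≤ m)
    (h3 : ∀ r, p < r → r ≤ q → P r ∉ W) : Pth G (W ∪ (Icc (p + 1) q).image P) x (P q) := by
  rcases h1.eq_or_lt with rfl | h1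
  · simpa using hW
  refine hW.append (h.seg h1 h2) (disjoint_right.2 fun y hy => ?_) (h.2 p (by omega))
  obtain ⟨r, hr, rfl⟩ := mem_image.1 hy
  exact h3 r (mem_Icc.1 hr).1 (mem_Icc.1 hr).2

theorem cross (h : En G P m) (hP : ∀ i ≤ m, P i ∈ X) (hO : O = X \ (Icc 0 m).image P)
    (hS : ∀ Y Z, ¬Sep G X Y Z) {p : ℕ} (h0 : 0 < p) (h1 : p < m) :
    ∃ a < p, ∃ q, p < q ∧ q ≤ m ∧ Br G O (P a) (P q) := by
  by_contra n
  push Not at n
  have mO : ∀ v ∈ X, v ∈ O ∨ ∃ i ≤ m, P i = v := fun v hv => by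
    simp only [hO, mem_sdiff, mem_image, mem_Icc, hv, true_and, zero_le]
    exact em' _
  have nO : ∀ i ≤ m, P i ∉ O := fun i hi c => by
    rw [hO] at c
    exact (mem_sdiff.1 c).2 (mem_image_of_mem P (by simpa using hi))
  set Y := {v ∈ X | (∃ i ≤ p, P i = v) ∨ ∃ i < p, At G O v (P i)} with hY
  refine hS Y (insert (P p) (X \ Y)) ⟨?_, ?_, fun c => ?_, fun c => ?_, fun a a1 a2 b b1 b2 e => ?_⟩
  · rw [union_insert, union_sdiff_of_subset (filter_subset _ _), insert_eq_of_mem (hP p h1.le)]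
  · refine (card_le_card (t := {P p}) fun x hx => ?_).trans (card_singleton _).le
    rw [mem_inter, mem_insert, mem_sdiff] at hx
    exact mem_singleton.2 (hx.2.resolve_right fun c => c.2 hx.1)
  · have a : P 0 ∈ Y := mem_filter.2 ⟨hP 0 (by omega), .inl ⟨0, by omega, rfl⟩⟩
    rcases mem_insert.1 (c a) with c | c
    · exact h0.ne (h.1 0 (by omega) p h1.le c)
    · exact (mem_sdiff.1 c).2 a
  · have a : P m ∉ Y := fun c => by
      rcases (mem_filter.1 c).2 with ⟨i, hi, c⟩ | ⟨i, -, c⟩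
      · have := h.1 i (by omega) m le_rfl c
        omega
      · exact nO m le_rfl c.1
    exact a (c (mem_insert_of_mem (mem_sdiff.2 ⟨hP m le_rfl, a⟩)))
  · have b3 : b ∈ X := by
      rcases mem_insert.1 b1 with rfl | c
      · exact hP p h1.le
      · exact (mem_sdiff.1 c).1
    rw [hY, mem_filter, not_and, not_or] at b2
    have b4 := b2 b3
    push Not at b4
    rcases (mem_filter.1 a1).2 with ⟨i, hi, rfl⟩ | ⟨i, hi, c⟩
    · have hi' : i < p := hi.lt_of_ne fun c => a2 (c ▸ mem_insert_self _ _)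
      rcases mO b b3 with d | ⟨q, hq, rfl⟩
      · exact b4.2 i hi' ⟨d, b, d, ReflTransGen.refl, e.symm⟩
      · exact n i hi' q (not_le.1 fun c => b4.1 q c rfl) hq (.inl e)
    · rcases mO b b3 with d | ⟨q, hq, rfl⟩
      · exact b4.2 i hi (c.move (ReflTransGen.single ⟨d, c.1, e.symm⟩) d)
      · exact n i hi q (not_le.1 fun c => b4.1 q c rfl) hq
          (.inr ⟨a, c, c.1, a, c.1, ReflTransGen.refl, e⟩)

/-- the invariant along a vine -/
def Pre (G : SimpleGraph V) (X O : Finset V) (P : ℕ → V) (m : ℕ) (N : Finset ℕ) (lo p : ℕ) : Prop :=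
  (∀ a < lo, ∀ r ≤ m, Br G O (P a) (P r) → r ≤ p) ∧
  ∀ a, lo ≤ a → a < p → ∃ W ⊆ X, Pth G W (P p) (P a) ∧ (∀ n ∈ N, P n ∈ W) ∧
    (∀ r, lo ≤ r → r ≤ a → P r ∈ W) ∧ (∀ r ≤ m, P r ∈ W → r ≤ p) ∧
    ∀ w ∈ W, ∀ r ≤ m, At G O w (P r) → r ≤ p

theorem step (h : En G P m) (hP : ∀ i ≤ m, P i ∈ X) (hO : O = X \ (Icc 0 m).image P)
    (hS : ∀ Y Z, ¬Sep G X Y Z) {N : Finset ℕ} {lo p : ℕ} (h0 : 0 < p) (h1 : p < m)
    (hp : Pre G X O P m N lo p) : ∃ q, p < q ∧ q ≤ m ∧ Pre G X O P m N p q := by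
  have nO : ∀ i ≤ m, P i ∉ O := fun i hi c => by
    rw [hO] at c
    exact (mem_sdiff.1 c).2 (mem_image_of_mem P (by simpa using hi))
  obtain ⟨a0, a1, q0, a2, a3, a4⟩ := cross h hP hO hS h0 h1
  obtain ⟨q, q1, q2⟩ := exists_max_image {r ∈ Icc 0 m | ∃ a < p, Br G O (P a) (P r)} id
    ⟨q0, mem_filter.2 ⟨by simpa using a3, a0, a1, a4⟩⟩
  simp only [mem_filter, mem_Icc, zero_le, true_and, id] at q1 q2
  obtain ⟨q1, a, b1, b2⟩ := q1
  have q3 := a2.trans_le (q2 q0 ⟨a3, a0, a1, a4⟩)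
  obtain ⟨W, w1, w2, w3, -, w5, w6⟩ := hp.2 a (not_lt.1 fun c => by
    have := hp.1 a c q q1 b2; omega) b1
  obtain ⟨S, s1, x, s2, s3, s4⟩ := b2.tail (nO q q1)
  have d : Disjoint W (insert (P q) S) := disjoint_insert_right.2
    ⟨fun c => by have := w5 q q1 c; omega,
      disjoint_left.2 fun y y1 y2 => by have := w6 y y1 q q1 (s4 y y2).2; omega⟩
  have k : ∀ r ≤ m, P r ∈ W ∪ insert (P q) S → r ≤ p ∨ r = q := fun r hr c => by
    rcases mem_union.1 c with c | c
    · exact .inl (w5 r hr c)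
    · exact .inr (h.1 r hr q q1 ((mem_insert.1 c).resolve_right fun c => nO r hr (s1 c)))
  refine ⟨q, q3, q1, fun a ha r hr e => q2 r ⟨hr, a, ha, e⟩, fun a' c1 c2 => ⟨_, ?_,
    ext h (w2.append s2 d s3).symm c1 (by omega) fun r r1 r2 c => by
      have := k r (by omega) c; omega, fun n hn => ?_, fun r r1 r2 => ?_, fun r hr c => ?_,
    fun w hw r hr c => ?_⟩⟩
  · refine union_subset (union_subset w1 (insert_subset (hP q q1)
      (s1.trans (hO ▸ sdiff_subset)))) fun y hy => ?_
    obtain ⟨r, hr, rfl⟩ := mem_image.1 hy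
    exact hP r (by have := mem_Icc.1 hr; omega)
  · exact mem_union_left _ (mem_union_left _ (w3 n hn))
  · rcases r1.eq_or_lt with rfl | r1
    · exact mem_union_left _ (mem_union_left _ w2.left)
    · exact mem_union_right _ (mem_image_of_mem P (mem_Icc.2 ⟨r1, r2⟩))
  · rcases mem_union.1 c with c | c
    · have := k r hr c
      omega
    · have := (h.mem (by simp only [mem_Icc]; omega) hr).1 c
      have := mem_Icc.1 this
      omega
  · rcases mem_union.1 hw with e | e
    · rcases mem_union.1 e with e | e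
      · have := w6 w e r hr c
        omega
      · rcases mem_insert.1 e with rfl | e
        · exact absurd c.1 (nO q q1)
        · exact q2 r ⟨hr, a, b1, .inr ⟨w, (s4 w e).1, c⟩⟩
    · obtain ⟨r, hr, rfl⟩ := mem_image.1 e
      exact absurd c.1 (nO r (by have := mem_Icc.1 hr; omega))

theorem vine (h : En G P m) (hP : ∀ i ≤ m, P i ∈ X) (hO : O = X \ (Icc 0 m).image P)
    (hS : ∀ Y Z, ¬Sep G X Y Z) {N : Finset ℕ} {i : ℕ} (hi : i < m) (n : ℕ) :
    ∀ lo p, m ≤ p + n → lo ≤ i → 0 < p → p ≤ m → Pre G X O P m N lo p →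
      ∃ lo p, lo ≤ i ∧ i < p ∧ p ≤ m ∧ Pre G X O P m N lo p := by
  induction n with
  | zero => exact fun lo p a b _ d e => ⟨lo, p, b, by omega, d, e⟩
  | succ n ih =>
    intro lo p a b c d e
    by_cases f : i < p
    · exact ⟨lo, p, b, f, d, e⟩
    obtain ⟨q, q1, q2, q3⟩ := step h hP hO hS c (by omega) e
    exact ih p q (by omega) (by omega) (by omega) q2 q3

end Dir

open Dir

theorem dirac : DiracSt := by
  intro V G X d hd h1 h2 hS
  obtain ⟨v0, hv0⟩ := card_pos.1 (show 0 < #X by omega)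
  obtain ⟨I, i1, hmax⟩ := exists_max_image {S ∈ X.powerset | ∃ a b, Pth G S a b} card
    ⟨{v0}, mem_filter.2 ⟨by simpa using hv0, v0, v0, .one v0⟩⟩
  simp only [mem_filter, mem_powerset] at i1 hmax
  obtain ⟨i1, a, b, i2⟩ := i1
  have nb : ∀ {a b w}, Pth G I a b → w ∈ X → G.Adj w a → w ∈ I := fun {a b w} h hw e => by
    by_contra n
    have := hmax _ ⟨insert_subset hw i1, _, _, .cons e n h⟩
    rw [card_insert_of_notMem n] at this
    omega
  obtain ⟨m, P, h, rfl, rfl, hI⟩ := i2.enum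
  have hP : ∀ i ≤ m, P i ∈ X := fun i hi => i1 (hI ▸ mem_image_of_mem P (by simpa using hi))
  have cN : ∀ {a b}, Pth G I a b → d ≤ #{i ∈ Icc 0 m | G.Adj a (P i)} := fun {a b} p =>
    (h1 a (i1 p.left)).trans ((card_le_card fun w hw => by
      rw [mem_filter] at hw
      obtain ⟨i, hi, rfl⟩ := mem_image.1 (hI ▸ nb p hw.1 hw.2.symm)
      exact mem_image_of_mem P (mem_filter.2 ⟨hi, hw.2⟩)).trans card_image_le)
  have c0 := cN i2
  have cm := cN i2.symm
  set N := {i ∈ Icc 0 m | G.Adj (P 0) (P i)} with hN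
  set M := {i ∈ Icc 0 m | G.Adj (P m) (P i)} with hM
  have mN : ∀ i, i ∈ N ↔ i ≤ m ∧ G.Adj (P 0) (P i) := fun i => by simp [hN]
  have mM : ∀ i, i ∈ M ↔ i ≤ m ∧ G.Adj (P m) (P i) := fun i => by simp [hM]
  have n0 : 0 ∉ N := fun c => ((mN 0).1 c).2.ne rfl
  have m0 : ∀ i ∈ M, i < m := fun i hi =>
    ((mM i).1 hi).1.lt_of_ne fun c => ((mM i).1 hi).2.ne (c ▸ rfl)
  have fin : ∀ (C : Finset V) (J : Finset ℕ) (a b : V), C ⊆ X → Pth G C a b → G.Adj b a →
      (∀ j ∈ J, j ≤ m ∧ P j ∈ C) → 2 * d ≤ #J → Lg G (2 * d) X := fun C J a b c1 c2 c3 c4 c5 => by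
    have : #J ≤ #C := by
      rw [← h.card fun j hj => (c4 j hj).1]
      exact card_le_card (image_subset_iff.2 fun j hj => (c4 j hj).2)
    exact ⟨C, c1, ⟨a, b, c2, c3, by omega⟩, by omega⟩
  have sub : ∀ p q, q ≤ m → (Icc p q).image P ⊆ X := fun p q hq =>
    image_subset_iff.2 fun j hj => hP j ((mem_Icc.1 hj).2.trans hq)
  by_cases ca : ∃ k, ∃ i ∈ M, i + k + 1 ∈ N
  · obtain ⟨i, hi, hj⟩ := Nat.find_spec ca
    have hk : ∀ i ∈ M, ∀ j ∈ N, i < j → i + Nat.find ca + 1 ≤ j := fun i hi j hj e => by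
      have := Nat.find_min' ca (m := j - i - 1) ⟨i, hi, by rwa [show i + (j - i - 1) + 1 = j by omega]⟩
      omega
    generalize Nat.find ca = k at *
    have j1 := (mN _).1 hj
    have p := (h.seg (Nat.zero_le i) (by omega)).append (h.seg j1.1 le_rfl).symm
      (h.disj (by simp only [mem_Icc]; omega) (by simp)
        (disjoint_left.2 fun j => by simp only [mem_Icc]; omega)) ((mM i).1 hi).2.symm
    rcases k with _ | k
    · have e : (Icc 0 i).image P ∪ (Icc (i + 0 + 1) m).image P = I := by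
        rw [hI, ← image_union]
        congr 1
        ext j
        simp only [mem_union, mem_Icc]
        omega
      rw [e] at p
      have c3 : 3 ≤ #I := by
        have := h1 _ (i1 i2.left)
        have := dg_lt (G := G) i2.left
        have : dg G (P 0) X ≤ dg G (P 0) I := card_le_card fun w hw =>
          mem_filter.2 ⟨nb i2 (mem_filter.1 hw).1 (mem_filter.1 hw).2.symm, (mem_filter.1 hw).2⟩
        omega
      have cy : Cy G I := ⟨_, _, p, j1.2.symm, c3⟩
      refine ⟨I, i1, cy, h2.trans (card_le_card ?_)⟩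
      by_contra n
      refine hS I (X \ I) ⟨union_sdiff_of_subset i1, by simp, fun c => ?_,
        fun c => n (by simpa using c), fun a a1 _ b b1 b2 e => ?_⟩
      · exact (mem_sdiff.1 (c i2.left)).2 i2.left
      · obtain ⟨c, c1, -⟩ := cy.rot a1
        exact b2 (nb c1 (mem_sdiff.1 b1).1 e.symm)
    refine fin _ (insert 0 N ∪ (M.erase i).image (· + 1)) _ _
      (union_subset (sub _ _ (by omega)) (sub _ _ le_rfl)) p j1.2.symm (fun j hj => ?_) ?_
    · rw [← image_union]
      have : j ≤ m ∧ (j ≤ i ∨ i + (k + 1) + 1 ≤ j) := by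
        simp only [mem_union, mem_insert, mem_image, mem_erase] at hj
        rcases hj with (rfl | c) | ⟨q, c, rfl⟩
        · omega
        · have := hk i hi j c
          have := ((mN j).1 c).1
          omega
        · have := hk q c.2 _ ‹_›
          have := m0 q c.2
          have := c.1
          omega
      exact ⟨this.1, mem_image_of_mem P (by simp only [mem_union, mem_Icc]; omega)⟩
    · rw [card_union_of_disjoint, card_insert_of_notMem n0,
        card_image_of_injective _ (add_left_injective 1)]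
      · have := card_erase_add_one hi
        omega
      · rw [disjoint_right]
        intro j c c'
        obtain ⟨q, hq, rfl⟩ := mem_image.1 c
        have := hk q (mem_of_mem_erase hq) _ ((mem_insert.1 c').resolve_left (by omega))
        omega
  have hb : ∀ i ∈ M, ∀ j ∈ N, j ≤ i := fun i hi j hj => not_lt.1 fun c =>
    ca ⟨j - i - 1, i, hi, by rwa [show i + (j - i - 1) + 1 = j by omega]⟩
  obtain ⟨j, j1, j2⟩ := exists_max_image N id (card_pos.1 (by omega))
  obtain ⟨i, k1, k2⟩ := exists_min_image M id (card_pos.1 (by omega))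
  simp only [id] at j2 k2
  have j3 := (mN j).1 j1
  obtain ⟨lo, p, p1, p2, p3, -, p4⟩ := vine (N := insert 0 N) h hP rfl hS (m0 i k1) m 0 j
    (by omega) (by omega) (Nat.pos_of_ne_zero fun c => n0 (c ▸ j1)) j3.1
    ⟨fun a ha => by omega, fun a _ ha => by
      obtain ⟨b, b1, b2⟩ := exists_min_image {n ∈ N | a < n} id ⟨j, mem_filter.2 ⟨j1, ha⟩⟩
      simp only [id, mem_filter] at b1 b2
      have b3 := j2 b b1.1
      have b4 := b1.2
      refine ⟨_, union_subset (sub _ _ j3.1) (sub _ _ (by omega)),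
        (h.seg b3 j3.1).symm.append (h.seg (Nat.zero_le a) (by omega))
          (h.disj (by simp only [mem_Icc]; omega) (by simp only [mem_Icc]; omega)
            (disjoint_left.2 fun j => by simp only [mem_Icc]; omega)) ((mN b).1 b1.1).2.symm,
        fun n hn => ?_, fun r _ r2 => ?_, fun r hr c => ?_, fun w hw r _ c => ?_⟩ <;>
        rw [← image_union] at *
      · refine mem_image_of_mem P ?_
        rcases mem_insert.1 hn with rfl | hn
        · simp
        · have := j2 n hn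
          have := fun c => b2 n ⟨hn, c⟩
          simp only [mem_union, mem_Icc]
          omega
      · exact mem_image_of_mem P (by simp [r2])
      · have := (h.mem (by simp only [mem_union, mem_Icc]; omega) hr).1 c
        simp only [mem_union, mem_Icc] at this
        omega
      · obtain ⟨r, hr, rfl⟩ := mem_image.1 hw
        simp only [mem_union, mem_Icc] at hr
        exact absurd (mem_image_of_mem P (by simp only [mem_Icc]; omega)) (mem_sdiff.1 c.1).2⟩
  obtain ⟨a, a1, a2⟩ := exists_max_image {n ∈ M | n < p} id ⟨i, mem_filter.2 ⟨k1, p2⟩⟩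
  simp only [id, mem_filter] at a1 a2
  obtain ⟨W, w1, w2, w3, w4, w5, -⟩ := p4 a (p1.trans (k2 a a1.1)) a1.2
  refine fin _ (insert 0 N ∪ M.erase j) _ _ (union_subset w1 (sub _ _ le_rfl))
    (ext h w2.symm p3 le_rfl fun r r1 r2 c => by have := w5 r r2 c; omega)
    ((mM a).1 a1.1).2 (fun n hn => ?_) ?_
  · rcases mem_union.1 hn with c | c
    · refine ⟨?_, mem_union_left _ (w3 n c)⟩
      rcases mem_insert.1 c with rfl | c
      · omega
      · exact ((mN n).1 c).1
    · have c := mem_of_mem_erase c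
      refine ⟨(m0 n c).le, ?_⟩
      rcases lt_trichotomy n p with e | rfl | e
      · exact mem_union_left _ (w4 n (p1.trans (k2 n c)) (a2 n ⟨c, e⟩))
      · exact mem_union_left _ w2.left
      · exact mem_union_right _ (mem_image_of_mem P (mem_Icc.2 ⟨e, (m0 n c).le⟩))
  · rw [card_union_of_disjoint, card_insert_of_notMem n0]
    · have := pred_card_le_card_erase (s := M) (a := j)
      omega
    · rw [disjoint_right]
      intro n c c'
      rw [mem_erase] at c
      have := hb n c.2 j j1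
      have := Nat.pos_of_ne_zero fun c => n0 (c ▸ j1)
      rcases mem_insert.1 c' with e | e
      · omega
      · have := j2 n e
        omega

end Pool.Agent.Lib.MP_b07792_co.EV
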