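import Pool.Agent.Lib.MP_b07792_co.EV.Two

/-!
The exchange arguments for two and for three cycles.
-/

namespace Pool.Agent.Lib.MP_b07792_co.EV

open Finset
open scoped Classical

variable {V : Type} {G : SimpleGraph V} {B Q Q' X : Finset V} {l t T : ℕ}

theorem ee_sdiff {W : Finset V} (h : W ⊆ X) :
    ee G X X = ee G W W + ee G (X \ W) (X \ W) + 2 * ee G W (X \ W) := by
  rw [← ee_union disjoint_sdiff, union_sdiff_of_subset h]

theorem dg_le_add {A C D : Finset V} {w : V} (h : A ⊆ C ∪ D) : dg G w A ≤ dg G w C + dg G w D :=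
  (dg_mono h).trans (by rw [dg, filter_union]; exact card_union_le _ _)

theorem four (hD : DiracSt) (hO : OreSt) (hl : 3 ≤ l) (h : Bad G l X Q Q') (hT : T + 1 = 2 * l)
    (hn : 2 * T + 2 ≤ #X) (h1 : ∀ Y ⊆ X, ee G Y Y + 2 * T * #X ≤ ee G X X + 2 * T * #Y)
    (h3 : ∀ u ∈ X, ∀ v ∈ X, G.Adj u v → T ≤ #(cn G u v X)) : Nu G (2 * l) 2 X := by
  have hl' : 2 ≤ l := by omega
  have g : ∀ u ∈ Q, ∀ v ∈ Q, G.Adj u v → 2 ≤ #(cn G u v (X \ (Q ∪ Q'))) := fun u hu v hv e => by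
    have := h.cn hO hl' hu hv e
    have := h3 u (h.1 hu) v (h.1 hv) e
    omega
  have g' : ∀ u ∈ Q', ∀ v ∈ Q', G.Adj u v → 2 ≤ #(cn G u v (X \ (Q' ∪ Q))) := fun u hu v hv e => by
    have := h.symm.cn hO hl' hu hv e
    have := h3 u (h.2.1 hu) v (h.2.1 hv) e
    omega
  obtain ⟨u, hu, v, hv, e⟩ := h.2.2.1.edge hl'
  obtain ⟨a, ha, b, hb, hab⟩ := one_lt_card.1 (g u hu v hv e)
  rw [mem_cn] at ha hb
  have a2 := nbr_two hu hv e.ne ha.2.1.symm ha.2.2.symm
  have b2 := nbr_two hu hv e.ne hb.2.1.symm hb.2.2.symm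
  have a1 := ha.1
  have b1 := hb.1
  simp only [mem_sdiff, mem_union, not_or] at a1 b1
  rcases (Q ∩ Q').eq_empty_or_nonempty with c | ⟨z, hz⟩
  · obtain ⟨u', hu', v', hv', e'⟩ := h.2.2.2.1.edge hl'
    obtain ⟨y, y1, y2⟩ := exists_mem_ne (g' u' hu' v' hv' e') a
    rw [mem_cn] at y1
    have y3 := y1.1
    simp only [mem_sdiff, mem_union, not_or] at y3
    refine Lg.two (hc hO hl' h.2.2.1 a1.2.1 a2) (hc hO hl' h.2.2.2.1 y3.2.1
      (nbr_two hu' hv' e'.ne y1.2.1.symm y1.2.2.symm)) ?_ (insert_subset a1.1 h.1)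
      (insert_subset y3.1 h.2.1)
    simp only [disjoint_insert_left, disjoint_insert_right, mem_insert, not_or]
    exact ⟨⟨y2, y3.2.2⟩, a1.2.2, disjoint_iff_inter_eq_empty.2 c⟩
  have hz1 : Q ∩ Q' = {z} := eq_singleton_iff_unique_mem.2
    ⟨hz, fun x hx => card_le_one.1 h.2.2.2.2.1 x hx z hz⟩
  rw [mem_inter] at hz
  by_contra hn'
  have c1 := card_erase_add_one hz.1
  have c2 := card_erase_add_one hz.2
  have c3 := h.2.2.1.1
  have c4 := h.2.2.2.1.1
  have r := fun {a} (ha : a ∈ X \ (Q ∪ Q')) (a2 : 2 ≤ dg G a Q) =>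
    all_adj hD hO hl h hz1 (union_comm Q Q' ▸ g') hn' ha a2
  have q : ∀ {a}, a ∈ X \ (Q ∪ Q') → 2 ≤ dg G a Q → 2 ≤ dg G a Q' := fun {a} ha a2 => by
    have := dg_mono (G := G) (v := a) (erase_subset z Q')
    rw [dg_all (r ha a2)] at this
    omega
  have p := fun {a} (ha : a ∈ X \ (Q ∪ Q')) (a2 : 2 ≤ dg G a Q) =>
    all_adj hD hO hl h.symm (inter_comm Q Q' ▸ hz1) (union_comm Q Q' ▸ g) hn'
      (union_comm Q Q' ▸ ha) (q ha a2)
  have n1 := h.2.2.1.swap hl' hz.1 a1.2.1 (p ha.1 a2)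
  have n2 := h.2.2.2.1.swap hl' hz.2 b1.2.2 (r hb.1 b2)
  have uq : ∀ x ∈ Q, x ∈ Q' → x = z := fun x x1 x2 =>
    mem_singleton.1 (hz1 ▸ mem_inter.2 ⟨x1, x2⟩)
  set W := X \ insert a (insert b (Q ∪ Q')) with hW
  have mW : ∀ w ∈ W, w ∈ X ∧ w ≠ a ∧ w ≠ b ∧ w ∉ Q ∧ w ∉ Q' := fun w hw => by
    simpa only [hW, mem_sdiff, mem_union, mem_insert, not_or] using hw
  have s1 : insert a (Q.erase z) ⊆ X := insert_subset a1.1 ((erase_subset _ _).trans h.1)
  have s2 : insert b (Q'.erase z) ⊆ X := insert_subset b1.1 ((erase_subset _ _).trans h.2.1)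
  have w1 : ∀ w ∈ W, dg G w (insert a (Q.erase z)) ≤ 1 := fun w hw => by
    by_contra n
    obtain ⟨w1, w2, w3, w4, w5⟩ := mW w hw
    refine hn' (Lg.two (hc hO hl' n1 (w := w) (by simp [w2, w4]) (by omega))
      (hc hO hl' h.2.2.2.1 b1.2.2 (q hb.1 b2)) ?_ (insert_subset w1 s1) (insert_subset b1.1 h.2.1))
    simp only [disjoint_insert_left, disjoint_insert_right, mem_insert, not_or, mem_erase]
    exact ⟨⟨w3.symm, hab.symm, fun c => b1.2.1 c.2⟩, w5, a1.2.2,
      disjoint_left.2 fun x x1 x2 => (mem_erase.1 x1).1 (uq x (mem_erase.1 x1).2 x2)⟩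
  have w2 : ∀ w ∈ W, dg G w (insert b (Q'.erase z)) ≤ 1 := fun w hw => by
    by_contra n
    obtain ⟨w1, w2, w3, w4, w5⟩ := mW w hw
    refine hn' (Lg.two (hc hO hl' n2 (w := w) (by simp [w3, w5]) (by omega))
      (hc hO hl' h.2.2.1 a1.2.1 a2) ?_ (insert_subset w1 s2) (insert_subset a1.1 h.1))
    simp only [disjoint_insert_left, disjoint_insert_right, mem_insert, not_or, mem_erase]
    exact ⟨⟨w2.symm, hab, fun c => a1.2.2 c.2⟩, w4, b1.2.1,
      disjoint_left.2 fun x x1 x2 => (mem_erase.1 x1).1 (uq x x2 (mem_erase.1 x1).2)⟩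
  have zW : z ∉ W := fun c => (mW z c).2.2.2.1 hz.1
  have w3 : ee G (insert z W) (insert z W) + T ≤ T * #(insert z W) := by
    by_contra n
    have d := dg_mono (G := G) (v := b) (subset_insert a (Q.erase z))
    rw [dg_all (p hb.1 b2)] at d
    refine hn' (Lg.two (hc hO hl' n1 (w := b) (by simp [hab.symm, b1.2.1]) (by omega))
      (eg hD hl' (insert_nonempty z W) hT (by omega)) ?_ (insert_subset b1.1 s1)
      (insert_subset (h.1 hz.1) sdiff_subset))
    rw [disjoint_right]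
    intro x x1 x2
    simp only [mem_insert, mem_erase] at x1 x2
    rcases x1 with rfl | x1
    · rcases x2 with c | c | c
      · exact b1.2.1 (c ▸ hz.1)
      · exact a1.2.1 (c ▸ hz.1)
      · exact c.1 rfl
    · obtain ⟨-, w2, w3, w4, -⟩ := mW x x1
      rcases x2 with c | c | c
      · exact w3 c
      · exact w2 c
      · exact w4 c.2
  have w4 : ee G W (X \ W) ≤ ee G W {z} + 2 * #W := by
    have : ∑ w ∈ W, dg G w (X \ W) ≤ ∑ w ∈ W, (dg G w {z} + 2) := sum_le_sum fun w hw => by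
      have d1 := dg_le_add (G := G) (w := w) (A := X \ W) (C := {z})
        (D := insert a (Q.erase z) ∪ insert b (Q'.erase z)) fun x hx => by
          simp only [hW, mem_sdiff, mem_union, mem_insert, mem_erase, mem_singleton] at hx ⊢
          tauto
      have d2 := dg_le_add (G := G) (w := w) (Subset.rfl :
        insert a (Q.erase z) ∪ insert b (Q'.erase z) ⊆ _)
      have := w1 w hw
      have := w2 w hw
      omega
    rwa [sum_add_distrib, sum_const, smul_eq_mul, mul_comm] at this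
  have w5 : 1 ≤ #W := by
    have d1 := card_union_add_card_inter Q Q'
    have d2 := card_insert_le a (insert b (Q ∪ Q'))
    have d3 := card_insert_le b (Q ∪ Q')
    have d4 : #X ≤ #W + _ := card_le_card_sdiff_add_card
    rw [hz1, card_singleton] at d1
    omega
  have e1 := ee_sdiff (G := G) (sdiff_subset : W ⊆ X)
  have e2 := h1 (X \ W) sdiff_subset
  have e3 := card_sdiff_add_card_eq_card (sdiff_subset : W ⊆ X)
  rw [ee_insert zW, card_insert_of_notMem zW, ← ee_one, ee_comm G {z}] at w3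
  rw [← e3] at e2
  have e4 := Nat.mul_le_mul_right #W (show 5 ≤ T by omega)
  nlinarith

theorem five (hO : OreSt) (hl : 3 ≤ l) (h : Bad G l X Q Q') (ht : t + 1 = 2 * l)
    (hT : T + 1 = 3 * l) (he : 2 * T * #X ≤ ee G X X)
    (h1 : ∀ Y ⊆ X, ee G Y Y + 2 * T * #X ≤ ee G X X + 2 * T * #Y)
    (h3 : ∀ u ∈ X, ∀ v ∈ X, G.Adj u v → T ≤ #(cn G u v X))
    (h4 : ∀ Y, 2 * t * #Y < ee G Y Y → Nu G (2 * l) 2 Y) (hB : B ⊆ X \ (Q ∪ Q'))
    (hB' : 2 * t * #B < ee G B B)
    (h5 : ee G (Q \ Q') (X \ (Q ∪ Q')) ≤ ee G (Q' \ Q) (X \ (Q ∪ Q'))) : Nu G (2 * l) 3 X := by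
  have hl' : 2 ≤ l := by omega
  by_contra hn
  set U := X \ (Q ∪ Q') with hU
  have mU : ∀ {w}, w ∈ U → w ∈ X ∧ w ∉ Q ∧ w ∉ Q' := fun hw => by
    simpa only [hU, mem_sdiff, mem_union, not_or] using hw
  have w1 : ∀ S ⊆ X, NC G l S → Disjoint S U → ∀ w ∈ U \ B, dg G w S ≤ 1 := fun S s1 s2 s3 w hw => by
    by_contra n
    rw [mem_sdiff] at hw
    exact hn (Nu.cons (hc hO hl' s2 (disjoint_right.1 s3 hw.1) (by omega)) (h4 B hB')
      (disjoint_insert_left.2 ⟨hw.2, s3.mono_right hB⟩) (insert_subset (mU hw.1).1 s1)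
      (hB.trans sdiff_subset))
  have w2 : ee G (U \ B) (X \ (U \ B)) ≤ ee G (U \ B) B + 2 * #(U \ B) := by
    have : ∑ w ∈ U \ B, dg G w (X \ (U \ B)) ≤ ∑ w ∈ U \ B, (dg G w B + 2) :=
      sum_le_sum fun w hw => by
        have d1 := dg_le_add (G := G) (w := w) (A := X \ (U \ B)) (C := B) (D := Q ∪ Q')
          fun x hx => by
            simp only [hU, mem_sdiff, mem_union] at hx ⊢
            tauto
        have d2 := dg_le_add (G := G) (w := w) (Subset.rfl : Q ∪ Q' ⊆ _)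
        have := w1 Q h.1 h.2.2.1 (disjoint_right.2 fun x hx => (mU hx).2.1) w hw
        have := w1 Q' h.2.1 h.2.2.2.1 (disjoint_right.2 fun x hx => (mU hx).2.2) w hw
        omega
    rwa [sum_add_distrib, sum_const, smul_eq_mul, mul_comm] at this
  have s1 : U \ B ⊆ X := sdiff_subset.trans sdiff_subset
  have w3 : 2 * t * #U < ee G U U := by
    have e1 := ee_sdiff (G := G) s1
    have e2 := h1 (X \ (U \ B)) sdiff_subset
    have e3 := card_sdiff_add_card_eq_card s1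
    have e4 := ee_sdiff (G := G) hB
    have e5 := card_sdiff_add_card_eq_card hB
    have e6 := Nat.mul_le_mul_right #(U \ B) (show t + 2 ≤ T by omega)
    rw [ee_comm G B (U \ B)] at e4
    rw [← e3] at e2
    rw [← e5]
    nlinarith
  have d : Disjoint (Q' \ Q) U := disjoint_right.2 fun x hx c => (mU hx).2.2 (mem_sdiff.1 c).1
  have s2 : X \ Q = Q' \ Q ∪ U := by
    ext x
    have := @h.2.1 x
    simp only [hU, mem_sdiff, mem_union]
    tauto
  have w4 := ee_union (G := G) d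
  have w5 := card_union_of_disjoint d
  have w6 := ee_union_right (G := G) (C := Q) d
  rw [← s2] at w4 w5 w6
  have w7 : ee G Q (Q' \ Q) ≤ 1 * #(Q' \ Q) := by
    rw [ee_comm]
    exact ee_le fun a ha => h.one hO hl' (mem_sdiff.1 ha).1 (mem_sdiff.1 ha).2
  have w8 : ee G Q U ≤ ee G (Q \ Q') U + 1 * #U := by
    have e1 := ee_union_left (G := G) (C := U) (disjoint_sdiff_inter Q Q')
    have e2 := ee_le (G := G) (A := U) (B := Q ∩ Q') fun a _ => dg_le.trans h.2.2.2.2.1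
    rw [sdiff_union_inter, ee_comm G (Q ∩ Q')] at e1
    omega
  have w9 := ee_sdiff (G := G) h.1
  have c1 := ee_self_le G Q
  have c2 := card_sdiff_add_card_eq_card h.1
  have c3 : #Q = t := by have := h.2.2.1.1; omega
  have c4 : #(Q' \ Q) ≤ t := by
    have := h.2.2.2.1.1
    have := card_le_card (sdiff_subset : Q' \ Q ⊆ Q')
    omega
  obtain ⟨u, hu, v, hv, e⟩ := h.2.2.1.edge hl'
  obtain ⟨x, hx⟩ := card_pos.1 (show 0 < #(cn G u v U) by
    have := h.cn hO hl' hu hv e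
    have := h3 u (h.1 hu) v (h.1 hv) e
    rw [← hU] at *
    omega)
  rw [mem_cn] at hx
  have x1 := mU hx.1
  have x2 : x ∈ X \ Q := mem_sdiff.2 ⟨x1.1, x1.2.1⟩
  refine hn (Nu.cons (hc hO hl' h.2.2.1 x1.2.1 (nbr_two hu hv e.ne hx.2.1.symm hx.2.2.symm))
    (h4 ((X \ Q).erase x) ?_) ?_ (insert_subset x1.1 h.1) ((erase_subset _ _).trans sdiff_subset))
  · have e1 := ee_erase (G := G) x2
    have e2 := dg_lt (G := G) x2
    have e3 := card_erase_add_one x2
    obtain ⟨c, rfl⟩ : ∃ c, t = c + 5 := ⟨t - 5, by omega⟩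
    have e4 : 2 * T = 3 * c + 16 := by omega
    have e5 := Nat.mul_le_mul_left (c + 10) c4
    have e6 : #X = #((X \ Q).erase x) + c + 6 := by omega
    have e7 : #U + #(Q' \ Q) = #((X \ Q).erase x) + 1 := by omega
    have e8 : c * #U + c * #(Q' \ Q) = c * #((X \ Q).erase x) + c := by
      rw [← mul_add, e7, mul_add, mul_one]
    rw [e4, e6] at he
    rw [c3] at c1
    linarith [Nat.zero_le (c * #U), Nat.zero_le (ee G (Q' \ Q) (Q' \ Q)), Nat.zero_le c]
  · rw [disjoint_insert_left]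
    exact ⟨notMem_erase _ _, disjoint_sdiff.mono_right (erase_subset _ _)⟩

end Pool.Agent.Lib.MP_b07792_co.EV
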