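import Pool.Agent.Lib.MP_b07792_co.EV.Base

/-!
The theorem of Ore on Hamilton paths with given ends.
-/

namespace Pool.Agent.Lib.MP_b07792_co.EV

open Finset
open scoped Classical

namespace OreA

variable {V : Type} {G G' : SimpleGraph V} {P : ℕ → V} {m : ℕ}

theorem seg (h : En G' P m) {p q : ℕ} (h1 : p ≤ q) (h2 : q ≤ m)
    (e : ∀ k, p ≤ k → k < q → G.Adj (P k) (P (k + 1))) :
    Pth G ((Icc p q).image P) (P p) (P q) := by
  induction q, h1 using Nat.le_induction with
  | base => simpa using Pth.one (P p)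
  | succ q h1 ih =>
    refine ((ih (by omega) fun k a b => e k a (by omega)).append (.one (P (q + 1))) ?_
      (e q h1 (by omega))).of_eq ?_
    · rw [disjoint_singleton_right, mem_image]
      rintro ⟨i, hi, e⟩
      have := mem_Icc.1 hi
      have := h.1 i (by omega) _ h2 e
      omega
    · rw [← image_singleton P, ← image_union]
      congr 1
      ext i
      simp only [mem_union, mem_Icc, mem_singleton]
      omega

theorem rev (h : En G' P m) {s t : ℕ} (h1 : s < t) (h2 : t < m)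
    (e : ∀ k < m, k ≠ s → k ≠ t → G.Adj (P k) (P (k + 1)))
    (e1 : G.Adj (P s) (P t)) (e2 : G.Adj (P (s + 1)) (P (t + 1))) :
    Pth G ((Icc 0 m).image P) (P 0) (P m) := by
  have a1 : Pth G ((Icc 0 s).image P) (P 0) (P s) :=
    seg h (Nat.zero_le s) (by omega) fun k _ b => e k (by omega) (by omega) (by omega)
  have a2 : Pth G ((Icc (s + 1) t).image P) (P (s + 1)) (P t) :=
    seg h h1 (by omega) fun k _ b => e k (by omega) (by omega) (by omega)
  have a3 : Pth G ((Icc (t + 1) m).image P) (P (t + 1)) (P m) :=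
    seg h h2 le_rfl fun k _ b => e k (by omega) (by omega) (by omega)
  have a4 := a1.append a2.symm (h.disj (by simp only [mem_Icc]; omega)
    (by simp only [mem_Icc]; omega) (disjoint_left.2 fun j => by simp only [mem_Icc]; omega)) e1
  rw [← image_union] at a4
  refine (a4.append a3 (h.disj (by simp only [mem_union, mem_Icc]; omega)
    (by simp only [mem_Icc]; omega)
    (disjoint_left.2 fun j => by simp only [mem_union, mem_Icc]; omega)) e2).of_eq ?_
  rw [← image_union]
  congr 1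
  ext j
  simp only [mem_union, mem_Icc]
  omega

theorem key (h : En G' P m) {i : ℕ} (hi : i < m)
    (e : ∀ k < m, k ≠ i → G.Adj (P k) (P (k + 1)))
    (hd : m + 2 ≤ dg G (P i) ((Icc 0 m).image P) + dg G (P (i + 1)) ((Icc 0 m).image P)) :
    Pth G ((Icc 0 m).image P) (P 0) (P m) := by
  set A := {j ∈ (range m).erase i | G.Adj (P i) (P j)} with hA
  set B := {j ∈ (range m).erase i | G.Adj (P (i + 1)) (P (j + 1))} with hB
  have b1 : dg G (P i) ((Icc 0 m).image P) ≤ #A + 1 := by
    refine (card_le_card (t := insert (P m) (A.image P)) fun w hw => ?_).trans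
      ((card_insert_le _ _).trans (Nat.succ_le_succ card_image_le))
    obtain ⟨h1, h2⟩ := mem_filter.1 hw
    obtain ⟨j, hj, rfl⟩ := mem_image.1 h1
    have := (mem_Icc.1 hj).2
    rcases this.eq_or_lt with rfl | hj'
    · exact mem_insert_self _ _
    · refine mem_insert_of_mem (mem_image_of_mem P (mem_filter.2 ⟨mem_erase.2 ⟨?_, mem_range.2 hj'⟩,
        h2⟩))
      rintro rfl
      exact h2.ne rfl
  have b2 : dg G (P (i + 1)) ((Icc 0 m).image P) ≤ #B + 1 := by
    refine (card_le_card (t := insert (P 0) (B.image fun j => P (j + 1))) fun w hw => ?_).trans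
      ((card_insert_le _ _).trans (Nat.succ_le_succ card_image_le))
    obtain ⟨h1, h2⟩ := mem_filter.1 hw
    obtain ⟨j, hj, rfl⟩ := mem_image.1 h1
    have := (mem_Icc.1 hj).2
    rcases j with _ | j
    · exact mem_insert_self _ _
    · refine mem_insert_of_mem (mem_image_of_mem (fun j => P (j + 1))
        (mem_filter.2 ⟨mem_erase.2 ⟨?_, mem_range.2 this⟩, h2⟩))
      rintro rfl
      exact h2.ne rfl
  have b3 : ¬Disjoint A B := fun hdj => by
    have c1 : #(A ∪ B) ≤ #((range m).erase i) :=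
      card_le_card (union_subset (filter_subset _ _) (filter_subset _ _))
    rw [card_union_of_disjoint hdj, card_erase_of_mem (mem_range.2 hi), card_range] at c1
    omega
  obtain ⟨j, j1, j2⟩ := not_disjoint_iff.1 b3
  obtain ⟨j3, j4⟩ := mem_filter.1 j1
  have j5 := (mem_filter.1 j2).2
  obtain ⟨j6, j7⟩ := mem_erase.1 j3
  rcases lt_or_gt_of_ne j6 with j8 | j8
  · exact rev h j8 hi (fun k a _ c => e k a c) j4.symm j5.symm
  · exact rev h j8 (mem_range.1 j7) (fun k a b _ => e k a b) j4 j5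

theorem compl (R : Finset V) (b : V) : ∀ a, a ∉ R → b ∉ R → a ≠ b →
    (∀ x ∈ insert a (insert b R), ∀ y ∈ insert a (insert b R), x ≠ y → G.Adj x y) →
    Pth G (insert a (insert b R)) a b := by
  induction R using Finset.induction_on with
  | empty =>
    intro a _ _ h e
    exact (Pth.cons (e a (by simp) b (by simp) h) (by simpa using h) (.one b)).of_eq (by simp)
  | insert c R hc ih =>
    intro a h1 h2 h e
    rw [mem_insert, not_or] at h1 h2
    have := ih c hc h2.2 (Ne.symm h2.1) fun x hx y hy =>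
      e x (by rw [insert_comm b c]; exact mem_insert_of_mem hx) y
        (by rw [insert_comm b c]; exact mem_insert_of_mem hy)
    exact (Pth.cons (e a (by simp) c (by simp) h1.1) (by simp [h1.1, h1.2, h]) this).of_eq
      (by rw [insert_comm b c])

theorem dg_mono (h : G ≤ G') (v : V) (Q : Finset V) : dg G v Q ≤ dg G' v Q :=
  card_le_card fun _ hw => mem_filter.2 ⟨(mem_filter.1 hw).1, h (mem_filter.1 hw).2⟩

/-- the non-adjacent pairs -/
noncomputable def nb (G : SimpleGraph V) (Q : Finset V) : Finset (V × V) :=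
  {p ∈ Q ×ˢ Q | p.1 ≠ p.2 ∧ ¬G.Adj p.1 p.2}

theorem mem_nb {Q : Finset V} {p : V × V} :
    p ∈ nb G Q ↔ p ∈ Q ×ˢ Q ∧ p.1 ≠ p.2 ∧ ¬G.Adj p.1 p.2 := mem_filter

theorem main (Q : Finset V) (a b : V) (ha : a ∈ Q) (hb : b ∈ Q) (hab : a ≠ b) (n : ℕ) :
    ∀ G : SimpleGraph V, #(nb G Q) = n →
      (∀ v ∈ Q, #Q + 1 ≤ 2 * dg G v Q) → Pth G Q a b := by
  induction n using Nat.strong_induction_on with
  | _ n ih =>
  intro G hn hd
  by_cases hc : ∀ x ∈ Q, ∀ y ∈ Q, x ≠ y → G.Adj x y
  · have e : insert a (insert b ((Q.erase a).erase b)) = Q := by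
      rw [insert_erase (mem_erase.2 ⟨hab.symm, hb⟩), insert_erase ha]
    exact (compl _ b a (by simp) (by simp) hab (by rwa [e])).of_eq e
  push Not at hc
  obtain ⟨x, hx, y, hy, hxy, hn'⟩ := hc
  have h1 : Pth (G ⊔ SimpleGraph.edge x y) Q a b := by
    have k : nb (G ⊔ SimpleGraph.edge x y) Q ⊆ nb G Q := by
      intro p hp
      rw [mem_nb] at hp ⊢
      exact ⟨hp.1, hp.2.1, fun e => hp.2.2 (.inl e)⟩
    refine ih _ ((card_lt_card ((ssubset_iff_of_subset k).2 ⟨(x, y), ?_, fun hp => ?_⟩)).trans_eq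
      hn) _ rfl fun v hv => ?_
    · exact mem_nb.2 ⟨mem_product.2 ⟨hx, hy⟩, hxy, hn'⟩
    · exact (mem_nb.1 hp).2.2
        (.inr ((SimpleGraph.edge_adj x y x y).2 ⟨.inl ⟨rfl, rfl⟩, hxy⟩))
    · exact (hd v hv).trans (Nat.mul_le_mul_left 2 (dg_mono le_sup_left v Q))
  obtain ⟨m, P, e, rfl, rfl, rfl⟩ := h1.enum
  by_cases hg : ∀ k < m, G.Adj (P k) (P (k + 1))
  · exact seg e (Nat.zero_le m) le_rfl fun k _ hk => hg k hk
  push Not at hg
  obtain ⟨i, hi, hi'⟩ := hg
  have hc : #((Icc 0 m).image P) = m + 1 := by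
    rw [e.card (by simp only [mem_Icc]; omega)]
    simp
  refine key e hi (fun k hk hki => ?_) ?_
  · refine (e.2 k hk).resolve_right fun e1 => ?_
    have e2 := (e.2 i hi).resolve_left hi'
    rw [SimpleGraph.edge_adj] at e1 e2
    rcases e1.1 with ⟨c1, c2⟩ | ⟨c1, c2⟩ <;> rcases e2.1 with ⟨c3, c4⟩ | ⟨c3, c4⟩
    · exact hki (e.1 k hk.le i hi.le (c1.trans c3.symm))
    · have := e.1 k hk.le (i + 1) hi (c1.trans c4.symm)
      have := e.1 (k + 1) hk i hi.le (c2.trans c3.symm)
      omega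
    · have := e.1 k hk.le (i + 1) hi (c1.trans c4.symm)
      have := e.1 (k + 1) hk i hi.le (c2.trans c3.symm)
      omega
    · exact hki (e.1 k hk.le i hi.le (c1.trans c3.symm))
  · have d1 := hd (P i) (mem_image_of_mem P (mem_Icc.2 ⟨Nat.zero_le _, hi.le⟩))
    have d2 := hd (P (i + 1)) (mem_image_of_mem P (mem_Icc.2 ⟨Nat.zero_le _, hi⟩))
    omega

end OreA

theorem ore : OreSt := fun _ G Q a b hd ha hb hab => OreA.main Q a b ha hb hab _ G rfl hd

end Pool.Agent.Lib.MP_b07792_co.EV
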