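import Pool.Agent.Lib.MP_b07792_co.EV.Six
import Pool.Agent.Lib.MP_b07792_co.EV.Dirac
import Pool.Agent.Lib.MP_b07792_co.EV.Ore

/-!
The theorem for arbitrary lengths.
-/

namespace Pool.Agent.Lib.MP_b07792_co.EV

open Finset
open scoped Classical

variable {V ι : Type} {r : ι → ℕ}

theorem pick {I : Finset ι} (hr : ∀ i ∈ I, 3 ≤ r i) (h4 : ∃ i ∈ I, r i ≠ 4)
    (h1 : ∀ i, I ≠ {i}) :
    ∃ i ∈ I, (∀ j ∈ I, (r i + 1) / 2 ≤ (r j + 1) / 2) ∧ ∃ j ∈ I.erase i, r j ≠ 4 := by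
  obtain ⟨j, hj, e⟩ := h4
  by_cases c : ∃ i ∈ I, r i = 4
  · obtain ⟨i, hi, c⟩ := c
    exact ⟨i, hi, fun k hk => by have := hr k hk; omega, j,
      mem_erase.2 ⟨fun d => e (d ▸ c), hj⟩, e⟩
  · push Not at c
    obtain ⟨i, hi, d⟩ := exists_min_image I (fun i => (r i + 1) / 2) ⟨j, hj⟩
    obtain ⟨k, hk⟩ : (I.erase i).Nonempty := by
      by_contra n
      rw [not_nonempty_iff_eq_empty, erase_eq_empty_iff] at n
      exact n.elim (ne_empty_of_mem hi) (h1 i)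
    exact ⟨i, hi, d, k, hk, c k (mem_of_mem_erase hk)⟩

theorem sum_half (I : Finset ι) : ∑ i ∈ I, r i ≤ 2 * ∑ i ∈ I, (r i + 1) / 2 := by
  rw [mul_sum]
  exact sum_le_sum fun i _ => by omega

theorem full (I : Finset ι) (hr : ∀ i ∈ I, 3 ≤ r i) (h4 : ∃ i ∈ I, r i ≠ 4)
    (h1 : ∀ i, I = {i} → Odd (r i)) (T : ℕ) (hT : T + 1 = ∑ i ∈ I, (r i + 1) / 2)
    (X : Finset V) (G : SimpleGraph V) (hn : 2 * T + 2 ≤ #X) (he : 2 * T * #X ≤ ee G X X) :
    NF G r I X := by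
  induction I using Finset.strongInduction generalizing T X G with
  | _ I ih =>
  by_cases c : ∃ i, I = {i}
  · obtain ⟨i, rfl⟩ := c
    obtain ⟨a, ha⟩ := h1 i rfl
    have := hr i (mem_singleton_self i)
    rw [sum_singleton] at hT
    exact ((odd1 dirac ore (l := a + 1) (by omega) (by omega) (card_pos.1 (by omega)) he).le
      (by omega)).nf
  push Not at c
  obtain ⟨i, hi, i1, j, hj, i2⟩ := pick hr h4 c
  have hr' : ∀ k ∈ I.erase i, 3 ≤ r k := fun k hk => hr k (mem_of_mem_erase hk)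
  have e1 := add_sum_erase I (fun i => (r i + 1) / 2) hi
  have e2 := single_le_sum (f := fun i => (r i + 1) / 2) (fun _ _ => Nat.zero_le _) hj
  have e3 := i1 j (mem_of_mem_erase hj)
  have e4 := hr i hi
  obtain ⟨l, hl⟩ : ∃ l, (r i + 1) / 2 = l := ⟨_, rfl⟩
  obtain ⟨t, ht⟩ : ∃ t, t + 1 = ∑ k ∈ I.erase i, (r k + 1) / 2 :=
    ⟨∑ k ∈ I.erase i, (r k + 1) / 2 - 1, by omega⟩
  obtain rfl : T = t + l := by omega
  refine minc (fun X G hn he g1 g2 => ?_) X G hn he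
  by_contra hN
  have co : ∀ A ⊆ X, ∀ B ⊆ X, Lg G (2 * l) A → NF G r (I.erase i) B → ¬Disjoint A B :=
    fun A a B b c d e => hN (NF.cons (c.le (by omega)) d e a b)
  have dn : ∀ Y ⊆ X, 2 * t * #Y < ee G Y Y → NF G r (I.erase i) Y := fun Y y1 y2 => by
    by_cases d : ∀ k, I.erase i = {k} → Odd (r k)
    · exact ih _ (erase_ssubset hi) hr' ⟨j, hj, i2⟩ d t ht Y G (dense_card y2) y2.le
    push Not at d
    obtain ⟨k, d1, d2⟩ := d
    obtain ⟨x, hx⟩ := Nat.not_odd_iff_even.1 d2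
    rw [d1, mem_singleton] at hj
    subst hj
    rw [d1, sum_singleton] at ht
    have e5 := hr' j (d1 ▸ mem_singleton_self j)
    have nf : ∀ B, Lg G (2 * x) B → NF G r (I.erase i) B := fun B b =>
      d1 ▸ (b.le (by omega)).nf
    by_contra n
    rcases (show l = x ∨ l < x by omega) with rfl | d
    · obtain ⟨S, s1, s2, s3, S', s4, s5, s6, -⟩ :=
        main dirac ore pt (l := l) (by omega) 2 le_rfl (t + l) X G (by omega) hn he.ge
      exact co S s1 _ sdiff_subset ⟨S, Subset.rfl, s2, s3⟩ (nf _ ⟨S', s4, s5, s6⟩) disjoint_sdiff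
    · obtain ⟨Q, q1, Q', q2, q3, q4, q5⟩ :=
        k2 dirac (l := x) (by omega) (by omega) y2 fun c => n (nf Y c)
      obtain ⟨A, a1, B, b1, a2, b2, e⟩ := uneq dirac ore (by omega) (X := X)
        ⟨q1.trans y1, q2.trans y1, q3, q4, q5, fun c => n (nf Y (c.mono (union_subset q1 q2)))⟩
        ((Nat.mul_le_mul_right _ (by omega)).trans he.ge)
      exact co A a1 B b1 (a2.le (by omega)) (nf B b2) e
  rcases (show l = 2 ∨ 3 ≤ l by omega) with rfl | l3
  · obtain ⟨S, s1, s2, s3, s4⟩ := c4 V G X t (by omega) hn he (fun v hv => by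
      have d1 := ee_erase (G := G) hv
      have d2 := g1 _ (erase_subset v X)
      rw [← card_erase_add_one hv, mul_add, mul_one] at he
      omega) g2
    exact co S s1 _ sdiff_subset ⟨S, Subset.rfl, s2, s3⟩ (dn _ sdiff_subset s4) disjoint_sdiff
  · exact six dirac ore l3 (by omega) hn he.ge g1 g2 co
      (fun K k1 k2 => nf_clique ore hr' k1 ((sum_half _).trans (by omega))) dn

theorem full' (I : Finset ι) (hr : ∀ i ∈ I, 3 ≤ r i) (h4 : ∃ i ∈ I, r i ≠ 4)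
    (h1 : ∀ i, I = {i} → Odd (r i)) (T : ℕ) (hT : T + 1 = ∑ i ∈ I, (r i + 1) / 2)
    (X : Finset V) (G : SimpleGraph V) (hn : ∑ i ∈ I, r i ≤ #X) (he : 2 * T * #X ≤ ee G X X) :
    NF G r I X := by
  by_cases c : 2 * T + 2 ≤ #X
  · exact full I hr h4 h1 T hT X G c he
  refine nf_clique ore hr (fun u hu v hv n => by_contra fun d => ?_) hn
  rw [mem_coe] at hu hv
  have e1 : dg G u X + 2 ≤ #X := by
    have : dg G u X ≤ #((X.erase u).erase v) := card_le_card fun w hw => by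
      rw [mem_filter] at hw
      exact mem_erase.2 ⟨fun e => d (e ▸ hw.2), mem_erase.2 ⟨hw.2.ne', hw.1⟩⟩
    have := card_erase_add_one hu
    have := card_erase_add_one (mem_erase.2 ⟨n.symm, hv⟩)
    omega
  have e2 : ∑ a ∈ X, dg G a X < ∑ _a ∈ X, 2 * T :=
    sum_lt_sum (fun a ha => by have := dg_lt (G := G) ha; omega) ⟨u, hu, by omega⟩
  rw [sum_const, smul_eq_mul, mul_comm] at e2
  exact absurd he (not_le.2 e2)

theorem NF.walks {G : SimpleGraph V} {X : Finset V} [Fintype ι] (h : NF G r univ X) :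
    ∃ (u : ι → V) (c : ∀ i, G.Walk (u i) (u i)),
      (∀ i, (c i).IsCycle ∧ r i ≤ (c i).length) ∧
      ∀ i j, i ≠ j → ∀ v, v ∈ (c i).support → v ∉ (c j).support := by
  obtain ⟨S, h1, h2⟩ := h
  choose u c c1 c2 c3 using fun i => (h1 i (mem_univ i)).2.1.walk
  exact ⟨u, c, fun i => ⟨c1 i, c2 i ▸ (h1 i (mem_univ i)).2.2⟩, fun i j n v a b =>
    disjoint_left.1 (h2 i (mem_univ i) j (mem_univ j) n) ((c3 i v).1 a) ((c3 j v).1 b)⟩

end Pool.Agent.Lib.MP_b07792_co.EV
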