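import Pool.Agent.Lib.MP_b07792_co.EV.Main
import Pool.Agent.Lib.MP_b07792_co.EV.C4

/-!
Families of disjoint cycles with prescribed lengths, and minimal counterexamples.
-/

namespace Pool.Agent.Lib.MP_b07792_co.EV

open Finset
open scoped Classical

variable {V ι : Type} {G G' : SimpleGraph V} {A B K S X Y : Finset V} {r : ι → ℕ}
  {I : Finset ι} {i : ι} {l m T : ℕ} {u v : V}

/-- disjoint cycles inside `X`, one with at least `r i` vertices for each `i` in `I` -/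
def NF (G : SimpleGraph V) (r : ι → ℕ) (I : Finset ι) (X : Finset V) : Prop :=
  ∃ S : ι → Finset V, (∀ i ∈ I, S i ⊆ X ∧ Cy G (S i) ∧ r i ≤ #(S i)) ∧
    ∀ i ∈ I, ∀ j ∈ I, i ≠ j → Disjoint (S i) (S j)

theorem Lg.le (h : Lg G m X) (e : l ≤ m) : Lg G l X :=
  let ⟨S, h1, h2, h3⟩ := h
  ⟨S, h1, h2, e.trans h3⟩

theorem Cy.up (h : Cy G S) (e : G ≤ G') : Cy G' S :=
  let ⟨a, b, h1, h2, h3⟩ := h
  ⟨a, b, h1.mono fun _ _ _ _ c => e c, e h2, h3⟩

theorem NF.mono (h : NF G r I X) (e : X ⊆ Y) : NF G r I Y :=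
  let ⟨S, h1, h2⟩ := h
  ⟨S, fun i hi => ⟨(h1 i hi).1.trans e, (h1 i hi).2⟩, h2⟩

theorem NF.up (h : NF G r I X) (e : G ≤ G') : NF G' r I X :=
  let ⟨S, h1, h2⟩ := h
  ⟨S, fun i hi => ⟨(h1 i hi).1, (h1 i hi).2.1.up e, (h1 i hi).2.2⟩, h2⟩

theorem NF.cons (h : Lg G (r i) A) (h' : NF G r (I.erase i) B) (e : Disjoint A B) (hA : A ⊆ X)
    (hB : B ⊆ X) : NF G r I X := by
  obtain ⟨C, c1, c2, c3⟩ := h
  obtain ⟨S, h1, h2⟩ := h'
  refine ⟨fun j => if j = i then C else S j, fun j hj => ?_, fun j hj k hk n => ?_⟩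
  · dsimp only
    split_ifs with c
    · exact ⟨c1.trans hA, c2, c ▸ c3⟩
    · have := h1 j (mem_erase.2 ⟨c, hj⟩)
      exact ⟨this.1.trans hB, this.2⟩
  · dsimp only
    split_ifs with c c' c'
    · exact absurd (c.trans c'.symm) n
    · exact e.mono c1 (h1 k (mem_erase.2 ⟨c', hk⟩)).1
    · exact (e.mono c1 (h1 j (mem_erase.2 ⟨c, hj⟩)).1).symm
    · exact h2 j (mem_erase.2 ⟨c, hj⟩) k (mem_erase.2 ⟨c', hk⟩) n

theorem NF.nil : NF G r ∅ X := ⟨fun _ => ∅, by simp, by simp⟩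

theorem Lg.nf (h : Lg G (r i) X) : NF G r {i} X :=
  NF.cons h (B := ∅) (by rw [erase_singleton]; exact NF.nil) (disjoint_empty_right _) Subset.rfl
    (empty_subset _)

theorem NF.erase (h : NF G r I X) (hi : i ∈ I) :
    ∃ C ⊆ X, Cy G C ∧ r i ≤ #C ∧ NF G r (I.erase i) (X \ C) := by
  obtain ⟨S, h1, h2⟩ := h
  refine ⟨S i, (h1 i hi).1, (h1 i hi).2.1, (h1 i hi).2.2, S, fun j hj => ?_,
    fun j hj k hk => h2 j (mem_of_mem_erase hj) k (mem_of_mem_erase hk)⟩
  rw [mem_erase] at hj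
  exact ⟨subset_sdiff.2 ⟨(h1 j hj.2).1, h2 j hj.2 i hi hj.1⟩, (h1 j hj.2).2⟩

theorem NF.lift (h : NF (EV.con G u v) r I (X.erase v)) (e : G.Adj u v) (hv : v ∈ X) :
    NF G r I X := by
  obtain ⟨S, h1, h2⟩ := h
  by_cases c : ∃ i ∈ I, u ∈ S i
  · obtain ⟨i, hi, c⟩ := c
    have h5 : v ∉ S i := fun c => notMem_erase v X ((h1 i hi).1 c)
    obtain ⟨S', a1, a2, a3⟩ := (h1 i hi).2.1.lift e c h5
    have a4 : insert v (S i) ⊆ X := insert_subset hv ((h1 i hi).1.trans (erase_subset v X))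
    refine NF.cons (i := i) ⟨S', a1, a2, (h1 i hi).2.2.trans a3⟩ (B := X \ insert v (S i))
      ⟨S, fun j hj => ?_, fun j hj k hk => h2 j (mem_of_mem_erase hj) k (mem_of_mem_erase hk)⟩
      disjoint_sdiff a4 sdiff_subset
    rw [mem_erase] at hj
    have d := h2 j hj.2 i hi hj.1
    exact ⟨subset_sdiff.2 ⟨(h1 j hj.2).1.trans (erase_subset v X), disjoint_insert_right.2
      ⟨fun c => notMem_erase v X ((h1 j hj.2).1 c), d⟩⟩,
      (h1 j hj.2).2.1.con (disjoint_right.1 d c), (h1 j hj.2).2.2⟩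
  · push Not at c
    exact ⟨S, fun i hi => ⟨(h1 i hi).1.trans (erase_subset v X), (h1 i hi).2.1.con (c i hi),
      (h1 i hi).2.2⟩, h2⟩

theorem cy_ore (hO : OreSt) (h : ∀ v ∈ S, #S + 1 ≤ 2 * dg G v S) (h3 : 3 ≤ #S) : Cy G S := by
  obtain ⟨u, hu⟩ := card_pos.1 (show 0 < #S by omega)
  obtain ⟨a, ha, -, -, -, e, -⟩ := two_nbr (G := G) (w := u) (Q := S) (by have := h u hu; omega)
  exact ⟨a, u, hO V G S a u h ha hu e.ne', e, h3⟩

theorem nf_clique (hO : OreSt) (hr : ∀ i ∈ I, 3 ≤ r i) (h : G.IsClique (K : Set V))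
    (hK : ∑ i ∈ I, r i ≤ #K) : NF G r I K := by
  induction I using Finset.induction_on generalizing K with
  | empty => exact NF.nil
  | insert i I hi ih =>
    rw [sum_insert hi] at hK
    obtain ⟨S, h1, h2⟩ := exists_subset_card_eq (show r i ≤ #K by omega)
    have hS : G.IsClique (S : Set V) := h.subset (coe_subset.2 h1)
    have h3 := hr i (mem_insert_self _ _)
    refine NF.cons (i := i) ⟨S, Subset.rfl, cy_ore hO (fun v hv => ?_) (by omega), h2.ge⟩
      (B := K \ S) ?_ disjoint_sdiff h1 sdiff_subset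
    · have := dg_clique hS hv
      omega
    · rw [erase_insert hi]
      exact ih (fun j hj => hr j (mem_insert_of_mem hj)) (h.subset (coe_subset.2 sdiff_subset))
        (by rw [card_sdiff_of_subset h1]; omega)

/-- the case of one odd length -/
theorem odd1 (hD : DiracSt) (hO : OreSt) (hl : 2 ≤ l) (hT : T + 1 = l) (h0 : X.Nonempty)
    (he : 2 * T * #X ≤ ee G X X) : Lg G (2 * l - 1) X := by
  by_cases c : Lg G (2 * l) X
  · exact c.le (by omega)
  obtain ⟨Q, q1, q2, q3⟩ := k1 (G := G) (j := 2 * T) hD hl h0 (by omega) (by omega) c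
  exact ⟨Q, q1, cy_ore hO (fun v hv => by have := q3 v hv; omega) (by omega), by omega⟩

/-- It is enough to look at minimal graphs. -/
theorem minc (h : ∀ (X : Finset V) (G : SimpleGraph V), 2 * T + 2 ≤ #X → ee G X X = 2 * T * #X →
    (∀ Y ⊆ X, ee G Y Y ≤ 2 * T * #Y) →
    (#X ≠ 2 * T + 2 → ∀ u ∈ X, ∀ v ∈ X, G.Adj u v → T ≤ #(cn G u v X)) → NF G r I X)
    (X : Finset V) (G : SimpleGraph V) (hn : 2 * T + 2 ≤ #X) (he : 2 * T * #X ≤ ee G X X) :
    NF G r I X := by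
  induction hX : #X using Nat.strong_induction_on generalizing X G with
  | _ n ih =>
  subst hX
  obtain ⟨G', g, c⟩ := thin (m := T * #X) (by rwa [← mul_assoc])
  refine NF.up ?_ g
  rw [← mul_assoc] at c
  clear he g
  revert c
  generalize G' = G
  intro c
  have he := c.ge
  by_contra hN
  refine hN (h X G hn c (fun Y hY => ?_) fun c' u hu v hv e => ?_)
  · rcases (card_le_card hY).eq_or_lt with d | d
    · rw [eq_of_subset_of_card_le hY d.ge, c]
    · by_contra n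
      have n := not_le.1 n
      exact hN ((ih _ d Y G (dense_card n) n.le rfl).mono hY)
  · by_contra n
    have d := card_erase_add_one hv
    have d1 := con_ee e hu hv
    rw [← d, mul_add, mul_one] at he
    exact hN ((ih _ (by omega) (X.erase v) (con G u v) (by omega) (by omega) rfl).lift e hv)

end Pool.Agent.Lib.MP_b07792_co.EV
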