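import Pool.Agent.Lib.MP_b07792_co.EV.St

/-!
Dense sets without a long cycle contain two near-cliques.
-/

namespace Pool.Agent.Lib.MP_b07792_co.EV

open Finset
open scoped Classical

variable {V : Type} {G : SimpleGraph V} {A B L Q X Y Z : Finset V} {j k l m : ℕ}

/-- a set of `2 l - 1` vertices with all degrees at least `l` -/
def NC (G : SimpleGraph V) (l : ℕ) (Q : Finset V) : Prop :=
  #Q + 1 = 2 * l ∧ ∀ v ∈ Q, l ≤ dg G v Q

/-- `k` disjoint cycles with at least `m` vertices inside `X` -/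
def Nu (G : SimpleGraph V) (m : ℕ) : ℕ → Finset V → Prop
  | 0, _ => True
  | k + 1, X => ∃ S ⊆ X, Cy G S ∧ m ≤ #S ∧ Nu G m k (X \ S)

theorem Nu.mono (h : Nu G m k X) (e : X ⊆ Y) : Nu G m k Y := by
  induction k generalizing X Y with
  | zero => trivial
  | succ k ih =>
    obtain ⟨S, h1, h2, h3, h4⟩ := h
    exact ⟨S, h1.trans e, h2, h3, ih h4 (sdiff_subset_sdiff e Subset.rfl)⟩

theorem Nu.cons (h : Lg G m A) (h' : Nu G m k B) (e : Disjoint A B) (hA : A ⊆ X) (hB : B ⊆ X) :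
    Nu G m (k + 1) X := by
  obtain ⟨S, h1, h2, h3⟩ := h
  exact ⟨S, h1.trans hA, h2, h3, h'.mono (subset_sdiff.2 ⟨hB, (e.mono_left h1).symm⟩)⟩

theorem Lg.nu (h : Lg G m A) : Nu G m 1 A :=
  let ⟨S, h1, h2, h3⟩ := h
  ⟨S, h1, h2, h3, trivial⟩

theorem Lg.two (h : Lg G m A) (h' : Lg G m B) (e : Disjoint A B) (hA : A ⊆ X) (hB : B ⊆ X) :
    Nu G m 2 X := Nu.cons h h'.nu e hA hB

theorem Nu.add (h : Nu G m j A) (h' : Nu G m k B) (e : Disjoint A B) (hA : A ⊆ X) (hB : B ⊆ X) :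
    Nu G m (k + j) X := by
  induction j generalizing A X with
  | zero => exact h'.mono hB
  | succ j ih =>
    obtain ⟨S, h1, h2, h3, h4⟩ := h
    exact ⟨S, h1.trans hA, h2, h3, ih h4 (e.mono_left sdiff_subset)
      (sdiff_subset_sdiff hA Subset.rfl) (subset_sdiff.2 ⟨hB, (e.mono_left h1).symm⟩)⟩

theorem two_nbr {w : V} (h : 2 ≤ dg G w Q) :
    ∃ a ∈ Q, ∃ b ∈ Q, a ≠ b ∧ G.Adj w a ∧ G.Adj w b := by
  obtain ⟨a, ha, b, hb, e⟩ := one_lt_card.1 h
  rw [mem_filter] at ha hb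
  exact ⟨a, ha.1, b, hb.1, e, ha.2, hb.2⟩

theorem nbr_two {w a b : V} (ha : a ∈ Q) (hb : b ∈ Q) (e : a ≠ b) (h1 : G.Adj w a)
    (h2 : G.Adj w b) : 2 ≤ dg G w Q :=
  one_lt_card.2 ⟨a, mem_filter.2 ⟨ha, h1⟩, b, mem_filter.2 ⟨hb, h2⟩, e⟩

theorem hc (hO : OreSt) (hl : 2 ≤ l) (h : NC G l Q) {w : V} (hw : w ∉ Q) (h2 : 2 ≤ dg G w Q) :
    Lg G (2 * l) (insert w Q) := by
  obtain ⟨a, ha, b, hb, e, h3, h4⟩ := two_nbr h2
  have c := card_insert_of_notMem hw
  have := h.1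
  exact ⟨_, Subset.rfl, ⟨w, b, .cons h3 hw (hO V G Q a b (fun v hv => by
    have := h.2 v hv; omega) ha hb e), h4.symm, by omega⟩, by omega⟩

theorem dense_card (h : j * #A < ee G A A) : j + 2 ≤ #A := by
  have := ee_self_le G A
  by_contra n
  have := Nat.mul_le_mul_right (#A) (show #A ≤ j + 1 by omega)
  rw [add_mul] at this
  omega

theorem sep_ee (h : Sep G X Y Z) : ee G X X ≤ ee G Y Y + ee G Z Z := by
  obtain ⟨rfl, -, -, -, h⟩ := h
  have e1 := ee_union (G := G) (sdiff_disjoint : Disjoint (Y \ Z) Z)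
  have e2 := ee_union (G := G) (disjoint_sdiff_inter Y Z)
  have e3 : ee G (Y \ Z) Z ≤ ee G (Y \ Z) (Y ∩ Z) := sum_le_sum fun a ha => card_le_card fun b hb => by
    rw [mem_filter] at hb ⊢
    rw [mem_sdiff] at ha
    exact ⟨mem_inter.2 ⟨by_contra fun n => h a ha.1 ha.2 b hb.1 n hb.2, hb.1⟩, hb.2⟩
  rw [sdiff_union_self_eq_union] at e1
  rw [sdiff_union_inter] at e2
  omega

theorem Sep.facts (h : Sep G X Y Z) : Y ⊆ X ∧ Z ⊆ X ∧ Y.Nonempty ∧ Z.Nonempty ∧ #Y < #X ∧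
    #Z < #X ∧ #Y + #Z ≤ #X + 1 := by
  obtain ⟨rfl, h1, h2, h3, -⟩ := h
  obtain ⟨a, ha, ha'⟩ := not_subset.1 h2
  obtain ⟨b, hb, hb'⟩ := not_subset.1 h3
  have := card_union_add_card_inter Y Z
  exact ⟨subset_union_left, subset_union_right, ⟨a, ha⟩, ⟨b, hb⟩,
    card_lt_card ⟨subset_union_left, fun e => hb' (e (mem_union_right _ hb))⟩,
    card_lt_card ⟨subset_union_right, fun e => ha' (e (mem_union_left _ ha))⟩, by omega⟩

theorem k0 (h0 : L.Nonempty) (h : j * #L < ee G L L + j) : ∃ L' ⊆ L,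
    (∀ v ∈ L', j < 2 * dg G v L') ∧ (∀ Y Z, ¬Sep G L' Y Z) ∧ j < #L' := by
  obtain ⟨L', h1, h2⟩ := exists_min_image
    {S ∈ L.powerset | S.Nonempty ∧ j * #S < ee G S S + j} card ⟨L, by simp [h0, h]⟩
  simp only [mem_filter, mem_powerset] at h1 h2
  obtain ⟨h1, h3, h4⟩ := h1
  have key : ∀ S ⊆ L', S.Nonempty → #S < #L' → ee G S S + j ≤ j * #S := fun S a b c => by
    by_contra n
    have := h2 S ⟨a.trans h1, b, by omega⟩
    omega
  have h5 := ee_self_le G L'
  have h6 := card_pos.2 h3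
  have h7 : j < #L' := by
    by_contra n
    obtain ⟨c, hc⟩ : ∃ c, #L' = c + 1 := ⟨#L' - 1, by omega⟩
    have := Nat.mul_le_mul_right c (not_lt.1 n)
    rw [hc] at *
    nlinarith
  refine ⟨L', h1, fun v hv => ?_, fun Y Z hS => ?_, h7⟩
  · have e1 := ee_erase (G := G) hv
    have e2 := card_erase_add_one hv
    rw [← e2, mul_add, mul_one] at h4
    rcases (L'.erase v).eq_empty_or_nonempty with c | c
    · rw [c, card_empty] at e2 h4
      rw [← e2] at h5
      omega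
    · have := key _ (erase_subset _ _) c (by omega)
      omega
  · obtain ⟨a1, a2, a3, a4, a5, a6, a7⟩ := hS.facts
    have := sep_ee hS
    have := key Y a1 a3 a5
    have := key Z a2 a4 a6
    have := Nat.mul_le_mul_left j a7
    rw [mul_add, mul_add, mul_one] at this
    omega

theorem eg (hD : DiracSt) (hl : 2 ≤ l) (h0 : L.Nonempty) (hj : j + 1 = 2 * l)
    (h : j * #L < ee G L L + j) : Lg G (2 * l) L := by
  obtain ⟨L', h1, h2, h3, h4⟩ := k0 h0 h
  exact (hD V G L' l hl (fun v hv => by have := h2 v hv; omega) (by omega) h3).mono h1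

theorem k1 (hD : DiracSt) (hl : 2 ≤ l) (h0 : L.Nonempty) (hj : j + 2 = 2 * l)
    (h : j * #L < ee G L L + j) (hn : ¬Lg G (2 * l) L) : ∃ Q ⊆ L, NC G l Q := by
  obtain ⟨L', h1, h2, h3, h4⟩ := k0 h0 h
  have h5 : ∀ v ∈ L', l ≤ dg G v L' := fun v hv => by have := h2 v hv; omega
  refine ⟨L', h1, ?_, h5⟩
  by_contra n
  exact hn ((hD V G L' l hl h5 (by omega) h3).mono h1)

theorem k2 (hD : DiracSt) (hl : 2 ≤ l) (hj : j + 2 = 2 * l) (h : j * #A < ee G A A)
    (hn : ¬Lg G (2 * l) A) : ∃ Q ⊆ A, ∃ Q' ⊆ A, NC G l Q ∧ NC G l Q' ∧ #(Q ∩ Q') ≤ 1 := by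
  obtain ⟨L', h1, h2⟩ := exists_min_image
    {S ∈ A.powerset | j * #S < ee G S S} card ⟨A, by simp [h]⟩
  simp only [mem_filter, mem_powerset] at h1 h2
  obtain ⟨h1, h4⟩ := h1
  have key : ∀ S ⊆ L', #S < #L' → ee G S S ≤ j * #S := fun S a c => by
    by_contra n
    have := h2 S ⟨a.trans h1, by omega⟩
    omega
  have h5 := dense_card h4
  have h6 : ∀ v ∈ L', l ≤ dg G v L' := fun v hv => by
    have e1 := ee_erase (G := G) hv
    have e2 := card_erase_add_one hv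
    have := key _ (erase_subset v _) (by omega)
    rw [← e2, mul_add, mul_one] at h4
    omega
  obtain ⟨Y, Z, hS⟩ : ∃ Y Z, Sep G L' Y Z := by
    by_contra n
    push Not at n
    exact hn ((hD V G L' l hl h6 (by omega) n).mono h1)
  obtain ⟨a1, a2, a3, a4, a5, a6, a7⟩ := hS.facts
  have b1 := sep_ee hS
  have b2 := key Y a1 a5
  have b3 := key Z a2 a6
  have b4 := Nat.mul_le_mul_left j a7
  rw [mul_add, mul_add, mul_one] at b4
  obtain ⟨Q, q1, q2⟩ := k1 (G := G) hD hl a3 hj (by omega) fun e => hn (e.mono (a1.trans h1))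
  obtain ⟨Q', q3, q4⟩ := k1 (G := G) hD hl a4 hj (by omega) fun e => hn (e.mono (a2.trans h1))
  exact ⟨Q, (q1.trans a1).trans h1, Q', (q3.trans a2).trans h1, q2, q4,
    (card_le_card (inter_subset_inter q1 q3)).trans hS.2.1⟩

theorem nc_clique (hl : 2 ≤ l) (h : G.IsClique (Q : Set V)) (hQ : #Q + 1 = 2 * l) : NC G l Q :=
  ⟨hQ, fun v hv => by have := dg_clique h hv; omega⟩

theorem nu_clique (hO : OreSt) (hl : 2 ≤ l) {K : Finset V} (h : G.IsClique (K : Set V))
    (hK : 2 * l * k ≤ #K) : Nu G (2 * l) k K := by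
  induction k generalizing K with
  | zero => trivial
  | succ k ih =>
    rw [mul_add, mul_one] at hK
    obtain ⟨S, h1, h2⟩ := exists_subset_card_eq (show 2 * l ≤ #K by omega)
    obtain ⟨w, hw⟩ := card_pos.1 (show 0 < #S by omega)
    have c := card_erase_add_one hw
    have hS : G.IsClique (S : Set V) := h.subset (coe_subset.2 h1)
    have := dg_clique hS hw
    have a := hc hO hl (nc_clique hl (hS.subset (coe_subset.2 (erase_subset w S))) (by omega))
      (notMem_erase w S) (by rw [dg_erase]; omega)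
    rw [insert_erase hw] at a
    exact Nu.cons a (ih (h.subset (coe_subset.2 sdiff_subset))
      (by rw [card_sdiff_of_subset h1]; omega)) disjoint_sdiff h1 sdiff_subset

/-- A clique with `2 k l - 1` vertices. -/
theorem step0 (hD : DiracSt) (hO : OreSt) (hl : 2 ≤ l) {T : ℕ} (hk : 1 ≤ k)
    (hT : T + 1 = (k + 1) * l) (hn : 2 * T + 2 ≤ #X) (he : 2 * T * #X ≤ ee G X X) {K : Finset V}
    (hK : K ⊆ X) (h : G.IsClique (K : Set V)) (hc' : #K = 2 * T + 1) :
    Nu G (2 * l) (k + 1) X := by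
  have hkl : l ≤ k * l := Nat.le_mul_of_pos_left l hk
  have e0 : 2 * l * k = 2 * (k * l) := by ring
  rw [add_mul, one_mul] at hT
  by_cases c : ∃ w ∈ X \ K, 2 ≤ dg G w K
  · obtain ⟨w, hw, c⟩ := c
    rw [mem_sdiff] at hw
    obtain ⟨a, ha, b, hb, e, h3, h4⟩ := two_nbr c
    obtain ⟨Q, q1, q2, q3⟩ := exists_subsuperset_card_eq (s := {a, b}) (t := K) (n := 2 * l - 1)
      (by simp [insert_subset_iff, ha, hb]) (by rw [card_pair e]; omega) (by omega)
    refine Nu.cons (hc hO hl (nc_clique hl (h.subset (coe_subset.2 q2)) (by omega))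
      (fun e => hw.2 (q2 e)) (nbr_two (q1 (by simp)) (q1 (by simp)) e h3 h4))
      (nu_clique hO hl (K := K \ Q) (h.subset (coe_subset.2 sdiff_subset))
        (by rw [card_sdiff_of_subset q2]; omega)) ?_ (insert_subset hw.1 (q2.trans hK))
      (sdiff_subset.trans hK)
    rw [disjoint_insert_left]
    exact ⟨fun e => hw.2 (mem_sdiff.1 e).1, disjoint_sdiff⟩
  · push Not at c
    have e1 := ee_union (G := G) (sdiff_disjoint : Disjoint (X \ K) K)
    have e2 := ee_le (G := G) (A := X \ K) (B := K) (k := 1) fun a ha => by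
      have := c a ha; omega
    have e3 := ee_clique h
    have e4 := card_sdiff_add_card_eq_card hK
    rw [sdiff_union_of_subset hK] at e1
    refine Nu.cons (eg hD hl (card_pos.1 (by omega)) (j := 2 * l - 1) (by omega) ?_)
      (nu_clique hO hl h (by omega)) sdiff_disjoint sdiff_subset hK
    have e5 := Nat.mul_le_mul_right #(X \ K) (show 2 * l - 1 + 2 ≤ 2 * T by omega)
    rw [← e4, hc'] at he
    rw [hc'] at e3
    nlinarith

end Pool.Agent.Lib.MP_b07792_co.EV
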