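import Pool.Agent.Lib.MP_b07792_co.EV.Main
import Pool.Agent.Lib.MP_b07792_co.EV.C4h
import Pool.Agent.Lib.MP_b07792_co.EV.Dirac

/-!
Lower bounds: an independent set of hubs joined to many disjoint cliques.
-/

namespace Pool.Agent.Lib.MP_b07792_co.EV

open Finset
open scoped Classical

/-- disjoint cycles, the `i`-th of length at least `r i` -/
def Has {V : Type} (G : SimpleGraph V) {k : ℕ} (r : Fin k → ℕ) : Prop :=
  ∃ (u : Fin k → V) (c : ∀ i, G.Walk (u i) (u i)),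
    (∀ i, (c i).IsCycle ∧ r i ≤ (c i).length) ∧
    ∀ i j, i ≠ j → ∀ v, v ∈ (c i).support → v ∉ (c j).support

/-- the edge densities of the graphs without such cycles -/
def Dens {k : ℕ} (r : Fin k → ℕ) : Set ℝ :=
  {x | ∃ (V : Type) (_ : Finite V) (_ : Nonempty V) (G : SimpleGraph V),
    ¬Has G r ∧ x = (Nat.card G.edgeSet : ℝ) / Nat.card V}

namespace LowA

variable {V : Type} {G : SimpleGraph V} {S : Finset V} {x y : V}

theorem pth_of_walk (w : G.Walk x y) (h : w.IsPath) : Pth G w.support.toFinset x y := by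
  induction w with
  | nil => simpa using Pth.one _
  | cons e w ih =>
    rw [SimpleGraph.Walk.cons_isPath_iff] at h
    rw [SimpleGraph.Walk.support_cons, List.toFinset_cons]
    exact .cons e (by simpa using h.2) (ih h.1)

theorem cy_of_walk (c : G.Walk x x) (h : c.IsCycle) :
    ∃ S, Cy G S ∧ #S = c.length ∧ ∀ z ∈ S, z ∈ c.support := by
  have h3 := h.three_le_length
  cases c with
  | nil => exact absurd h (by simp)
  | cons e w =>
    have h1 := ((SimpleGraph.Walk.cons_isCycle_iff w e).1 h).1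
    have h2 : #w.support.toFinset = (SimpleGraph.Walk.cons e w).length := by
      rw [List.toFinset_card_of_nodup h1.support_nodup, SimpleGraph.Walk.length_support,
        SimpleGraph.Walk.length_cons]
    exact ⟨_, ⟨_, _, pth_of_walk w h1, e, by omega⟩, h2, fun z hz => by
      simp [List.mem_toFinset.1 hz]⟩

theorem seg {H : Finset V} {blk : V → Finset V} {b : ℕ} (h1 : ∀ x, #(blk x) ≤ b)
    (h2 : ∀ x ∉ H, x ∈ blk x) (h3 : ∀ x ∉ H, ∀ y, G.Adj x y → blk y ⊆ blk x) (h : Pth G S x y) :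
    ∃ I ⊆ S, I ⊆ blk x ∧ #S ≤ #I + (b + 1) * #(S ∩ H) := by
  induction h with
  | one a =>
    by_cases k : a ∈ H
    · exact ⟨∅, empty_subset _, empty_subset _, by simp [k]⟩
    · exact ⟨{a}, Subset.rfl, singleton_subset_iff.2 (h2 a k), by simp⟩
  | @cons S a c _ e n _ ih =>
    obtain ⟨I, i1, i2, i3⟩ := ih
    rw [card_insert_of_notMem n]
    by_cases k : a ∈ H
    · refine ⟨∅, empty_subset _, empty_subset _, ?_⟩
      have := (card_le_card i2).trans (h1 c)
      rw [insert_inter_of_mem k, card_insert_of_notMem fun z => n (mem_inter.1 z).1, mul_add]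
      omega
    · refine ⟨insert a I, insert_subset_insert _ i1, insert_subset (h2 a k) (i2.trans (h3 a k c e)),
        ?_⟩
      rw [insert_inter_of_notMem k, card_insert_of_notMem fun z => n (i1 z)]
      omega

theorem cyc {H : Finset V} {blk : V → Finset V} {b : ℕ} (h0 : ∀ x ∈ H, blk x = ∅)
    (h1 : ∀ x, #(blk x) ≤ b) (h2 : ∀ x ∉ H, x ∈ blk x)
    (h3 : ∀ x ∉ H, ∀ y, G.Adj x y → blk y ⊆ blk x) (h : Cy G S) (hb : b < #S) :
    #S ≤ (b + 1) * #(S ∩ H) := by
  rcases (S ∩ H).eq_empty_or_nonempty with e | ⟨u, hu⟩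
  · obtain ⟨x, y, p, -⟩ := h
    obtain ⟨I, -, i2, i3⟩ := seg h1 h2 h3 p
    have := (card_le_card i2).trans (h1 x)
    rw [e, card_empty] at i3
    omega
  · rw [mem_inter] at hu
    obtain ⟨y, p, -⟩ := h.rot hu.1
    obtain ⟨I, -, i2, i3⟩ := seg h1 h2 h3 p
    rw [h0 u hu.2, subset_empty] at i2
    rwa [i2, card_empty, zero_add] at i3

theorem cnt {H : Finset V} {blk : V → Finset V} {b k : ℕ} {r f : Fin k → ℕ}
    (h0 : ∀ x ∈ H, blk x = ∅) (h1 : ∀ x, #(blk x) ≤ b) (h2 : ∀ x ∉ H, x ∈ blk x)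
    (h3 : ∀ x ∉ H, ∀ y, G.Adj x y → blk y ⊆ blk x) (hb : ∀ i, b < r i)
    (hf : ∀ i h, r i ≤ (b + 1) * h → f i ≤ h) (h : Has G r) : ∑ i, f i ≤ #H := by
  obtain ⟨u, c, c1, c2⟩ := h
  choose S s1 s2 s3 using fun i => cy_of_walk (c i) (c1 i).1
  have k1 : ∀ i, f i ≤ #(S i ∩ H) := fun i => by
    have p := (c1 i).2
    rw [← s2 i] at p
    exact hf i _ (p.trans (cyc h0 h1 h2 h3 (s1 i) ((hb i).trans_le p)))
  refine (sum_le_sum fun i _ => k1 i).trans ?_
  rw [← card_biUnion]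
  · exact card_le_card (biUnion_subset.2 fun i _ => inter_subset_right)
  · exact fun i _ j _ e => disjoint_left.2 fun z hz hz' =>
      c2 i j e z (s3 i z (mem_inter.1 hz).1) (s3 j z (mem_inter.1 hz').1)

/-- `a` hubs joined to `m` disjoint cliques of order `b` -/
def J (a b m : ℕ) : SimpleGraph (Fin a ⊕ Fin m × Fin b) where
  Adj
    | .inl _, .inl _ => False
    | .inl _, .inr _ => True
    | .inr _, .inl _ => True
    | .inr p, .inr q => p ≠ q ∧ p.1 = q.1
  symm := ⟨by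
    rintro (i | p) (j | q) h
    exacts [h, h, h, ⟨h.1.symm, h.2.symm⟩]⟩
  loopless := ⟨by
    rintro (i | p) h
    exacts [h, h.1 rfl]⟩

theorem no_has {k a b m : ℕ} {r f : Fin k → ℕ} (hb : ∀ i, b < r i)
    (hf : ∀ i h, r i ≤ (b + 1) * h → f i ≤ h) (ha : a < ∑ i, f i) : ¬Has (J a b m) r := by
  intro h
  obtain ⟨H, hH⟩ : ∃ H : Finset (Fin a ⊕ Fin m × Fin b), H = univ.image .inl := ⟨_, rfl⟩
  have k3 : #H ≤ a := hH ▸ card_image_le.trans (by simp)
  refine ha.not_ge ((cnt (blk := Sum.elim (fun _ => ∅)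
    fun p => univ.image fun y => .inr (p.1, y)) ?_ ?_ ?_ ?_ hb hf h).trans k3)
  · rintro (i | p) h
    · rfl
    · simp [hH] at h
  · rintro (i | p)
    · simp
    · exact card_image_le.trans (by simp)
  · rintro (i | p) h
    · simp [hH] at h
    · exact mem_image.2 ⟨p.2, mem_univ _, rfl⟩
  · rintro (i | p) h (j | q) e
    · simp [hH] at h
    · simp [hH] at h
    · simp
    · simp only [Sum.elim_inr]
      rw [e.2]

theorem edges (a b m : ℕ) :
    m * (b + 1) * (2 * a + b) ≤ 2 * Nat.card (J a (b + 1) m).edgeSet := by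
  rw [← ee_univ, ee, Fintype.sum_sum_type]
  have k1 : ∀ i : Fin a, m * (b + 1) ≤ dg (J a (b + 1) m) (.inl i) univ := fun i => by
    refine le_trans ?_ (card_le_card (s := univ.image .inr) ?_)
    · rw [card_image_of_injective _ Sum.inr_injective]
      simp
    · intro z hz
      obtain ⟨p, -, rfl⟩ := mem_image.1 hz
      exact mem_filter.2 ⟨mem_univ _, trivial⟩
  have k2 : ∀ p : Fin m × Fin (b + 1), a + b ≤ dg (J a (b + 1) m) (.inr p) univ := fun p => by
    refine le_trans ?_ (card_le_card (s := univ.disjSum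
      ((univ.erase p.2).image fun y => (p.1, y))) ?_)
    · rw [card_disjSum, card_image_of_injective _ (Prod.mk_right_injective p.1)]
      simp
    · rintro (i | q) hz
      · exact mem_filter.2 ⟨mem_univ _, trivial⟩
      · obtain ⟨y, hy, rfl⟩ := mem_image.1 (inr_mem_disjSum.1 hz)
        exact mem_filter.2 ⟨mem_univ _, fun e => ne_of_mem_erase hy (congrArg Prod.snd e).symm, rfl⟩
  have k3 := card_nsmul_le_sum univ _ _ fun i _ => k1 i
  have k4 := card_nsmul_le_sum univ _ _ fun p _ => k2 p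
  simp only [card_univ, Fintype.card_fin, Fintype.card_prod, smul_eq_mul] at k3 k4
  linarith

end LowA

open LowA in
/-- The exact extremal density from the upper bound and the construction. -/
theorem lub {k a b : ℕ} {r f : Fin k → ℕ} (hb : ∀ i, b + 1 < r i)
    (hf : ∀ i h, r i ≤ (b + 2) * h → f i ≤ h) (ha : a < ∑ i, f i)
    (up : ∀ (V : Type) [Finite V] [Nonempty V] (G : SimpleGraph V),
      (2 * a + b) * Nat.card V < 2 * Nat.card G.edgeSet → Has G r) :
    IsLUB (Dens r) ((2 * a + b) / 2) := by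
  refine ⟨?_, fun z hz => ?_⟩
  · rintro _ ⟨V, _, _, G, h, rfl⟩
    have h0 : (0 : ℝ) < Nat.card V := Nat.cast_pos.2 Nat.card_pos
    have h1 : ((2 * Nat.card G.edgeSet : ℕ) : ℝ) ≤ ((2 * a + b) * Nat.card V : ℕ) :=
      Nat.cast_le.2 (not_lt.1 fun e => h (up V G e))
    push_cast at h1
    rw [div_le_iff₀ h0]
    linarith
  by_contra hn
  rw [not_le] at hn
  obtain ⟨c, hc⟩ : ∃ c : ℝ, c = (2 * a + b) / 2 := ⟨_, rfl⟩
  rw [← hc] at hn
  obtain ⟨m, hm⟩ := exists_nat_gt (c * a / (c - z))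
  rw [div_lt_iff₀ (by linarith)] at hm
  have h1 := hz ⟨_, inferInstance, ⟨.inr (0, 0)⟩, J a (b + 1) (m + 1), no_has hb hf ha, rfl⟩
  have h2 : ((((m + 1) * (b + 1) * (2 * a + b) : ℕ)) : ℝ) ≤ (2 * _ : ℕ) :=
    Nat.cast_le.2 (edges a b (m + 1))
  have h3 : (Nat.card (Fin a ⊕ Fin (m + 1) × Fin (b + 1)) : ℝ) = a + (m + 1) * (b + 1) := by simp
  have a0 : (0 : ℝ) ≤ a := Nat.cast_nonneg a
  have b0 : (0 : ℝ) ≤ b := Nat.cast_nonneg b
  have m0 : (0 : ℝ) ≤ m := Nat.cast_nonneg m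
  rw [h3, div_le_iff₀ (by positivity)] at h1
  push_cast at h2
  have h4 : (2 * a + b : ℝ) = 2 * c := by rw [hc]; ring
  rw [h4] at h2
  have h5 := mul_le_mul_of_nonneg_right hn.le a0
  have h6 : 0 ≤ ((m + 1) * (b + 1) - m : ℝ) * (c - z) := mul_nonneg (by nlinarith) (by linarith)
  linarith

/-- The generic value. -/
theorem lub_gen {k : ℕ} {r : Fin k → ℕ} (h3 : ∀ i, 3 ≤ r i) (hk : 1 ≤ k)
    (up : ∀ (V : Type) [Finite V] (G : SimpleGraph V), ∑ i, r i ≤ Nat.card V →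
      (∑ i, (r i + 1) / 2 - 1) * Nat.card V ≤ Nat.card G.edgeSet → Has G r) :
    IsLUB (Dens r) (((∑ i, (r i + 1) / 2 : ℕ) : ℝ) - 1) := by
  have h1 : 1 ≤ ∑ i, (r i + 1) / 2 :=
    le_trans (by have := h3 ⟨0, hk⟩; omega)
      (single_le_sum (f := fun i => (r i + 1) / 2) (fun _ _ => Nat.zero_le _) (mem_univ ⟨0, hk⟩))
  obtain ⟨T, hT⟩ : ∃ T, ∑ i, (r i + 1) / 2 = T + 1 := ⟨_, (Nat.sub_add_cancel h1).symm⟩
  have h2 : ∑ i, r i ≤ 2 * ∑ i, (r i + 1) / 2 := by
    rw [mul_sum]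
    exact sum_le_sum fun i _ => by omega
  have := lub (a := T) (b := 0) (r := r) (f := fun i => (r i + 1) / 2)
    (fun i => by have := h3 i; omega) (fun i h e => by omega) (by omega) fun V _ _ G e => by
      have := Fintype.ofFinite V
      refine up V G ?_ (by rw [hT, Nat.add_sub_cancel]; linarith)
      rw [← ee_univ, Nat.card_eq_fintype_card, ← card_univ] at e
      have := dense_card e
      rw [Nat.card_eq_fintype_card, ← card_univ]
      omega
  rw [hT]
  convert this using 1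
  push_cast
  ring

theorem has_even {V : Type} [Finite V] [Nonempty V] (G : SimpleGraph V) {r : Fin 1 → ℕ}
    (h3 : 3 ≤ r 0) (h : Even (r 0)) (e : (r 0 - 1) * Nat.card V ≤ 2 * Nat.card G.edgeSet) :
    Has G r := by
  have := Fintype.ofFinite V
  obtain ⟨l, hl⟩ := h
  rw [← ee_univ, Nat.card_eq_fintype_card, ← card_univ] at e
  obtain ⟨u, c, c1, c2⟩ := (eg (l := l) (j := r 0 - 1) dirac (by omega) univ_nonempty (by omega)
    (by omega : _ < ee G univ univ + _)).nu.walks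
  refine ⟨u, c, fun i => ⟨(c1 i).1, ?_⟩, c2⟩
  have := (c1 i).2.1
  rw [Subsingleton.elim i 0] at this ⊢
  omega

theorem has_quad {V : Type} [Finite V] [Nonempty V] (G : SimpleGraph V) {k : ℕ} (hk : 1 ≤ k)
    {r : Fin k → ℕ} (h : ∀ i, r i = 4)
    (e : (4 * k - 1) * Nat.card V ≤ 2 * Nat.card G.edgeSet) : Has G r := by
  have := Fintype.ofFinite V
  obtain ⟨k, rfl⟩ : ∃ j, k = j + 1 := ⟨k - 1, by omega⟩
  rw [← ee_univ, Nat.card_eq_fintype_card, ← card_univ] at e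
  obtain ⟨u, c, c1, c2⟩ := (quad dirac k univ G univ_nonempty e).walks
  exact ⟨u, c, fun i => ⟨(c1 i).1, (h i).trans_le (c1 i).2.1⟩, c2⟩

/-- The two exceptional families. -/
theorem lub_exc {k : ℕ} {r : Fin k → ℕ} (h3 : ∀ i, 3 ≤ r i) (hk : 1 ≤ k)
    (h : (k = 1 ∧ ∀ i, Even (r i)) ∨ ∀ i, r i = 4) :
    IsLUB (Dens r) (((∑ i, (r i + 1) / 2 : ℕ) : ℝ) - 1 / 2) := by
  rcases h with ⟨rfl, h⟩ | h
  · obtain ⟨l, hl⟩ := h 0
    have h0 := h3 0
    obtain ⟨b, hb⟩ : ∃ b, r 0 = b + 3 := ⟨r 0 - 3, by omega⟩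
    have := lub (a := 1) (b := b) (r := r) (f := fun _ => 2)
      (fun i => by rw [Subsingleton.elim i 0]; omega)
      (fun i h e => by
        rw [Subsingleton.elim i 0] at e
        by_contra z
        have := Nat.mul_le_mul_left (b + 2) (show h ≤ 1 by omega)
        omega) (by simp) fun V _ _ G e =>
      has_even G h0 ⟨l, hl⟩ (by rw [show r 0 - 1 = 2 * 1 + b by omega]; exact e.le)
    convert this using 1
    have e : (b : ℝ) + 3 = l + l := by exact_mod_cast hb.symm.trans hl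
    rw [Fin.sum_univ_one, show (r 0 + 1) / 2 = l by omega]
    push_cast
    linarith
  · obtain ⟨k, rfl⟩ : ∃ j, k = j + 1 := ⟨k - 1, by omega⟩
    have := lub (a := 2 * k + 1) (b := 1) (r := r) (f := fun _ => 2)
      (fun i => by rw [h]; omega) (fun i j e => by rw [h] at e; omega) (by simp; omega)
      fun V _ _ G e => has_quad G hk h
        (by rw [show 4 * (k + 1) - 1 = 2 * (2 * k + 1) + 1 by omega]; exact e.le)
    convert this using 1
    simp only [h]
    simp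
    ring

theorem Has.iso {V W : Type} {G : SimpleGraph V} {G' : SimpleGraph W} (φ : G ≃g G') {k : ℕ}
    {r : Fin k → ℕ} (h : Has G r) : Has G' r := by
  obtain ⟨u, c, c1, c2⟩ := h
  refine ⟨fun i => φ (u i), fun i => (c i).map φ.toHom, fun i => ⟨(c1 i).1.map φ.injective, ?_⟩,
    fun i j e v hv hv' => ?_⟩
  · rw [SimpleGraph.Walk.length_map]
    exact (c1 i).2
  · rw [SimpleGraph.Walk.support_map, List.mem_map] at hv hv'
    obtain ⟨x, hx, rfl⟩ := hv
    obtain ⟨y, hy, e'⟩ := hv'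
    exact c2 i j e x hx (φ.injective e' ▸ hy)

open LowA in
theorem low0 {k a b : ℕ} {r f : Fin k → ℕ} (hb : ∀ i, b + 1 < r i)
    (hf : ∀ i h, r i ≤ (b + 2) * h → f i ≤ h) (ha : a < ∑ i, f i) (N : ℕ) {ε : ℝ} (hε : 0 < ε) :
    ∃ (n : ℕ) (G : SimpleGraph (Fin n)), N ≤ n ∧
      (((2 * a + b : ℕ) : ℝ) - ε) * n < 2 * Nat.card G.edgeSet ∧ ¬Has G r := by
  obtain ⟨m0, hm⟩ := exists_nat_gt ((2 * a + b) * a / ε)
  rw [div_lt_iff₀ hε] at hm
  have φ := SimpleGraph.Iso.comap (Finite.equivFin (Fin a ⊕ Fin (m0 + N) × Fin (b + 1))).symm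
    (J a (b + 1) (m0 + N))
  have h3 : Nat.card (Fin a ⊕ Fin (m0 + N) × Fin (b + 1)) = a + (m0 + N) * (b + 1) := by simp
  refine ⟨_, _, ?_, ?_, fun h => no_has hb hf ha (h.iso φ)⟩
  · rw [h3]
    nlinarith [Nat.zero_le ((m0 + N) * b)]
  have h2 : ((((m0 + N) * (b + 1) * (2 * a + b) : ℕ)) : ℝ) ≤ (2 * _ : ℕ) :=
    Nat.cast_le.2 (edges a b (m0 + N))
  rw [Nat.card_congr φ.mapEdgeSet, h3]
  push_cast at h2 ⊢
  have a0 : (0 : ℝ) ≤ a := Nat.cast_nonneg a
  have b0 : (0 : ℝ) ≤ b := Nat.cast_nonneg b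
  have m1 : (0 : ℝ) ≤ m0 := Nat.cast_nonneg m0
  have n0 : (0 : ℝ) ≤ N := Nat.cast_nonneg N
  have h6 : 0 ≤ (a + (m0 + N) * (b + 1) - m0 : ℝ) * ε := mul_nonneg (by nlinarith) hε.le
  linarith

/-- The lower bound in all cases. -/
theorem low (k : ℕ) (r : Fin k → ℕ) (d : ℕ) (hk : 1 ≤ k) (h3 : ∀ i, 3 ≤ r i)
    {_ : Decidable ((k = 1 ∧ ∀ i, Even (r i)) ∨ ∀ i, r i = 4)}
    (hd : d = if (k = 1 ∧ ∀ i, Even (r i)) ∨ ∀ i, r i = 4 then ∑ i, r i - 1
      else 2 * ∑ i, (r i + 1) / 2 - 2) (ε : ℝ) (hε : 0 < ε) :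
    ∃ (n : ℕ) (G : SimpleGraph (Fin n)), ∑ i, r i ≤ n ∧
      ((d : ℝ) - ε) * n < 2 * Nat.card G.edgeSet ∧
      ¬∃ (u : Fin k → Fin n) (c : ∀ i, G.Walk (u i) (u i)),
        (∀ i, (c i).IsCycle ∧ r i ≤ (c i).length) ∧
        ∀ i j, i ≠ j → ∀ v, v ∈ (c i).support → v ∉ (c j).support := by
  split_ifs at hd with h
  · rcases h with ⟨rfl, -⟩ | h
    · have h0 := h3 0
      rw [Fin.sum_univ_one] at hd
      obtain rfl : d = 2 * 1 + (r 0 - 3) := by omega
      refine low0 (f := fun _ => 2) (fun i => by rw [Subsingleton.elim i 0]; omega)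
        (fun i h e => ?_) (by simp) _ hε
      rw [Subsingleton.elim i 0] at e
      by_contra z
      have := Nat.mul_le_mul_left (r 0 - 3 + 2) (show h ≤ 1 by omega)
      omega
    · have e : ∑ i, r i = k * 4 := by simp [h]
      obtain rfl : d = 2 * (2 * k - 1) + 1 := by omega
      exact low0 (f := fun _ => 2) (fun i => by rw [h]; omega) (fun i j e => by rw [h] at e; omega)
        (by simp; omega) _ hε
  · have h1 : 1 ≤ ∑ i, (r i + 1) / 2 :=
      le_trans (by have := h3 ⟨0, hk⟩; omega)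
        (single_le_sum (f := fun i => (r i + 1) / 2) (fun _ _ => Nat.zero_le _) (mem_univ ⟨0, hk⟩))
    obtain rfl : d = 2 * (∑ i, (r i + 1) / 2 - 1) + 0 := by omega
    exact low0 (f := fun i => (r i + 1) / 2) (fun i => by have := h3 i; omega)
      (fun i h e => by omega) (by omega) _ hε

end Pool.Agent.Lib.MP_b07792_co.EV
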