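import Pool.Agent.Lib.MP_b07792_co.EV.Ex

/-!
The main induction.
-/

namespace Pool.Agent.Lib.MP_b07792_co.EV

open Finset
open scoped Classical

variable {V : Type} {l : ℕ}

/-- the statement for `k` cycles -/
def Mk (V : Type) (l k : ℕ) : Prop :=
  ∀ (T : ℕ) (X : Finset V) (G : SimpleGraph V), T + 1 = k * l → 2 * T + 2 ≤ #X →
    2 * T * #X ≤ ee G X X → Nu G (2 * l) k X

theorem Mk.dense {k t : ℕ} (h : Mk V l k) (ht : t + 1 = k * l) {G : SimpleGraph V} (Y : Finset V)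
    (e : 2 * t * #Y < ee G Y Y) : Nu G (2 * l) k Y := h t Y G ht (dense_card e) e.le

theorem main (hD : DiracSt) (hO : OreSt) (hP : PTSt) (hl : 3 ≤ l) (k : ℕ) (hk : 2 ≤ k) :
    Mk V l k := by
  have hl' : 2 ≤ l := by omega
  induction k using Nat.strong_induction_on with
  | _ k ihk =>
  intro T X
  induction hX : #X using Nat.strong_induction_on generalizing X with
  | _ n ih =>
  intro G hT hn he
  subst hX
  by_contra hN
  have h0 : ∀ C ⊆ X, G.IsClique (C : Set V) → #C ≤ 2 * T := fun C c1 c2 => by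
    by_contra n
    obtain ⟨K, k1, k2⟩ := exists_subset_card_eq (show 2 * T + 1 ≤ #C by omega)
    obtain ⟨j, rfl⟩ : ∃ j, k = j + 1 := ⟨k - 1, by omega⟩
    exact hN (step0 hD hO hl' (by omega) hT hn he (k1.trans c1) (c2.subset (coe_subset.2 k1)) k2)
  have h1 : ∀ Y ⊆ X, ee G Y Y + 2 * T * #X ≤ ee G X X + 2 * T * #Y := fun Y hY => by
    rcases (card_le_card hY).eq_or_lt with c | c
    · rw [eq_of_subset_of_card_le hY c.ge]
    · by_contra n
      have d : 2 * T * #Y < ee G Y Y := by omega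
      exact hN ((ih _ c Y rfl G hT (dense_card d) d.le).mono hY)
  have h2 : #X ≠ 2 * T + 2 → ∀ u ∈ X, ∀ v ∈ X, G.Adj u v → T ≤ #(cn G u v X) :=
    fun c u hu v hv e => by
      by_contra n
      have d := card_erase_add_one hv
      have d1 := con_ee e hu hv
      rw [← d, mul_add, mul_one] at he
      exact hN ((ih _ (by omega) (X.erase v) rfl (con G u v) hT (by omega) (by omega)).lift e hv)
  obtain ⟨a, b, e1, e2, e3, e4⟩ : ∃ a b, a + b = k ∧ 1 ≤ a ∧ a ≤ b ∧ b ≤ a + 1 :=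
    ⟨k / 2, k - k / 2, by omega, by omega, by omega, by omega⟩
  have f1 : l ≤ a * l := Nat.le_mul_of_pos_left l e2
  have f2 : a * l ≤ b * l := Nat.mul_le_mul_right l e3
  have f3 : b * l ≤ a * l + l := by
    have := Nat.mul_le_mul_right l e4
    rwa [add_mul, one_mul] at this
  have f4 : a * l + b * l = T + 1 := by rw [← add_mul, e1, hT]
  obtain ⟨s, hs⟩ : ∃ s, s + 1 = a * l := ⟨a * l - 1, by omega⟩
  obtain ⟨t, ht⟩ : ∃ t, t + 1 = b * l := ⟨b * l - 1, by omega⟩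
  obtain rfl : T = s + t + 1 := by omega
  obtain ⟨A, a1, B, b1, d, a2, b2⟩ := hP V G X s t (by omega) (by omega) (by omega)
    (card_pos.1 (by omega)) he h0
  rcases e2.eq_or_lt with rfl | e2
  swap
  · exact hN (e1 ▸ ((ihk b (by omega) (by omega)).dense ht B b2).add
      ((ihk a (by omega) e2).dense hs A a2) d.symm b1 a1)
  have bad : ∀ Y ⊆ X, 2 * s * #Y < ee G Y Y → ¬Lg G (2 * l) Y →
      ∃ Q ⊆ Y, ∃ Q' ⊆ Y, Bad G l X Q Q' := fun Y y1 y2 y3 => by
    obtain ⟨Q, q1, Q', q2, q3, q4, q5⟩ := k2 hD hl' (by omega) y2 y3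
    exact ⟨Q, q1, Q', q2, q1.trans y1, q2.trans y1, q3, q4, q5,
      fun c => y3 (c.mono (union_subset q1 q2))⟩
  rcases e3.eq_or_lt with rfl | e3
  · subst e1
    obtain rfl : s = t := by omega
    have : ∃ Q Q', Bad G l X Q Q' := by
      by_cases c : Lg G (2 * l) A
      · obtain ⟨Q, -, Q', -, q⟩ := bad B b1 b2 fun c' => hN (c.two c' d a1 b1)
        exact ⟨Q, Q', q⟩
      · obtain ⟨Q, -, Q', -, q⟩ := bad A a1 a2 c
        exact ⟨Q, Q', q⟩
    obtain ⟨Q, Q', q⟩ := this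
    exact hN (four hD hO hl q (by omega) hn h1 (h2 (q.big hO hl (by omega) he)))
  obtain rfl : b = 2 := by omega
  subst e1
  have h4 := (ihk 2 (by omega) le_rfl).dense (G := G) ht
  obtain ⟨Q, q1, Q', q2, q⟩ := bad A a1 a2 fun c => hN (Nu.cons c (h4 B b2) d a1 b1)
  have h3 := h2 (q.big hO hl (by omega) he)
  have hB : B ⊆ X \ (Q ∪ Q') := subset_sdiff.2 ⟨b1, d.symm.mono_right (union_subset q1 q2)⟩
  rcases le_total (ee G (Q \ Q') (X \ (Q ∪ Q'))) (ee G (Q' \ Q) (X \ (Q ∪ Q'))) with c | c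
  · exact hN (five hO hl q ht (by omega) he h1 h3 h4 hB b2 c)
  · rw [union_comm] at c hB
    exact hN (five hO hl q.symm ht (by omega) he h1 h3 h4 hB b2 c)

theorem Nu.walks {G : SimpleGraph V} {m k : ℕ} {X : Finset V} (h : Nu G m k X) :
    ∃ (u : Fin k → V) (c : ∀ i, G.Walk (u i) (u i)),
      (∀ i, (c i).IsCycle ∧ m ≤ (c i).length ∧ ∀ v ∈ (c i).support, v ∈ X) ∧
      ∀ i j, i ≠ j → ∀ v, v ∈ (c i).support → v ∉ (c j).support := by
  induction k generalizing X with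
  | zero => exact ⟨Fin.elim0, fun i => i.elim0, fun i => i.elim0, fun i => i.elim0⟩
  | succ k ih =>
    obtain ⟨S, h1, h2, h3, h4⟩ := h
    obtain ⟨u, c, c1, c2⟩ := ih h4
    obtain ⟨u0, c0, d1, d2, d3⟩ := h2.walk
    refine ⟨Fin.cons u0 u, Fin.cons c0 c, fun i => ?_, fun i j => ?_⟩
    · refine Fin.cases ⟨d1, d2 ▸ h3, fun v hv => h1 ((d3 v).1 hv)⟩ (fun i => ?_) i
      exact ⟨(c1 i).1, (c1 i).2.1, fun v hv => (mem_sdiff.1 ((c1 i).2.2 v hv)).1⟩
    · refine Fin.cases ?_ (fun i => ?_) i <;> refine Fin.cases ?_ (fun j => ?_) j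
      · exact fun e => absurd rfl e
      · exact fun _ v hv hv' => (mem_sdiff.1 ((c1 j).2.2 v hv')).2 ((d3 v).1 hv)
      · exact fun _ v hv hv' => (mem_sdiff.1 ((c1 i).2.2 v hv)).2 ((d3 v).1 hv')
      · exact fun e => c2 i j fun e' => e (congrArg _ e')

theorem ee_univ [Fintype V] (G : SimpleGraph V) :
    ee G univ univ = 2 * Nat.card G.edgeSet := by
  rw [Nat.card_eq_fintype_card, ← SimpleGraph.edgeFinset_card,
    ← SimpleGraph.sum_degrees_eq_twice_card_edges]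
  refine sum_congr rfl fun v _ => ?_
  rw [← SimpleGraph.card_neighborFinset_eq_degree, SimpleGraph.neighborFinset_eq_filter, dg]

end Pool.Agent.Lib.MP_b07792_co.EV
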