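import Pool.Agent.Lib.MP_b07792_co.EV.St

/-!
The partition theorem, by fractional rounding.
-/

namespace Pool.Agent.Lib.MP_b07792_co.EV

open Finset
open scoped Classical

namespace PTa

variable {V : Type} {X C : Finset V} {M : V → V → ℝ} {a b : ℝ} {x : V → ℝ} {G : SimpleGraph V}

/-- the quadratic form -/
def Q (X : Finset V) (M : V → V → ℝ) (x : V → ℝ) : ℝ := ∑ u ∈ X, (∑ v ∈ X, M u v * x v) * x u

/-- one half of the invariant -/
def Ok (X : Finset V) (M : V → V → ℝ) (a : ℝ) (x : V → ℝ) : Prop :=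
  (∀ v, 0 ≤ x v) ∧ 0 < ∑ v ∈ X, x v ∧ 2 * a * ∑ v ∈ X, x v ≤ Q X M x

/-- the fractional vertices -/
noncomputable def Fr (X : Finset V) (x : V → ℝ) : Finset V := {v ∈ X | x v ≠ 0 ∧ x v ≠ 1}

theorem Ok.big (h1 : ∀ u v, M u v ≤ 1) (h : Ok X M a x) : 2 * a ≤ ∑ v ∈ X, x v := by
  refine le_of_mul_le_mul_right (h.2.2.trans ?_) h.2.1
  rw [Q, mul_sum]
  refine sum_le_sum fun u _ => mul_le_mul_of_nonneg_right (sum_le_sum fun v _ => ?_) (h.1 u)
  exact mul_le_of_le_one_left (h.1 v) (h1 u v)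

theorem Ok.step (hs : ∀ u v, M u v = M v u) (h1 : ∀ u v, M u v ≤ 1) (ha : 1 < a) {u v : V}
    (hu : u ∈ X) (hv : v ∈ X) (e1 : M u u = M u v) (e2 : M v v = M u v) (e3 : 0 ≤ M u v)
    (h : Ok X M a x) : ∃ c d : ℝ, ∀ (p q : ℝ) (y : V → ℝ), 0 ≤ c * p + d * q → -1 ≤ p → -1 ≤ q →
      (∀ w, y w = x w + (if w = u then p else 0) + if w = v then q else 0) → (∀ w, 0 ≤ y w) →
      Ok X M a y := by
  refine ⟨∑ w ∈ X, M u w * x w - a, ∑ w ∈ X, M v w * x w - a, fun p q y hc hp hq hy h0 => ?_⟩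
  have hb := h.big h1
  have s1 : ∀ φ : V → ℝ, ∑ w ∈ X, φ w * y w = ∑ w ∈ X, φ w * x w + φ u * p + φ v * q := by
    intro φ
    simp only [hy, mul_add, sum_add_distrib, mul_ite, mul_zero, sum_ite_eq', hu, hv, if_true]
  have s2 : ∑ w ∈ X, y w = ∑ w ∈ X, x w + p + q := by simpa using s1 fun _ => 1
  have s3 : Q X M y = Q X M x + 2 * (∑ w ∈ X, M u w * x w) * p +
      2 * (∑ w ∈ X, M v w * x w) * q + M u v * (p + q) ^ 2 := by
    have t1 : ∀ (z : V) (r : ℝ), ∑ w ∈ X, M w z * r * x w = (∑ w ∈ X, M z w * x w) * r := by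
      intro z r
      rw [sum_mul]
      exact sum_congr rfl fun w _ => by rw [hs w z]; ring
    rw [Q, s1]
    simp only [s1, add_mul, sum_add_distrib, t1]
    rw [Q, e1, e2, hs v u]
    ring
  refine ⟨h0, by linarith, ?_⟩
  have := mul_nonneg e3 (sq_nonneg (p + q))
  have h2 := h.2.2
  rw [s2, s3]
  linarith

theorem exit {a p : ℝ} (h0 : 0 < a) (h1 : a < 1) (hp : p ≠ 0) :
    ∃ τ, 0 ≤ τ ∧ (a + τ * p = 0 ∨ a + τ * p = 1) := by
  rcases hp.lt_or_gt with h | h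
  · exact ⟨a / -p, div_nonneg h0.le (by linarith), Or.inl (by field_simp; ring)⟩
  · exact ⟨(1 - a) / p, div_nonneg (by linarith) h.le, Or.inr (by field_simp; ring)⟩

theorem mid {a p σ τ : ℝ} (h0 : 0 < a) (h1 : a < 1) (hσ : 0 ≤ σ) (h : σ ≤ τ)
    (e : a + τ * p = 0 ∨ a + τ * p = 1) : 0 ≤ a + σ * p ∧ a + σ * p ≤ 1 := by
  rcases le_total 0 p with hp | hp
  · have t1 := mul_nonneg hσ hp
    have t2 := mul_le_mul_of_nonneg_right h hp
    rcases e with e | e <;> constructor <;> linarith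
  · have t1 := mul_nonpos_of_nonneg_of_nonpos hσ hp
    have t2 := mul_le_mul_of_nonpos_right h hp
    rcases e with e | e <;> constructor <;> linarith

theorem move {a b : ℝ} (c d c' d' : ℝ) (a0 : 0 < a) (a1 : a < 1) (b0 : 0 < b) (b1 : b < 1) :
    ∃ p q, 0 ≤ c * p + d * q ∧ 0 ≤ c' * p + d' * q ∧ (0 ≤ a + p ∧ a + p ≤ 1) ∧
      (0 ≤ b + q ∧ b + q ≤ 1) ∧ ((a + p = 0 ∨ a + p = 1) ∨ (b + q = 0 ∨ b + q = 1)) := by
  obtain ⟨p, q, hne, h1, h2⟩ :
      ∃ p q : ℝ, (p ≠ 0 ∨ q ≠ 0) ∧ 0 ≤ c * p + d * q ∧ 0 ≤ c' * p + d' * q := by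
    by_cases h : d ≠ 0 ∨ c ≠ 0
    · rcases le_total 0 (c' * d - d' * c) with e | e
      · exact ⟨d, -c, h.imp id neg_ne_zero.2, by linarith, by linarith⟩
      · exact ⟨-d, c, h.imp neg_ne_zero.2 id, by linarith, by linarith⟩
    · rw [not_or, not_not, not_not] at h
      rcases le_total 0 c' with e | e
      · exact ⟨1, 0, Or.inl one_ne_zero, by simp [h.2], by linarith⟩
      · exact ⟨-1, 0, Or.inl (by norm_num), by simp [h.2], by linarith⟩
  obtain ⟨τ, h0, h3⟩ : ∃ τ, 0 ≤ τ ∧ (0 ≤ a + τ * p ∧ a + τ * p ≤ 1) ∧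
      (0 ≤ b + τ * q ∧ b + τ * q ≤ 1) ∧
      ((a + τ * p = 0 ∨ a + τ * p = 1) ∨ (b + τ * q = 0 ∨ b + τ * q = 1)) := by
    by_cases hp : p = 0
    · obtain ⟨τ, h0, e⟩ := exit b0 b1 (hne.resolve_left (not_not.2 hp))
      exact ⟨τ, h0, by rw [hp]; constructor <;> linarith, mid b0 b1 h0 le_rfl e, Or.inr e⟩
    obtain ⟨σ, s0, e⟩ := exit a0 a1 hp
    by_cases hq : q = 0
    · exact ⟨σ, s0, mid a0 a1 s0 le_rfl e, by rw [hq]; constructor <;> linarith, Or.inl e⟩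
    obtain ⟨τ, h0, e'⟩ := exit b0 b1 hq
    rcases le_total σ τ with h | h
    · exact ⟨σ, s0, mid a0 a1 s0 le_rfl e, mid b0 b1 s0 h e', Or.inl e⟩
    · exact ⟨τ, h0, mid a0 a1 h0 h e, mid b0 b1 h0 le_rfl e', Or.inr e'⟩
  have t1 := mul_nonneg h0 h1
  have t2 := mul_nonneg h0 h2
  exact ⟨τ * p, τ * q, by linarith, by linarith, h3⟩

theorem round (hs : ∀ u v, M u v = M v u) (h1 : ∀ u v, M u v ≤ 1) (ha : 1 < a) (hb : 1 < b)
    (n : ℕ) : ∀ x : V → ℝ, #(Fr X x) = n → Ok X M a x → Ok X M b (fun v => 1 - x v) →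
    ∃ y, Ok X M a y ∧ Ok X M b (fun v => 1 - y v) ∧ Fr X y ⊆ Fr X x ∧
      ∀ u ∈ Fr X y, ∀ v ∈ Fr X y, u ≠ v → M u u = M u v → M v v = M u v → M u v < 0 := by
  induction n using Nat.strong_induction_on with
  | _ n ih =>
  intro x hn hx hy
  by_cases H : ∀ u ∈ Fr X x, ∀ v ∈ Fr X x, u ≠ v → M u u = M u v → M v v = M u v → M u v < 0
  · exact ⟨x, hx, hy, Subset.rfl, H⟩
  push Not at H
  obtain ⟨u, hu, v, hv, huv, e1, e2, e3⟩ := H
  have fr : ∀ w ∈ Fr X x, w ∈ X ∧ 0 < x w ∧ x w < 1 := fun w hw => by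
    rw [Fr, mem_filter] at hw
    exact ⟨hw.1, (hx.1 w).lt_of_ne' hw.2.1, (sub_nonneg.1 (hy.1 w)).lt_of_ne hw.2.2⟩
  obtain ⟨uX, u0, u1⟩ := fr u hu
  obtain ⟨vX, v0, v1⟩ := fr v hv
  obtain ⟨c, d, hc⟩ := hx.step hs h1 ha uX vX e1 e2 e3
  obtain ⟨c', d', hc'⟩ := hy.step hs h1 hb uX vX e1 e2 e3
  obtain ⟨p, q, k1, k2, k3, k4, k5⟩ := move c d (-c') (-d') u0 u1 v0 v1
  obtain ⟨z, hz⟩ : ∃ z : V → ℝ, ∀ w,
      z w = x w + (if w = u then p else 0) + if w = v then q else 0 := ⟨_, fun _ => rfl⟩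
  have zu : z u = x u + p := by rw [hz, if_pos rfl, if_neg huv, add_zero]
  have zv : z v = x v + q := by rw [hz, if_neg huv.symm, if_pos rfl, add_zero]
  have zw : ∀ w, w ≠ u → w ≠ v → z w = x w := fun w a b => by
    rw [hz, if_neg a, if_neg b, add_zero, add_zero]
  have z0 : ∀ w, 0 ≤ z w ∧ z w ≤ 1 := fun w => by
    by_cases a : w = u
    · rw [a, zu]
      exact k3
    by_cases b : w = v
    · rw [b, zv]
      exact k4
    rw [zw w a b]
    exact ⟨hx.1 w, sub_nonneg.1 (hy.1 w)⟩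
  have sub : Fr X z ⊆ Fr X x := fun w hw => by
    by_cases a : w = u
    · exact a ▸ hu
    by_cases b : w = v
    · exact b ▸ hv
    rw [Fr, mem_filter] at hw ⊢
    rwa [zw w a b] at hw
  have lt : #(Fr X z) < n := by
    rw [← hn]
    refine card_lt_card ((ssubset_iff_of_subset sub).2 ?_)
    rcases k5 with k | k
    · refine ⟨u, hu, fun h => ?_⟩
      rw [Fr, mem_filter, zu] at h
      exact k.elim h.2.1 h.2.2
    · refine ⟨v, hv, fun h => ?_⟩
      rw [Fr, mem_filter, zv] at h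
      exact k.elim h.2.1 h.2.2
  obtain ⟨y, y1, y2, y3, y4⟩ := ih _ lt z rfl
    (hc p q z k1 (by linarith [k3.1]) (by linarith [k4.1]) hz fun w => (z0 w).1)
    (hc' (-p) (-q) _ (by linarith) (by linarith [k3.2]) (by linarith [k4.2])
      (fun w => by rw [hz]; split_ifs <;> ring) fun w => sub_nonneg.2 (z0 w).2)
  exact ⟨y, y1, y2, y3.trans sub, y4⟩

/-- the adjacency matrix -/
noncomputable def ad (G : SimpleGraph V) (u v : V) : ℝ := if G.Adj u v then 1 else 0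

/-- the corrected matrix -/
noncomputable def ad' (G : SimpleGraph V) (C : Finset V) (u v : V) : ℝ :=
  ad G u v + if v ∈ C then if u ∈ C then (if v = u then 1 else 0) - (#C : ℝ)⁻¹ else 0 else 0

theorem ad_symm (u v : V) : ad G u v = ad G v u := by simp only [ad, G.adj_comm]

theorem ad_le (u v : V) : ad G u v ≤ 1 := by
  unfold ad
  split_ifs <;> norm_num

theorem ad_self (u : V) : ad G u u = 0 := if_neg G.irrefl

theorem sum_ad (u : V) (A : Finset V) : ∑ v ∈ A, ad G u v = dg G u A := by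
  rw [dg_eq]
  push_cast
  rfl

theorem ad'_symm (u v : V) : ad' G C u v = ad' G C v u := by
  unfold ad'
  rw [ad_symm u v]
  by_cases h1 : u ∈ C <;> by_cases h2 : v ∈ C <;> simp [h1, h2, eq_comm]

theorem ad'_le (u v : V) : ad' G C u v ≤ 1 := by
  have h1 : (0 : ℝ) ≤ (#C : ℝ)⁻¹ := by positivity
  have h2 := ad_le (G := G) u v
  unfold ad'
  split_ifs with _ _ h
  · rw [h, ad_self]
    linarith
  all_goals linarith

theorem ad'_clique (h : G.IsClique (C : Set V)) {u v : V} (hu : u ∈ C) (hv : v ∈ C) :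
    ad' G C u v = 1 - (#C : ℝ)⁻¹ := by
  unfold ad'
  rw [if_pos hv, if_pos hu]
  split_ifs with e
  · rw [e, ad_self, zero_add]
  · rw [ad, if_pos (h hu hv (Ne.symm e))]
    ring

theorem Q_ad' (hC : C ⊆ X) (x : V → ℝ) : Q X (ad' G C) x =
    Q X (ad G) x + (∑ v ∈ C, x v * x v - (#C : ℝ)⁻¹ * (∑ v ∈ C, x v) ^ 2) := by
  have hi : X ∩ C = C := inter_eq_right.2 hC
  simp only [Q, ad', add_mul, sum_add_distrib, ite_mul, zero_mul, sum_ite_mem, hi]
  congr 1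
  have : ∀ u ∈ X, (∑ v ∈ C, if u ∈ C then ((if v = u then 1 else 0) - (#C : ℝ)⁻¹) * x v else 0) *
      x u = if u ∈ C then x u * x u - (#C : ℝ)⁻¹ * (∑ v ∈ C, x v) * x u else 0 := by
    intro u _
    split_ifs with h
    · simp only [sub_mul, sum_sub_distrib, ite_mul, one_mul, zero_mul, sum_ite_eq', h, if_true,
        ← mul_sum]
    · simp
  rw [sum_congr rfl this, sum_ite_mem, hi, sum_sub_distrib, ← mul_sum]
  ring

theorem Ok.up (hC : C ⊆ X) (hne : C.Nonempty) (h : Ok X (ad G) a x) : Ok X (ad' G C) a x := by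
  refine ⟨h.1, h.2.1, h.2.2.trans ?_⟩
  have h0 : (0 : ℝ) < #C := Nat.cast_pos.2 hne.card_pos
  have h1 := sq_sum_le_card_mul_sum_sq (s := C) (f := x)
  rw [Q_ad' hC, le_add_iff_nonneg_right, sub_nonneg, inv_mul_le_iff₀ h0]
  simpa only [sq] using h1

theorem start (hne : X.Nonempty) {T γ : ℝ} (h0 : 0 < γ) (h : 2 * T * #X ≤ ee G X X) :
    Ok X (ad G) (γ * T) fun _ => γ := by
  have h1 : (0 : ℝ) < #X := Nat.cast_pos.2 hne.card_pos
  have h2 : Q X (ad G) (fun _ => γ) = ee G X X * γ * γ := by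
    simp only [Q, ← sum_mul, sum_ad, ee, Nat.cast_sum]
  refine ⟨fun _ => h0.le, ?_, ?_⟩
  · rw [sum_const, nsmul_eq_mul]
    positivity
  · rw [h2, sum_const, nsmul_eq_mul]
    have := mul_le_mul_of_nonneg_right h (mul_pos h0 h0).le
    linarith

/-- the vertices other than `i` with value one -/
noncomputable def On (X : Finset V) (i : V) (x : V → ℝ) : Finset V := {v ∈ X.erase i | x v = 1}

theorem on_sub {i : V} : On X i x ⊆ X := (filter_subset _ _).trans (erase_subset _ _)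

theorem on_not {i : V} : i ∉ On X i x := fun h => notMem_erase i X (mem_filter.1 h).1

theorem on_disj {i : V} : Disjoint (On X i x) (insert i (On X i fun v => 1 - x v)) := by
  rw [disjoint_insert_right]
  refine ⟨on_not, disjoint_left.2 fun v h h' => ?_⟩
  have h1 := (mem_filter.1 h).2
  have h2 : 1 - x v = 1 := (mem_filter.1 h').2
  linarith

theorem sum_on {i : V} {Y : Finset V} (hY : Y ⊆ X) (hi : i ∈ Y)
    (hx : ∀ v ∈ X, v ≠ i → x v = 0 ∨ x v = 1) (φ : V → ℝ) :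
    ∑ v ∈ Y, φ v * x v = ∑ v ∈ On X i x ∩ Y, φ v + φ i * x i := by
  rw [← sum_erase_add _ _ hi]
  congr 1
  have : ∑ v ∈ On X i x ∩ Y, φ v = ∑ v ∈ On X i x ∩ Y, φ v * x v :=
    sum_congr rfl fun v hv => by rw [(mem_filter.1 (mem_inter.1 hv).1).2, mul_one]
  rw [this]
  refine (sum_subset (fun v hv => ?_) fun v hv hn => ?_).symm
  · rw [mem_inter] at hv
    exact mem_erase.2 ⟨ne_of_mem_erase (mem_filter.1 hv.1).1, hv.2⟩
  · rw [mem_erase] at hv
    rcases hx v (hY hv.2) hv.1 with e | e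
    · rw [e, mul_zero]
    · exact absurd (mem_inter.2 ⟨mem_filter.2 ⟨mem_erase.2 ⟨hv.1, hY hv.2⟩, e⟩, hv.2⟩) hn

theorem sum_one {i : V} {Y : Finset V} (hY : Y ⊆ X) (hi : i ∈ Y)
    (hx : ∀ v ∈ X, v ≠ i → x v = 0 ∨ x v = 1) : ∑ v ∈ Y, x v = #(On X i x ∩ Y) + x i := by
  simpa using sum_on hY hi hx fun _ => 1

theorem side {i : V} (hC : C ⊆ X) (hi : i ∈ C) (hx : ∀ v ∈ X, v ≠ i → x v = 0 ∨ x v = 1)
    (h : Ok X (ad' G C) a x) : 2 * a ≤ #(On X i x) + x i ∧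
      2 * a * (#(On X i x) + x i) ≤ ee G (On X i x) (On X i x) + 2 * x i * dg G i (On X i x) +
        (#(On X i x ∩ C) + x i * x i - (#C : ℝ)⁻¹ * (#(On X i x ∩ C) + x i) ^ 2) := by
  have hA : On X i x ∩ X = On X i x := inter_eq_left.2 on_sub
  have e1 : ∑ v ∈ X, x v = #(On X i x) + x i := by rw [sum_one Subset.rfl (hC hi) hx, hA]
  have e2 : ∑ v ∈ C, x v * x v = #(On X i x ∩ C) + x i * x i := by
    have : ∑ v ∈ On X i x ∩ C, x v = ∑ _v ∈ On X i x ∩ C, (1 : ℝ) :=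
      sum_congr rfl fun v hv => (mem_filter.1 (mem_inter.1 hv).1).2
    rw [sum_on hC hi hx, this]
    simp
  have e3 : Q X (ad G) x = ee G (On X i x) (On X i x) + 2 * x i * dg G i (On X i x) := by
    rw [Q, sum_on Subset.rfl (hC hi) hx]
    simp only [sum_on Subset.rfl (hC hi) hx, hA, sum_ad, ad_self, sum_add_distrib, ← sum_mul,
      ad_symm _ i, ee, Nat.cast_sum]
    ring
  refine ⟨e1 ▸ h.big ad'_le, ?_⟩
  have := h.2.2
  rwa [Q_ad' hC, e1, e2, e3, sum_one hC hi hx] at this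

theorem ar3 {s α a θ E d σ c : ℝ}
    (h : 2 * (s + α) * (a + θ) ≤ E + 2 * θ * d + (σ + θ * θ - c⁻¹ * (σ + θ) ^ 2))
    (h0 : 0 ≤ θ) (h1 : θ ≤ 1) (c0 : 0 < c) (hc : c < 8 * α * (a + θ)) :
    2 * s * a < E ∨ 2 * s * (a + 1) < E + 2 * d := by
  have k1 : σ + θ - c / 4 ≤ c⁻¹ * (σ + θ) ^ 2 := by
    rw [le_inv_mul_iff₀ c0]
    linarith [sq_nonneg (σ + θ - c / 2)]
  by_contra hn
  rw [not_or, not_lt, not_lt] at hn
  have k2 := mul_le_mul_of_nonneg_left hn.1 (sub_nonneg.2 h1)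
  have k3 := mul_le_mul_of_nonneg_left hn.2 h0
  have k4 := mul_nonneg h0 (sub_nonneg.2 h1)
  linarith

theorem ar1 {s t α a θ E d σ σ' c : ℝ}
    (h : 2 * (s + α) * (a + θ) ≤ E + 2 * θ * d + (σ + θ * θ - c⁻¹ * (σ + θ) ^ 2))
    (h0 : 0 ≤ θ) (h1 : θ ≤ 1) (ha : θ ≤ α) (hd : d ≤ a) (hs : 2 ≤ s) (ht : 2 ≤ t) (s0 : 0 ≤ σ)
    (s1 : 0 ≤ σ') (hc : σ + θ + (σ' + (1 - θ)) = c) (b0 : σ ≤ 2 * s + 1) (b1 : σ' ≤ 2 * t + 1)
    (hT : c ≤ 2 * (s + t + 1)) (hα : α * (s + t + 2) = t + 1) (hN : 2 * (s + α) ≤ a + θ) :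
    2 * s * a < E := by
  have c0 : 0 < c := by linarith
  obtain ⟨H, hH⟩ : ∃ H, H = σ + θ - c⁻¹ * (σ + θ) ^ 2 := ⟨_, rfl⟩
  have k1 : H * c = (σ + θ) * (σ' + (1 - θ)) := by
    rw [hH, sub_mul, mul_right_comm, inv_mul_cancel₀ c0.ne', ← hc]
    ring
  have k2 : H * (2 * s + 2 * t + 3) < (2 * s + 1 + θ) * (2 * t + 2 - θ) := by
    refine lt_of_mul_lt_mul_right ?_ c0.le
    rw [mul_right_comm, k1, ← hc]
    have p1 : 0 ≤ (σ + θ) * (2 * s + 1 + θ) * (2 * t + 1 - σ') :=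
      mul_nonneg (mul_nonneg (by linarith) (by linarith)) (by linarith)
    have p2 : 0 ≤ (σ' + (1 - θ)) * (2 * t + 2 - θ) * (2 * s + 1 - σ) :=
      mul_nonneg (mul_nonneg (by linarith) (by linarith)) (by linarith)
    rcases b0.lt_or_eq with e | e
    · rcases b1.lt_or_eq with e' | e'
      · rcases lt_or_ge 0 (σ + θ) with z | z
        · have : 0 < (σ + θ) * (2 * s + 1 + θ) * (2 * t + 1 - σ') :=
            mul_pos (mul_pos z (by linarith)) (by linarith)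
          linarith
        · have : 0 < (σ' + (1 - θ)) * (2 * t + 2 - θ) * (2 * s + 1 - σ) :=
            mul_pos (mul_pos (by linarith) (by linarith)) (by linarith)
          linarith
      · have : 0 < (σ' + (1 - θ)) * (2 * t + 2 - θ) * (2 * s + 1 - σ) :=
          mul_pos (mul_pos (by linarith) (by linarith)) (by linarith)
        linarith
    · have : 0 < (σ + θ) * (2 * s + 1 + θ) * (2 * t + 1 - σ') :=
        mul_pos (mul_pos (by linarith) (by linarith)) (by linarith)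
      linarith
  have k3 : 2 * (α - θ) * (a + θ) + θ * (2 * s + 1 + θ) - H ≤ E - 2 * s * a := by
    have := mul_le_mul_of_nonneg_left hd h0
    linarith
  have k4 : 2 * t + 2 - θ = α * (2 * s + 2 * t + 3) + (α - θ) := by linarith
  have K0 : 0 < 2 * s + 2 * t + 3 := by linarith
  have k5 := mul_le_mul_of_nonneg_right k3 K0.le
  have k6 : 0 ≤ (α - θ) * ((2 * s + 2 * t + 3) * (2 * (a + θ) - (2 * s + 1 + θ) - 1) +
      (2 * s + 2 * t + 3 - (2 * s + 1 + θ))) :=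
    mul_nonneg (by linarith) (add_nonneg (mul_nonneg K0.le (by linarith)) (by linarith))
  rw [k4] at k2
  have : 0 < (E - 2 * s * a) * (2 * s + 2 * t + 3) := by linarith
  linarith [(mul_pos_iff_of_pos_right K0).1 this]

theorem three {i : V} {s : ℕ} {α : ℝ} (hC : C ⊆ X) (hi : i ∈ C)
    (hx : ∀ v ∈ X, v ≠ i → x v = 0 ∨ x v = 1) (h : Ok X (ad' G C) (s + α) x) (h1 : x i ≤ 1)
    (hα : 0 ≤ α) (hc : (#C : ℝ) < 8 * α * (2 * (s + α))) :
    ∃ B ⊆ insert i (On X i x), 2 * s * #B < ee G B B := by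
  obtain ⟨k1, k2⟩ := side hC hi hx h
  have c0 : (0 : ℝ) < #C := Nat.cast_pos.2 (card_pos.2 ⟨i, hi⟩)
  rcases ar3 k2 (h.1 i) h1 c0 (hc.trans_le (mul_le_mul_of_nonneg_left k1 (by linarith))) with k | k
  · exact ⟨_, subset_insert _ _, by exact_mod_cast k⟩
  · refine ⟨_, Subset.rfl, ?_⟩
    rw [ee_insert on_not, card_insert_of_notMem on_not]
    exact_mod_cast k

theorem clq {A : Finset V} {s : ℕ} (h : G.IsClique (C : Set V)) (hA : 2 * s + 1 < #(A ∩ C)) :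
    ∃ B ⊆ A, 2 * s * #B < ee G B B := by
  refine ⟨A ∩ C, inter_subset_left, ?_⟩
  have h1 := ee_clique (h.subset (coe_subset.2 (inter_subset_right (s₁ := A))))
  have h2 := Nat.mul_le_mul_right (#(A ∩ C)) (show 2 * s + 2 ≤ #(A ∩ C) from hA)
  nlinarith

theorem one {i : V} {s t : ℕ} {α : ℝ} (hC : C ⊆ X) (hi : i ∈ C)
    (hx : ∀ v ∈ X, v ≠ i → x v = 0 ∨ x v = 1) (h : Ok X (ad' G C) (s + α) x) (h1 : x i ≤ 1)
    (ha : x i ≤ α) (hs : 2 ≤ s) (ht : 2 ≤ t) {σ : ℕ}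
    (hc : (#(On X i x ∩ C) : ℝ) + x i + (σ + (1 - x i)) = #C) (b0 : #(On X i x ∩ C) ≤ 2 * s + 1)
    (b1 : σ ≤ 2 * t + 1) (hT : #C ≤ 2 * (s + t + 1)) (hα : α * (s + t + 2) = t + 1) :
    ∃ B ⊆ On X i x, 2 * s * #B < ee G B B := by
  obtain ⟨k1, k2⟩ := side hC hi hx h
  refine ⟨_, Subset.rfl, ?_⟩
  exact_mod_cast ar1 k2 (h.1 i) h1 ha (Nat.cast_le.2 dg_le) (by exact_mod_cast hs)
    (by exact_mod_cast ht) (Nat.cast_nonneg _) (Nat.cast_nonneg σ) hc (by exact_mod_cast b0)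
    (by exact_mod_cast b1) (by exact_mod_cast hT) hα k1

end PTa

open PTa in
/-- The partition theorem. -/
theorem pt : PTSt := by
  intro V G X s t hs hst hts hne he hcl
  have s2 : (2 : ℝ) ≤ s := by exact_mod_cast hs
  have st : (s : ℝ) ≤ t := by exact_mod_cast hst
  have ts : (t : ℝ) ≤ 2 * s + 1 := by exact_mod_cast hts
  have he' : 2 * ((s : ℝ) + t + 1) * #X ≤ ee G X X := by exact_mod_cast he
  have T0 : (0 : ℝ) < s + t + 2 := by linarith
  obtain ⟨α, hα⟩ : ∃ α : ℝ, α * (s + t + 2) = t + 1 := ⟨_, div_mul_cancel₀ _ T0.ne'⟩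
  have a1 : 1 / 2 ≤ α := le_of_mul_le_mul_right (by linarith) T0
  have a2 : α ≤ 2 / 3 := le_of_mul_le_mul_right (by linarith) T0
  have ha : 1 < s + α := by linarith
  have hb : 1 < t + (1 - α) := by linarith
  have S1 := start (γ := 1 - α) hne (by linarith) he'
  have S2 := start (γ := 1 - (1 - α)) hne (by linarith) he'
  rw [show (1 - α) * ((s : ℝ) + t + 1) = s + α by linarith] at S1
  rw [show (1 - (1 - α)) * ((s : ℝ) + t + 1) = t + (1 - α) by linarith] at S2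
  obtain ⟨x, x1, x2, -, x4⟩ := round ad_symm ad_le ha hb _ _ rfl S1 S2
  obtain ⟨C, hC, Cne, Ccl, CF⟩ :
      ∃ C ⊆ X, C.Nonempty ∧ G.IsClique (C : Set V) ∧ Fr X x ⊆ C := by
    rcases (Fr X x).eq_empty_or_nonempty with e | e
    · obtain ⟨w, hw⟩ := hne
      exact ⟨{w}, singleton_subset_iff.2 hw, singleton_nonempty w, by simp, e ▸ empty_subset _⟩
    · refine ⟨_, filter_subset _ _, e, fun u hu v hv huv => ?_, Subset.rfl⟩
      by_contra hn
      have h0 : ad G u v = 0 := if_neg hn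
      exact (x4 u hu v hv huv (by rw [ad_self, h0]) (by rw [ad_self, h0])).ne h0
  obtain ⟨y, y1, y2, y3, y4⟩ := round ad'_symm ad'_le ha hb _ x rfl (x1.up hC Cne) (x2.up hC Cne)
  have c1 : (1 : ℝ) ≤ #C := by exact_mod_cast Cne.card_pos
  obtain ⟨i, hi, hy⟩ : ∃ i ∈ C, ∀ v ∈ X, v ≠ i → y v = 0 ∨ y v = 1 := by
    have key : ∀ v ∈ X, v ∉ Fr X y → y v = 0 ∨ y v = 1 := fun v hv hn => by
      by_contra h
      rw [not_or] at h
      exact hn (mem_filter.2 ⟨hv, h⟩)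
    rcases (Fr X y).eq_empty_or_nonempty with e | ⟨i, hi⟩
    · obtain ⟨i, hi⟩ := Cne
      exact ⟨i, hi, fun v hv _ => key v hv (e ▸ notMem_empty v)⟩
    · have iC := CF (y3 hi)
      refine ⟨i, iC, fun v hv hvi => key v hv fun h => ?_⟩
      have vC := CF (y3 h)
      have := y4 v h i hi hvi (by rw [ad'_clique Ccl vC vC, ad'_clique Ccl vC iC])
        (by rw [ad'_clique Ccl iC iC, ad'_clique Ccl vC iC])
      rw [ad'_clique Ccl vC iC] at this
      linarith [inv_le_one_of_one_le₀ c1]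
  have hy' : ∀ v ∈ X, v ≠ i → 1 - y v = 0 ∨ 1 - y v = 1 := fun v hv h =>
    (hy v hv h).elim (fun e => Or.inr (by rw [e, sub_zero])) fun e => Or.inl (by rw [e, sub_self])
  have i0 : 0 ≤ y i := y1.1 i
  have i1 : 0 ≤ 1 - y i := y2.1 i
  have cT := hcl C hC Ccl
  have cT' : (#C : ℝ) ≤ 2 * (s + t + 1) := by exact_mod_cast cT
  have hc : (#(On X i y ∩ C) : ℝ) + y i + (#(On X i (fun v => 1 - y v) ∩ C) + (1 - y i)) = #C := by
    rw [← sum_one hC hi hy, ← sum_one hC hi hy', ← sum_add_distrib]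
    simp
  obtain ⟨A, A1, A2⟩ := three hC hi hy y1 (by linarith) (by linarith) (by nlinarith)
  obtain ⟨B, B1, B2⟩ := three hC hi hy' y2 (by linarith) (by linarith) (by nlinarith)
  have iX : ∀ z : V → ℝ, insert i (On X i z) ⊆ X := fun z => insert_subset (hC hi) on_sub
  have fin : (∃ A' ⊆ On X i y, 2 * s * #A' < ee G A' A') ∨
      ∃ B' ⊆ On X i fun v => 1 - y v, 2 * t * #B' < ee G B' B' := by
    rcases lt_or_ge (2 * s + 1) #(On X i y ∩ C) with b0 | b0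
    · exact Or.inl (clq Ccl b0)
    rcases lt_or_ge (2 * t + 1) #(On X i (fun v => 1 - y v) ∩ C) with b1 | b1
    · exact Or.inr (clq Ccl b1)
    rcases le_total (y i) α with e | e
    · exact Or.inl (one hC hi hy y1 (by linarith) e hs (by omega) hc b0 b1 cT hα)
    · exact Or.inr (one hC hi hy' y2 (by linarith) (by linarith) (by omega) hs (by linarith) b1 b0
        (by omega) (by linarith))
  rcases fin with ⟨A', h1, h2⟩ | ⟨B', h1, h2⟩
  · exact ⟨A', h1.trans on_sub, B, B1.trans (iX _), on_disj.mono h1 B1, h2, B2⟩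
  · refine ⟨A, A1.trans (iX _), B', h1.trans on_sub, ?_, A2, h2⟩
    have := on_disj (X := X) (i := i) (x := fun v => 1 - y v)
    simp only [sub_sub_cancel] at this
    exact this.symm.mono A1 h1

end Pool.Agent.Lib.MP_b07792_co.EV

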