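import Pool.Agent.Lib.MP_b07792_co.EV.PT

/-!
The partition theorem for all pairs of densities.
-/

namespace Pool.Agent.Lib.MP_b07792_co.EV

open Finset
open scoped Classical

/-- The partition theorem without an upper bound on `t`. -/
def PT2St : Prop :=
  ∀ (V : Type) (G : SimpleGraph V) (X : Finset V) (s t : ℕ), 2 ≤ s → s ≤ t →
    X.Nonempty → 2 * (s + t + 1) * #X ≤ ee G X X →
    (∀ C ⊆ X, G.IsClique (C : Set V) → #C ≤ 2 * (s + t + 1)) →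
    ∃ A ⊆ X, ∃ B ⊆ X, Disjoint A B ∧ 2 * s * #A < ee G A A ∧ 2 * t * #B < ee G B B

namespace PTb

open PTa

variable {V : Type} {X C : Finset V} {a b : ℝ} {x : V → ℝ} {G : SimpleGraph V}

theorem ind (X : Finset V) {P : (V → ℝ) → Prop} {R : Prop}
    (h : ∀ x, P x → R ∨ ∃ y, P y ∧ #(Fr X y) < #(Fr X x)) (x : V → ℝ) (hx : P x) : R := by
  induction hn : #(Fr X x) using Nat.strong_induction_on generalizing x with
  | _ n ih =>
  rcases h x hx with r | ⟨y, hy, lt⟩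
  · exact r
  · exact ih _ (hn ▸ lt) y hy rfl

theorem fr (h0 : ∀ v, 0 ≤ x v) (h1 : ∀ v, x v ≤ 1) {w : V} (hw : w ∈ Fr X x) :
    w ∈ X ∧ 0 < x w ∧ x w < 1 := by
  rw [Fr, mem_filter] at hw
  exact ⟨hw.1, (h0 w).lt_of_ne' hw.2.1, (h1 w).lt_of_ne hw.2.2⟩

theorem fr_co : Fr X (fun v => 1 - x v) = Fr X x := by
  unfold Fr
  refine filter_congr fun v _ => ⟨fun h => ⟨fun e => h.2 ?_, fun e => h.1 ?_⟩,
    fun h => ⟨fun e => h.2 ?_, fun e => h.1 ?_⟩⟩ <;> linarith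

/-- changing one fractional coordinate -/
theorem mv1 (h0 : ∀ v, 0 ≤ x v) (h1 : ∀ v, x v ≤ 1) {u : V} (hu : u ∈ Fr X x) {p : ℝ}
    (hp : 0 ≤ x u + p ∧ x u + p ≤ 1) {z : V → ℝ} (hz : ∀ w, z w = x w + if w = u then p else 0) :
    (∀ w, 0 ≤ z w) ∧ (∀ w, z w ≤ 1) ∧ Fr X z ⊆ Fr X x ∧
      (x u + p = 0 ∨ x u + p = 1 → u ∉ Fr X z) := by
  have zu : z u = x u + p := by rw [hz, if_pos rfl]
  have zw : ∀ w, w ≠ u → z w = x w := fun w a => by rw [hz, if_neg a, add_zero]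
  refine ⟨fun w => ?_, fun w => ?_, fun w hw => ?_, fun k h => ?_⟩
  · by_cases a : w = u
    · rw [a, zu]
      exact hp.1
    · rw [zw w a]
      exact h0 w
  · by_cases a : w = u
    · rw [a, zu]
      exact hp.2
    · rw [zw w a]
      exact h1 w
  · by_cases a : w = u
    · exact a ▸ hu
    rw [Fr, mem_filter] at hw ⊢
    rwa [zw w a] at hw
  · rw [Fr, mem_filter, zu] at h
    exact k.elim h.2.1 h.2.2

/-- changing two fractional coordinates -/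
theorem mv2 (h0 : ∀ v, 0 ≤ x v) (h1 : ∀ v, x v ≤ 1) {u v : V} (hu : u ∈ Fr X x) (hv : v ∈ Fr X x)
    (huv : u ≠ v) {p q : ℝ} (hp : 0 ≤ x u + p ∧ x u + p ≤ 1) (hq : 0 ≤ x v + q ∧ x v + q ≤ 1)
    {z : V → ℝ} (hz : ∀ w, z w = x w + (if w = u then p else 0) + if w = v then q else 0) :
    (∀ w, 0 ≤ z w) ∧ (∀ w, z w ≤ 1) ∧ Fr X z ⊆ Fr X x ∧
      ((x u + p = 0 ∨ x u + p = 1) ∨ (x v + q = 0 ∨ x v + q = 1) → #(Fr X z) < #(Fr X x)) := by
  have zu : z u = x u + p := by rw [hz, if_pos rfl, if_neg huv, add_zero]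
  have zv : z v = x v + q := by rw [hz, if_neg huv.symm, if_pos rfl, add_zero]
  have zw : ∀ w, w ≠ u → w ≠ v → z w = x w := fun w a b => by
    rw [hz, if_neg a, if_neg b, add_zero, add_zero]
  have z0 : ∀ w, 0 ≤ z w ∧ z w ≤ 1 := fun w => by
    by_cases a : w = u
    · rw [a, zu]
      exact hp
    by_cases b : w = v
    · rw [b, zv]
      exact hq
    rw [zw w a b]
    exact ⟨h0 w, h1 w⟩
  have sub : Fr X z ⊆ Fr X x := fun w hw => by
    by_cases a : w = u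
    · exact a ▸ hu
    by_cases b : w = v
    · exact b ▸ hv
    rw [Fr, mem_filter] at hw ⊢
    rwa [zw w a b] at hw
  refine ⟨fun w => (z0 w).1, fun w => (z0 w).2, sub, fun k5 => ?_⟩
  refine card_lt_card ((ssubset_iff_of_subset sub).2 ?_)
  rcases k5 with k | k
  · refine ⟨u, hu, fun h => ?_⟩
    rw [Fr, mem_filter, zu] at h
    exact k.elim h.2.1 h.2.2
  · refine ⟨v, hv, fun h => ?_⟩
    rw [Fr, mem_filter, zv] at h
    exact k.elim h.2.1 h.2.2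

theorem sum_mv {u v : V} (hu : u ∈ C) (hv : v ∈ C) {p q : ℝ} {z : V → ℝ}
    (hz : ∀ w, z w = x w + (if w = u then p else 0) + if w = v then q else 0) :
    ∑ w ∈ C, z w = ∑ w ∈ C, x w + p + q := by
  simp only [hz, sum_add_distrib, sum_ite_eq', hu, hv, if_true]

theorem last (hne : C.Nonempty) (hF : Fr X x ⊆ C)
    (h : ∀ u ∈ Fr X x, ∀ v ∈ Fr X x, u = v) : ∃ i ∈ C, ∀ v ∈ X, v ≠ i → x v = 0 ∨ x v = 1 := by
  have key : ∀ v ∈ X, v ∉ Fr X x → x v = 0 ∨ x v = 1 := fun v hv hn => by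
    by_contra h
    rw [not_or] at h
    exact hn (mem_filter.2 ⟨hv, h⟩)
  rcases (Fr X x).eq_empty_or_nonempty with e | ⟨i, hi⟩
  · obtain ⟨i, hi⟩ := hne
    exact ⟨i, hi, fun v hv _ => key v hv (e ▸ notMem_empty v)⟩
  · exact ⟨i, hF hi, fun v hv hvi => key v hv fun k => hvi (h v k i hi)⟩

theorem fin {i : V} {s : ℕ} {α : ℝ} (hC : C ⊆ X) (hi : i ∈ C)
    (hx : ∀ v ∈ X, v ≠ i → x v = 0 ∨ x v = 1) (h : Ok X (ad' G C) (s + α) x) (h1 : x i ≤ 1)
    (hc : ∑ v ∈ C, x v - (#C : ℝ)⁻¹ * (∑ v ∈ C, x v) ^ 2 < 2 * α * ∑ v ∈ X, x v) :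
    ∃ B ⊆ insert i (On X i x), 2 * s * #B < ee G B B ∧ (B ⊆ On X i x ∨ 0 < x i) := by
  obtain ⟨-, k2⟩ := side hC hi hx h
  have hA : On X i x ∩ X = On X i x := inter_eq_left.2 on_sub
  rw [sum_one hC hi hx, sum_one Subset.rfl (hC hi) hx, hA] at hc
  have h0 := h.1 i
  have k4 := mul_nonneg h0 (sub_nonneg.2 h1)
  by_cases k : 2 * (s : ℝ) * #(On X i x) < ee G (On X i x) (On X i x)
  · exact ⟨_, subset_insert _ _, by exact_mod_cast k, .inl Subset.rfl⟩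
  rw [not_lt] at k
  have k3 := mul_le_mul_of_nonneg_left k (sub_nonneg.2 h1)
  rcases h0.eq_or_lt with e | e
  · rw [← e] at hc k2
    linarith
  refine ⟨_, Subset.rfl, ?_, .inr e⟩
  rw [ee_insert on_not, card_insert_of_notMem on_not]
  have : 2 * (s : ℝ) * (#(On X i x) + 1) < ee G (On X i x) (On X i x) + 2 * dg G i (On X i x) :=
    lt_of_mul_lt_mul_left (by linarith) h0
  exact_mod_cast this

theorem cnt {i : V} {B : Finset V} {m : ℕ} (hC : C ⊆ X) (hi : i ∈ C)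
    (hx : ∀ v ∈ X, v ≠ i → x v = 0 ∨ x v = 1) (h0 : 0 ≤ x i) (hm : ∑ v ∈ C, x v ≤ m)
    (hB : B ⊆ insert i (On X i x)) (h : B ⊆ On X i x ∨ 0 < x i) : #(B ∩ C) ≤ m := by
  rw [sum_one hC hi hx] at hm
  rcases h with h | h
  · have : (#(On X i x ∩ C) : ℝ) ≤ m := by linarith
    exact (card_le_card (inter_subset_inter_right h)).trans (by exact_mod_cast this)
  · have h2 : (#(On X i x ∩ C) : ℝ) < m := by linarith
    have h3 : #(On X i x ∩ C) < m := by exact_mod_cast h2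
    have h4 := card_le_card (inter_subset_inter_right (u := C) hB)
    rw [insert_inter_of_mem hi] at h4
    have := card_insert_le i (On X i x ∩ C)
    omega

theorem arH {s t β ρ c N : ℝ} (hs : 2 ≤ s) (ht : s ≤ t) (hβ : β * (s + t + 2) = s + 1)
    (c0 : 0 < c) (hc : c ≤ 2 * (s + t + 1)) (r0 : 0 ≤ c - ρ) (r1 : c - ρ ≤ 2 * s + 2)
    (hN : 2 * (t + β) ≤ N) : ρ - c⁻¹ * ρ ^ 2 < 2 * β * N := by
  obtain ⟨r, hr⟩ : ∃ r, r = c - ρ := ⟨_, rfl⟩
  obtain ⟨T, hT⟩ : ∃ T, T = s + t + 1 := ⟨_, rfl⟩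
  rw [← hr] at r0 r1
  rw [← hT] at hc
  have T5 : 5 ≤ T := by linarith
  have e0 : ρ - c⁻¹ * ρ ^ 2 = r - c⁻¹ * r ^ 2 := by
    rw [hr]
    field_simp
    ring
  have e1 : r ^ 2 ≤ 2 * T * (c⁻¹ * r ^ 2) := by
    have : 1 ≤ 2 * T * c⁻¹ := by rwa [← div_eq_mul_inv, one_le_div c0]
    nlinarith [sq_nonneg r]
  have e2 : r * (2 * T - r) ≤ (2 * s + 2) * (2 * t + 1) := by
    rcases le_total r (2 * t + 1) with e | e
    · nlinarith [mul_nonneg (sub_nonneg.2 e) (sub_nonneg.2 r1)]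
    · nlinarith [sq_nonneg (T - r), mul_nonneg (sub_nonneg.2 ht) (show 0 ≤ s + 1 - t by linarith)]
  have b0 : 0 < β :=
    (mul_pos_iff_of_pos_right (by linarith : 0 < s + t + 2)).1 (by rw [hβ]; linarith)
  have e3 : β * (T + 1) = s + 1 := by rw [hT, ← hβ]; ring
  have e4 : (t + β) * (T + 1) = (t + 1) * T := by rw [add_mul, e3, hT]; ring
  have e5 : 2 * β * (2 * (t + β)) * (T + 1) ^ 2 = 4 * ((s + 1) * ((t + 1) * T)) := by
    rw [← e3, ← e4]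
    ring
  refine lt_of_lt_of_le ?_ (mul_le_mul_of_nonneg_left hN (by linarith))
  have D0 : 0 < (T + 1) ^ 2 := by positivity
  refine lt_of_mul_lt_mul_right ?_ D0.le
  rw [e0, e5]
  refine lt_of_mul_lt_mul_left ?_ (show 0 ≤ 2 * T by linarith)
  have e6 : 2 * T * (r - c⁻¹ * r ^ 2) ≤ (2 * s + 2) * (2 * t + 2) := by nlinarith
  have e7 : (T + 1) ^ 2 < 2 * T ^ 2 := by nlinarith
  have e8 := mul_le_mul_of_nonneg_right e6 D0.le
  have e9 := mul_lt_mul_of_pos_left e7 (show 0 < (2 * s + 2) * (2 * t + 2) by nlinarith)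
  nlinarith

/-- the state where the mass on the clique is the integer `m` -/
theorem star {s t m : ℕ} {β : ℝ} (hC : C ⊆ X) (Ccl : G.IsClique (C : Set V)) (hs : 2 ≤ s)
    (ht : s ≤ t) (hβ : β * (s + t + 2) = s + 1) (hc : #C ≤ 2 * (s + t + 1))
    (hm : m + (2 * s + 2) = #C) (y : V → ℝ)
    (hy : Ok X (ad' G C) (t + β) y ∧ (∀ v, y v ≤ 1) ∧ Fr X y ⊆ C ∧ ∑ v ∈ C, y v = m) :
    ∃ B ⊆ X, 2 * t * #B < ee G B B ∧ #(B ∩ C) ≤ m := by
  have s2 : (2 : ℝ) ≤ s := by exact_mod_cast hs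
  have st : (s : ℝ) ≤ t := by exact_mod_cast ht
  have b0 : 0 < β :=
    (mul_pos_iff_of_pos_right (by linarith : (0 : ℝ) < s + t + 2)).1 (by rw [hβ]; linarith)
  have Cne : C.Nonempty := card_pos.1 (by omega)
  have c1 : (1 : ℝ) ≤ #C := by exact_mod_cast Cne.card_pos
  have hm' : (m : ℝ) + (2 * s + 2) = #C := by exact_mod_cast hm
  refine ind X (P := fun y => Ok X (ad' G C) (t + β) y ∧ (∀ v, y v ≤ 1) ∧ Fr X y ⊆ C ∧
    ∑ v ∈ C, y v = m) (fun x ⟨x1, x2, x3, x4⟩ => ?_) y hy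
  by_cases H : ∀ u ∈ Fr X x, ∀ v ∈ Fr X x, u = v
  · obtain ⟨i, hi, hx⟩ := last Cne x3 H
    obtain ⟨B, B1, B2, B3⟩ := fin hC hi hx x1 (x2 i)
      (arH s2 st hβ (by linarith) (by exact_mod_cast hc) (by linarith) (by linarith)
        (x1.big ad'_le))
    exact .inl ⟨B, B1.trans (insert_subset (hC hi) on_sub), B2,
      cnt hC hi hx (x1.1 i) x4.le B1 B3⟩
  push Not at H
  obtain ⟨u, hu, v, hv, huv⟩ := H
  obtain ⟨uX, u0, u1⟩ := fr x1.1 x2 hu
  obtain ⟨vX, v0, v1⟩ := fr x1.1 x2 hv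
  have uC := x3 hu
  have vC := x3 hv
  obtain ⟨c, d, hcd⟩ := x1.step ad'_symm ad'_le (by linarith) uX vX
    (by rw [ad'_clique Ccl uC uC, ad'_clique Ccl uC vC])
    (by rw [ad'_clique Ccl vC vC, ad'_clique Ccl uC vC])
    (by rw [ad'_clique Ccl uC vC]; linarith [inv_le_one_of_one_le₀ c1])
  obtain ⟨p, k1, k3, k4, k5⟩ : ∃ p : ℝ, 0 ≤ c * p + d * -p ∧ (0 ≤ x u + p ∧ x u + p ≤ 1) ∧
      (0 ≤ x v + -p ∧ x v + -p ≤ 1) ∧
      ((x u + p = 0 ∨ x u + p = 1) ∨ (x v + -p = 0 ∨ x v + -p = 1)) := by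
    rcases le_total d c with e | e
    · rcases le_total (1 - x u) (x v) with f | f
      · exact ⟨1 - x u, by nlinarith, ⟨by linarith, by linarith⟩, ⟨by linarith, by linarith⟩,
          .inl (.inr (by ring))⟩
      · exact ⟨x v, by nlinarith, ⟨by linarith, by linarith⟩, ⟨by linarith, by linarith⟩,
          .inr (.inl (by ring))⟩
    · rcases le_total (1 - x v) (x u) with f | f
      · exact ⟨x v - 1, by nlinarith, ⟨by linarith, by linarith⟩, ⟨by linarith, by linarith⟩,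
          .inr (.inr (by ring))⟩
      · exact ⟨-x u, by nlinarith, ⟨by linarith, by linarith⟩, ⟨by linarith, by linarith⟩,
          .inl (.inl (by ring))⟩
  obtain ⟨z, hz⟩ : ∃ z : V → ℝ, ∀ w,
      z w = x w + (if w = u then p else 0) + if w = v then -p else 0 := ⟨_, fun _ => rfl⟩
  obtain ⟨z0, z1, z2, z3⟩ := mv2 x1.1 x2 hu hv huv k3 k4 hz
  refine .inr ⟨z, ⟨hcd p (-p) z k1 (by linarith [k3.1]) (by linarith [k4.1]) hz z0, z1,
    z2.trans x3, ?_⟩, z3 k5⟩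
  rw [sum_mv uC vC hz, x4]
  ring

theorem ad'_one (i : V) : ad' G {i} = ad G := by
  funext u v
  unfold ad'
  split_ifs with h1 h2 h3
  · simp
  · exact absurd ((mem_singleton.1 h1).trans (mem_singleton.1 h2).symm) h3
  all_goals simp

/-- the case of small mass on the clique -/
theorem small {s t m : ℕ} {β : ℝ} (hC : C ⊆ X) (Ccl : G.IsClique (C : Set V)) (hs : 2 ≤ s)
    (ht : s ≤ t) (hβ : β * (s + t + 2) = s + 1) (hc : #C ≤ 2 * (s + t + 1))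
    (hm : m + (2 * s + 2) = #C) (y : V → ℝ)
    (hy : Ok X (ad G) (t + β) y ∧ (∀ v, y v ≤ 1) ∧ Fr X y ⊆ C ∧ ∑ v ∈ C, y v ≤ m) :
    ∃ B ⊆ X, 2 * t * #B < ee G B B ∧ #(B ∩ C) ≤ m := by
  have s2 : (2 : ℝ) ≤ s := by exact_mod_cast hs
  have st : (s : ℝ) ≤ t := by exact_mod_cast ht
  have b0 : 0 < β :=
    (mul_pos_iff_of_pos_right (by linarith : (0 : ℝ) < s + t + 2)).1 (by rw [hβ]; linarith)
  have Cne : C.Nonempty := card_pos.1 (by omega)
  refine ind X (P := fun y => Ok X (ad G) (t + β) y ∧ (∀ v, y v ≤ 1) ∧ Fr X y ⊆ C ∧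
    ∑ v ∈ C, y v ≤ m) (fun x ⟨x1, x2, x3, x4⟩ => ?_) y hy
  rcases (Fr X x).eq_empty_or_nonempty with e | ⟨u, hu⟩
  · obtain ⟨i, hi, hx⟩ := last Cne x3 (fun u hu => absurd (e ▸ hu) (notMem_empty u))
    have i0 : x i = 0 ∨ x i = 1 := by
      by_contra h
      rw [not_or] at h
      exact notMem_empty i (e ▸ mem_filter.2 ⟨hC hi, h⟩)
    obtain ⟨B, B1, B2, B3⟩ := fin (C := {i}) (G := G) (singleton_subset_iff.2 (hC hi))
      (mem_singleton_self i) hx (by rwa [ad'_one]) (x2 i) (by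
        have := mul_pos b0 x1.2.1
        rcases i0 with h | h <;> simp [h] <;> linarith)
    exact .inl ⟨B, B1.trans (insert_subset (hC hi) on_sub), B2, cnt hC hi hx (x1.1 i) x4 B1 B3⟩
  obtain ⟨uX, u0, u1⟩ := fr x1.1 x2 hu
  have uC := x3 hu
  obtain ⟨c, d, hcd⟩ := x1.step ad_symm ad_le (by linarith) uX uX rfl rfl (by rw [ad_self])
  obtain ⟨p, k1, k3, k4, k5⟩ : ∃ p : ℝ, 0 ≤ c * p ∧ (0 ≤ x u + p ∧ x u + p ≤ 1) ∧
      ∑ v ∈ C, x v + p ≤ m ∧ ((x u + p = 0 ∨ x u + p = 1) ∨ ∑ v ∈ C, x v + p = m) := by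
    rcases le_total c 0 with e | e
    · exact ⟨-x u, by nlinarith, ⟨by linarith, by linarith⟩, by linarith, .inl (.inl (by ring))⟩
    · rcases le_total (1 - x u) (m - ∑ v ∈ C, x v) with f | f
      · exact ⟨1 - x u, by nlinarith, ⟨by linarith, by linarith⟩, by linarith,
          .inl (.inr (by ring))⟩
      · exact ⟨m - ∑ v ∈ C, x v, by nlinarith, ⟨by linarith, by linarith⟩, by linarith,
          .inr (by ring)⟩
  obtain ⟨z, hz⟩ : ∃ z : V → ℝ, ∀ w, z w = x w + if w = u then p else 0 := ⟨_, fun _ => rfl⟩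
  have hz' : ∀ w, z w = x w + (if w = u then p else 0) + if w = u then 0 else 0 := fun w => by
    rw [hz, ite_self, add_zero]
  obtain ⟨z0, z1, z2, z3⟩ := mv1 x1.1 x2 hu k3 hz
  have zo := hcd p 0 z (by linarith) (by linarith [k3.1]) (by norm_num) hz' z0
  have zs : ∑ v ∈ C, z v = ∑ v ∈ C, x v + p := by rw [sum_mv uC uC hz', add_zero]
  rcases k5 with k | k
  · exact .inr ⟨z, ⟨zo, z1, z2.trans x3, zs ▸ k4⟩,
      card_lt_card ((ssubset_iff_of_subset z2).2 ⟨u, hu, z3 k⟩)⟩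
  · exact .inl (star hC Ccl hs ht hβ hc hm z ⟨zo.up hC Cne, z1, z2.trans x3, zs.trans k⟩)

theorem both {s t m : ℕ} (hC : C ⊆ X) (Ccl : G.IsClique (C : Set V))
    (hm : m + (2 * s + 2) = #C) (h : ∃ B ⊆ X, 2 * t * #B < ee G B B ∧ #(B ∩ C) ≤ m) :
    ∃ A ⊆ X, ∃ B ⊆ X, Disjoint A B ∧ 2 * s * #A < ee G A A ∧ 2 * t * #B < ee G B B := by
  obtain ⟨B, B1, B2, B3⟩ := h
  have h1 := card_sdiff_add_card_inter C B
  rw [inter_comm] at h1
  obtain ⟨A, A1, A2⟩ := clq (A := C \ B) (s := s) Ccl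
    (by rw [inter_eq_left.2 sdiff_subset]; omega)
  exact ⟨A, (A1.trans sdiff_subset).trans hC, B, B1, sdiff_disjoint.mono_left A1, A2, B2⟩

theorem sum_co (C : Finset V) (x : V → ℝ) : ∑ v ∈ C, (1 - x v) = #C - ∑ v ∈ C, x v := by
  rw [sum_sub_distrib]
  simp

/-- the end state with at most one fractional vertex -/
theorem final {s t : ℕ} {α : ℝ} {i : V} (hC : C ⊆ X) (Ccl : G.IsClique (C : Set V)) (hs : 2 ≤ s)
    (ht : s ≤ t) (hα : α * (s + t + 2) = t + 1) (cT : #C ≤ 2 * (s + t + 1)) (hi : i ∈ C)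
    {y : V → ℝ} (hy : ∀ v ∈ X, v ≠ i → y v = 0 ∨ y v = 1) (y1 : Ok X (ad' G C) (s + α) y)
    (y2 : Ok X (ad' G C) (t + (1 - α)) fun v => 1 - y v) (y4 : ∑ v ∈ C, y v ≤ 2 * s + 2) :
    ∃ A ⊆ X, ∃ B ⊆ X, Disjoint A B ∧ 2 * s * #A < ee G A A ∧ 2 * t * #B < ee G B B := by
  have s2 : (2 : ℝ) ≤ s := by exact_mod_cast hs
  have st : (s : ℝ) ≤ t := by exact_mod_cast ht
  have T0 : (0 : ℝ) < s + t + 2 := by linarith
  have a1 : 1 / 2 ≤ α := le_of_mul_le_mul_right (by linarith) T0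
  have c0 : (0 : ℝ) < #C := by exact_mod_cast card_pos.2 ⟨i, hi⟩
  have hy' : ∀ v ∈ X, v ≠ i → 1 - y v = 0 ∨ 1 - y v = 1 := fun v hv h =>
    (hy v hv h).elim (fun e => Or.inr (by rw [e, sub_zero])) fun e => Or.inl (by rw [e, sub_self])
  have i0 : 0 ≤ y i := y1.1 i
  have i1 : 0 ≤ 1 - y i := y2.1 i
  have hc : (#(On X i y ∩ C) : ℝ) + y i + (#(On X i (fun v => 1 - y v) ∩ C) + (1 - y i)) = #C := by
    rw [← sum_one hC hi hy, ← sum_one hC hi hy', ← sum_add_distrib]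
    simp
  have r0 : 0 ≤ ∑ v ∈ C, y v := sum_nonneg fun v _ => y1.1 v
  have r1 : ∑ v ∈ C, y v ≤ ∑ v ∈ X, y v := sum_le_sum_of_subset_of_nonneg hC fun v _ _ => y1.1 v
  obtain ⟨A, A1, A2, -⟩ := fin hC hi hy y1 (by linarith) (by
    have n0 := y1.2.1
    rcases r0.eq_or_lt with e | e
    · rw [← e]
      nlinarith
    · have : 0 < (#C : ℝ)⁻¹ * (∑ v ∈ C, y v) ^ 2 := by positivity
      nlinarith)
  obtain ⟨B, B1, B2, -⟩ := fin hC hi hy' y2 (by linarith)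
    (arH s2 st (by linarith) c0 (by exact_mod_cast cT) (by rw [sum_co]; linarith)
      (by rw [sum_co]; linarith) (y2.big ad'_le))
  have iX : ∀ z : V → ℝ, insert i (On X i z) ⊆ X := fun z => insert_subset (hC hi) on_sub
  have fin : (∃ A' ⊆ On X i y, 2 * s * #A' < ee G A' A') ∨
      ∃ B' ⊆ On X i fun v => 1 - y v, 2 * t * #B' < ee G B' B' := by
    rcases lt_or_ge (2 * s + 1) #(On X i y ∩ C) with b0 | b0
    · exact Or.inl (clq Ccl b0)
    rcases lt_or_ge (2 * t + 1) #(On X i (fun v => 1 - y v) ∩ C) with b1 | b1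
    · exact Or.inr (clq Ccl b1)
    rcases le_total (y i) α with e | e
    · exact Or.inl (one hC hi hy y1 (by linarith) e hs (by omega) hc b0 b1 cT hα)
    · exact Or.inr (one hC hi hy' y2 (by linarith) (by linarith) (by omega) hs (by linarith) b1 b0
        (by omega) (by linarith))
  rcases fin with ⟨A', h1, h2⟩ | ⟨B', h1, h2⟩
  · exact ⟨A', h1.trans on_sub, B, B1.trans (iX _), on_disj.mono h1 B1, h2, B2⟩
  · refine ⟨A, A1.trans (iX _), B', h1.trans on_sub, ?_, A2, h2⟩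
    have := on_disj (X := X) (i := i) (x := fun v => 1 - y v)
    simp only [sub_sub_cancel] at this
    exact this.symm.mono A1 h1

theorem sum_le_card (h1 : ∀ v, x v ≤ 1) : ∑ v ∈ C, x v ≤ #C := by
  simpa using sum_le_card_nsmul C x 1 fun v _ => h1 v

/-- the case of large mass on the clique -/
theorem large {s t : ℕ} {α : ℝ} (hC : C ⊆ X) (Cne : C.Nonempty) (Ccl : G.IsClique (C : Set V))
    (hs : 2 ≤ s) (ht : s ≤ t) (hα : α * (s + t + 2) = t + 1) (cT : #C ≤ 2 * (s + t + 1))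
    (y : V → ℝ) (hy : Ok X (ad' G C) (s + α) y ∧
      Ok X (ad' G C) (t + (1 - α)) (fun v => 1 - y v) ∧ Fr X y ⊆ C ∧ ∑ v ∈ C, y v ≤ 2 * s + 2) :
    ∃ A ⊆ X, ∃ B ⊆ X, Disjoint A B ∧ 2 * s * #A < ee G A A ∧ 2 * t * #B < ee G B B := by
  have s2 : (2 : ℝ) ≤ s := by exact_mod_cast hs
  have st : (s : ℝ) ≤ t := by exact_mod_cast ht
  have T0 : (0 : ℝ) < s + t + 2 := by linarith
  have a1 : 1 / 2 ≤ α := le_of_mul_le_mul_right (by linarith) T0
  have a2 : α ≤ 1 := le_of_mul_le_mul_right (by linarith) T0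
  have c1 : (1 : ℝ) ≤ #C := by exact_mod_cast Cne.card_pos
  refine ind X (P := fun y => Ok X (ad' G C) (s + α) y ∧
    Ok X (ad' G C) (t + (1 - α)) (fun v => 1 - y v) ∧ Fr X y ⊆ C ∧ ∑ v ∈ C, y v ≤ 2 * s + 2)
    (fun x ⟨x1, x2, x3, x4⟩ => ?_) y hy
  by_cases H : ∀ u ∈ Fr X x, ∀ v ∈ Fr X x, u = v
  · obtain ⟨i, hi, hx⟩ := last Cne x3 H
    exact .inl (final hC Ccl hs ht hα cT hi hx x1 x2 x4)
  push Not at H
  obtain ⟨u, hu, v, hv, huv⟩ := H
  have x5 : ∀ v, x v ≤ 1 := fun v => sub_nonneg.1 (x2.1 v)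
  obtain ⟨uX, u0, u1⟩ := fr x1.1 x5 hu
  obtain ⟨vX, v0, v1⟩ := fr x1.1 x5 hv
  have uC := x3 hu
  have vC := x3 hv
  have e1 : ad' G C u u = ad' G C u v := by rw [ad'_clique Ccl uC uC, ad'_clique Ccl uC vC]
  have e2 : ad' G C v v = ad' G C u v := by rw [ad'_clique Ccl vC vC, ad'_clique Ccl uC vC]
  have e3 : 0 ≤ ad' G C u v := by
    rw [ad'_clique Ccl uC vC]
    linarith [inv_le_one_of_one_le₀ c1]
  obtain ⟨c, d, hc⟩ := x1.step ad'_symm ad'_le (by linarith) uX vX e1 e2 e3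
  obtain ⟨c', d', hc'⟩ := x2.step ad'_symm ad'_le (by linarith) uX vX e1 e2 e3
  obtain ⟨p, q, k1, k2, k3, k4, k5, k6⟩ : ∃ p q, 0 ≤ c * p + d * q ∧ 0 ≤ -c' * p + -d' * q ∧
      (0 ≤ x u + p ∧ x u + p ≤ 1) ∧ (0 ≤ x v + q ∧ x v + q ≤ 1) ∧
      ∑ w ∈ C, x w + p + q ≤ 2 * s + 2 ∧
      (((x u + p = 0 ∨ x u + p = 1) ∨ (x v + q = 0 ∨ x v + q = 1)) ∨
        ∑ w ∈ C, x w + p + q = 2 * s + 2) := by
    obtain ⟨p, q, k1, k2, k3, k4, k5⟩ := move c d (-c') (-d') u0 u1 v0 v1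
    rcases le_or_gt (∑ w ∈ C, x w + p + q) (2 * s + 2) with e | e
    · exact ⟨p, q, k1, k2, k3, k4, e, .inl k5⟩
    obtain ⟨l, hl⟩ : ∃ l : ℝ, l * (p + q) = 2 * s + 2 - ∑ w ∈ C, x w :=
      ⟨_, div_mul_cancel₀ _ (by linarith : 0 < p + q).ne'⟩
    have pq : 0 < p + q := by linarith
    have l0 : 0 ≤ l := le_of_mul_le_mul_right (by linarith) pq
    have l1 : l ≤ 1 := le_of_mul_le_mul_right (by linarith) pq
    have m1 := mul_nonneg l0 k1
    have m2 := mul_nonneg l0 k2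
    have l2 := sub_nonneg.2 l1
    refine ⟨l * p, l * q, by linarith, by linarith, ⟨?_, ?_⟩, ⟨?_, ?_⟩, by linarith,
      .inr (by linarith)⟩
    · nlinarith [mul_nonneg l0 k3.1, mul_nonneg l2 u0.le]
    · nlinarith [mul_nonneg l0 (sub_nonneg.2 k3.2), mul_nonneg l2 (sub_nonneg.2 u1.le)]
    · nlinarith [mul_nonneg l0 k4.1, mul_nonneg l2 v0.le]
    · nlinarith [mul_nonneg l0 (sub_nonneg.2 k4.2), mul_nonneg l2 (sub_nonneg.2 v1.le)]
  obtain ⟨z, hz⟩ : ∃ z : V → ℝ, ∀ w,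
      z w = x w + (if w = u then p else 0) + if w = v then q else 0 := ⟨_, fun _ => rfl⟩
  obtain ⟨z0, z1, z2, z3⟩ := mv2 x1.1 x5 hu hv huv k3 k4 hz
  have zs := sum_mv uC vC hz
  have o2 : Ok X (ad' G C) (t + (1 - α)) fun v => 1 - z v :=
    hc' (-p) (-q) _ (by linarith) (by linarith [k3.2]) (by linarith [k4.2])
      (fun w => by rw [hz]; split_ifs <;> ring) fun w => sub_nonneg.2 (z1 w)
  rcases k6 with k | k
  · exact .inr ⟨z, ⟨hc p q z k1 (by linarith [k3.1]) (by linarith [k4.1]) hz z0, o2,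
      z2.trans x3, zs ▸ k5⟩, z3 k⟩
  have g1 : 2 * s + 2 ≤ #C := by
    have := sum_le_card (C := C) z1
    rw [zs, k] at this
    exact_mod_cast this
  obtain ⟨m, hm⟩ : ∃ m, m + (2 * s + 2) = #C := ⟨#C - (2 * s + 2), by omega⟩
  have hm' : (m : ℝ) + (2 * s + 2) = #C := by exact_mod_cast hm
  refine .inl (both hC Ccl hm (star (β := 1 - α) hC Ccl hs ht (by linarith) cT hm _
    ⟨o2, fun w => by linarith [z0 w], fr_co.trans_subset (z2.trans x3), ?_⟩))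
  rw [sum_co, zs, k]
  linarith

end PTb

open PTa PTb in
/-- The partition theorem for all `2 ≤ s ≤ t`. -/
theorem pt2 : PT2St := by
  intro V G X s t hs hst hne he hcl
  have s2 : (2 : ℝ) ≤ s := by exact_mod_cast hs
  have st : (s : ℝ) ≤ t := by exact_mod_cast hst
  have he' : 2 * ((s : ℝ) + t + 1) * #X ≤ ee G X X := by exact_mod_cast he
  have T0 : (0 : ℝ) < s + t + 2 := by linarith
  obtain ⟨α, hα⟩ : ∃ α : ℝ, α * (s + t + 2) = t + 1 := ⟨_, div_mul_cancel₀ _ T0.ne'⟩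
  have a1 : 1 / 2 ≤ α := le_of_mul_le_mul_right (by linarith) T0
  have a2 : α < 1 := lt_of_mul_lt_mul_right (by linarith) T0.le
  have ha : 1 < s + α := by linarith
  have hb : 1 < t + (1 - α) := by linarith
  have S1 := start (γ := 1 - α) hne (by linarith) he'
  have S2 := start (γ := 1 - (1 - α)) hne (by linarith) he'
  rw [show (1 - α) * ((s : ℝ) + t + 1) = s + α by linarith] at S1
  rw [show (1 - (1 - α)) * ((s : ℝ) + t + 1) = t + (1 - α) by linarith] at S2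
  obtain ⟨x, x1, x2, -, x4⟩ := round ad_symm ad_le ha hb _ _ rfl S1 S2
  obtain ⟨C, hC, Cne, Ccl, CF⟩ :
      ∃ C ⊆ X, C.Nonempty ∧ G.IsClique (C : Set V) ∧ Fr X x ⊆ C := by
    rcases (Fr X x).eq_empty_or_nonempty with e | e
    · obtain ⟨w, hw⟩ := hne
      exact ⟨{w}, singleton_subset_iff.2 hw, singleton_nonempty w, by simp, e ▸ empty_subset _⟩
    · refine ⟨_, filter_subset _ _, e, fun u hu v hv huv => ?_, Subset.rfl⟩
      by_contra hn
      have h0 : ad G u v = 0 := if_neg hn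
      exact (x4 u hu v hv huv (by rw [ad_self, h0]) (by rw [ad_self, h0])).ne h0
  have cT := hcl C hC Ccl
  rcases le_total (∑ v ∈ C, x v) (2 * s + 2) with e | e
  · exact large hC Cne Ccl hs hst hα cT x ⟨x1.up hC Cne, x2.up hC Cne, CF, e⟩
  have g1 : 2 * s + 2 ≤ #C := by
    exact_mod_cast e.trans (sum_le_card fun v => sub_nonneg.1 (x2.1 v))
  obtain ⟨m, hm⟩ : ∃ m, m + (2 * s + 2) = #C := ⟨#C - (2 * s + 2), by omega⟩
  have hm' : (m : ℝ) + (2 * s + 2) = #C := by exact_mod_cast hm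
  refine both hC Ccl hm (small (β := 1 - α) hC Ccl hs hst (by linarith) cT hm _
    ⟨x2, fun w => by linarith [x1.1 w], fr_co.trans_subset CF, ?_⟩)
  rw [sum_co]
  linarith

end Pool.Agent.Lib.MP_b07792_co.EV
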