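import Pool.Agent.Lib.MP_b07792_co.EV.Gen
import Pool.Agent.Lib.MP_b07792_co.EV.PT2

/-!
Splitting off a shortest cycle of length at least six; the unequal pair.
-/

namespace Pool.Agent.Lib.MP_b07792_co.EV

open Finset
open scoped Classical

variable {V : Type} {G : SimpleGraph V} {B K Q Q' X Y : Finset V} {l t : ℕ}
  {D : Finset V → Prop}

theorem step0g (hD : DiracSt) (hO : OreSt) (hl : 2 ≤ l) (ht : 1 ≤ t)
    (hn : 2 * (t + l) + 2 ≤ #X) (he : 2 * (t + l) * #X ≤ ee G X X)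
    (co : ∀ A ⊆ X, ∀ B ⊆ X, Lg G (2 * l) A → D B → ¬Disjoint A B)
    (cl : ∀ K : Finset V, G.IsClique (K : Set V) → 2 * t + 2 ≤ #K → D K)
    (hK : K ⊆ X) (h : G.IsClique (K : Set V)) (hc' : #K = 2 * (t + l) + 1) : False := by
  by_cases c : ∃ w ∈ X \ K, 2 ≤ dg G w K
  · obtain ⟨w, hw, c⟩ := c
    rw [mem_sdiff] at hw
    obtain ⟨a, ha, b, hb, e, h3, h4⟩ := two_nbr c
    obtain ⟨Q, q1, q2, q3⟩ := exists_subsuperset_card_eq (s := {a, b}) (t := K) (n := 2 * l - 1)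
      (by simp [insert_subset_iff, ha, hb]) (by rw [card_pair e]; omega) (by omega)
    refine co _ (insert_subset hw.1 (q2.trans hK)) _ (sdiff_subset.trans hK)
      (hc hO hl (nc_clique hl (h.subset (coe_subset.2 q2)) (by omega))
      (fun e => hw.2 (q2 e)) (nbr_two (q1 (by simp)) (q1 (by simp)) e h3 h4))
      (cl (K \ Q) (h.subset (coe_subset.2 sdiff_subset))
        (by rw [card_sdiff_of_subset q2]; omega)) ?_
    rw [disjoint_insert_left]
    exact ⟨fun e => hw.2 (mem_sdiff.1 e).1, disjoint_sdiff⟩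
  · push Not at c
    have e1 := ee_union (G := G) (sdiff_disjoint : Disjoint (X \ K) K)
    have e2 := ee_le (G := G) (A := X \ K) (B := K) (k := 1) fun a ha => by
      have := c a ha; omega
    have e3 := ee_clique h
    have e4 := card_sdiff_add_card_eq_card hK
    rw [sdiff_union_of_subset hK] at e1
    refine co _ sdiff_subset _ hK
      (eg hD hl (card_pos.1 (by omega)) (j := 2 * l - 1) (by omega) ?_)
      (cl K h (by omega)) sdiff_disjoint
    have e5 := Nat.mul_le_mul_right #(X \ K) (show 2 * l - 1 + 2 ≤ 2 * (t + l) by omega)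
    rw [← e4, hc'] at he
    rw [hc'] at e3
    have : 0 < 2 * l - 1 := by omega
    nlinarith

theorem out2 (hl : 3 ≤ l) (h : NC G l Q) (hQ : Q ⊆ X) (ht : l ≤ t + 1)
    (he : 2 * (t + l) * #X ≤ ee G X X)
    (h2 : #X ≠ 2 * (t + l) + 2 → ∀ u ∈ X, ∀ v ∈ X, G.Adj u v → t + l ≤ #(cn G u v X)) :
    ∃ x ∈ X \ Q, 2 ≤ dg G x Q := by
  have c := h.1
  by_contra n
  push Not at n
  by_cases d : #X = 2 * (t + l) + 2
  · have e1 := ee_sdiff (G := G) hQ
    have e2 := ee_le (G := G) (A := X \ Q) (B := Q) (k := 1) fun a ha => by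
      have := n a ha; omega
    have e3 := ee_self_le G Q
    have e4 := ee_self_le G (X \ Q)
    have e5 := card_sdiff_add_card_eq_card hQ
    rw [ee_comm G Q (X \ Q)] at e1
    obtain ⟨q, hq⟩ : ∃ q, #Q = q + 5 := ⟨#Q - 5, by omega⟩
    obtain ⟨p, hp⟩ : ∃ p, #(X \ Q) = p + 1 := ⟨#(X \ Q) - 1, by omega⟩
    have e6 : 2 * (t + l) = p + q + 4 := by omega
    rw [← e5, e6, hp, hq] at he
    rw [hq] at e3
    rw [hp] at e4 e2
    nlinarith [Nat.zero_le (p * q)]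
  · obtain ⟨u, hu, v, hv, e⟩ := h.edge (by omega)
    have e1 := h2 d u (hQ hu) v (hQ hv) e
    have e2 : cn G u v X ⊆ (Q.erase u).erase v := fun w hw => by
      rw [mem_cn] at hw
      refine mem_erase.2 ⟨hw.2.2.ne', mem_erase.2 ⟨hw.2.1.ne', by_contra fun c => ?_⟩⟩
      have := n w (mem_sdiff.2 ⟨hw.1, c⟩)
      have := nbr_two hu hv e.ne hw.2.1.symm hw.2.2.symm
      omega
    have := card_le_card e2
    have := card_erase_add_one hu
    have := card_erase_add_one (mem_erase.2 ⟨e.ne', hv⟩)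
    omega

theorem fiveg (hO : OreSt) (hl : 3 ≤ l) (h : Bad G l X Q Q') (ht : l ≤ t + 1)
    (he : 2 * (t + l) * #X ≤ ee G X X) (h1 : ∀ Y ⊆ X, ee G Y Y ≤ 2 * (t + l) * #Y)
    (h2 : #X ≠ 2 * (t + l) + 2 → ∀ u ∈ X, ∀ v ∈ X, G.Adj u v → t + l ≤ #(cn G u v X))
    (co : ∀ A ⊆ X, ∀ B ⊆ X, Lg G (2 * l) A → D B → ¬Disjoint A B)
    (dn : ∀ Y ⊆ X, 2 * t * #Y < ee G Y Y → D Y) (hB : B ⊆ X \ (Q ∪ Q'))
    (hB' : 2 * t * #B < ee G B B)
    (h5 : ee G (Q \ Q') (X \ (Q ∪ Q')) ≤ ee G (Q' \ Q) (X \ (Q ∪ Q'))) : False := by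
  have hl' : 2 ≤ l := by omega
  set U := X \ (Q ∪ Q') with hU
  have mU : ∀ {w}, w ∈ U → w ∈ X ∧ w ∉ Q ∧ w ∉ Q' := fun hw => by
    simpa only [hU, mem_sdiff, mem_union, not_or] using hw
  have hBX : B ⊆ X := hB.trans sdiff_subset
  have w1 : ∀ S ⊆ X, NC G l S → Disjoint S U → ∀ w ∈ U \ B, dg G w S ≤ 1 := fun S s1 s2 s3 w hw => by
    by_contra n
    rw [mem_sdiff] at hw
    exact co _ (insert_subset (mU hw.1).1 s1) B hBX
      (hc hO hl' s2 (disjoint_right.1 s3 hw.1) (by omega)) (dn B hBX hB')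
      (disjoint_insert_left.2 ⟨hw.2, s3.mono_right hB⟩)
  have w2 : ee G (U \ B) (X \ (U \ B)) ≤ ee G (U \ B) B + 2 * #(U \ B) := by
    have : ∑ w ∈ U \ B, dg G w (X \ (U \ B)) ≤ ∑ w ∈ U \ B, (dg G w B + 2) :=
      sum_le_sum fun w hw => by
        have d1 := dg_le_add (G := G) (w := w) (A := X \ (U \ B)) (C := B) (D := Q ∪ Q')
          fun x hx => by
            simp only [hU, mem_sdiff, mem_union] at hx ⊢
            tauto
        have d2 := dg_le_add (G := G) (w := w) (Subset.rfl : Q ∪ Q' ⊆ _)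
        have := w1 Q h.1 h.2.2.1 (disjoint_right.2 fun x hx => (mU hx).2.1) w hw
        have := w1 Q' h.2.1 h.2.2.2.1 (disjoint_right.2 fun x hx => (mU hx).2.2) w hw
        omega
    rwa [sum_add_distrib, sum_const, smul_eq_mul, mul_comm] at this
  have s1 : U \ B ⊆ X := sdiff_subset.trans sdiff_subset
  have w3 : 2 * t * #U < ee G U U := by
    have e1 := ee_sdiff (G := G) s1
    have e2 := h1 (X \ (U \ B)) sdiff_subset
    have e3 := card_sdiff_add_card_eq_card s1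
    have e4 := ee_sdiff (G := G) hB
    have e5 := card_sdiff_add_card_eq_card hB
    have e6 := Nat.mul_le_mul_right #(U \ B) (show t + 2 ≤ t + l by omega)
    rw [ee_comm G B (U \ B)] at e4
    rw [← e3] at he
    rw [← e5]
    nlinarith
  have d : Disjoint (Q' \ Q) U := disjoint_right.2 fun x hx c => (mU hx).2.2 (mem_sdiff.1 c).1
  have s2 : X \ Q = Q' \ Q ∪ U := by
    ext x
    have := @h.2.1 x
    simp only [hU, mem_sdiff, mem_union]
    tauto
  have w4 := ee_union (G := G) d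
  have w5 := card_union_of_disjoint d
  have w6 := ee_union_right (G := G) (C := Q) d
  rw [← s2] at w4 w5 w6
  have w7 : ee G Q (Q' \ Q) ≤ 1 * #(Q' \ Q) := by
    rw [ee_comm]
    exact ee_le fun a ha => h.one hO hl' (mem_sdiff.1 ha).1 (mem_sdiff.1 ha).2
  have w8 : ee G Q U ≤ ee G (Q \ Q') U + 1 * #U := by
    have e1 := ee_union_left (G := G) (C := U) (disjoint_sdiff_inter Q Q')
    have e2 := ee_le (G := G) (A := U) (B := Q ∩ Q') fun a _ => dg_le.trans h.2.2.2.2.1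
    rw [sdiff_union_inter, ee_comm G (Q ∩ Q')] at e1
    omega
  have w9 := ee_sdiff (G := G) h.1
  have c1 := ee_self_le G Q
  have c2 := card_sdiff_add_card_eq_card h.1
  have c3 := h.2.2.1.1
  have c4 : #(Q' \ Q) ≤ #Q := by
    have := h.2.2.2.1.1
    have := card_le_card (sdiff_subset : Q' \ Q ⊆ Q')
    omega
  obtain ⟨x, x2, hx⟩ := out2 hl h.2.2.1 h.1 ht he h2
  have x1 := mem_sdiff.1 x2
  refine co _ (insert_subset x1.1 h.1) _ ((erase_subset _ _).trans sdiff_subset)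
    (hc hO hl' h.2.2.1 x1.2 hx) (dn ((X \ Q).erase x) ((erase_subset _ _).trans sdiff_subset) ?_) ?_
  · have e1 := ee_erase (G := G) x2
    have e2 := dg_lt (G := G) x2
    have e3 := card_erase_add_one x2
    obtain ⟨c, rfl⟩ : ∃ c, l = c + 3 := ⟨l - 3, by omega⟩
    have e4 : #Q = 2 * c + 5 := by omega
    rw [e4] at c1 c2 c4
    have e5 := Nat.mul_le_mul_left t c4
    have e6 : #X = #((X \ Q).erase x) + 2 * c + 6 := by omega
    have e7 : #U + #(Q' \ Q) = #((X \ Q).erase x) + 1 := by omega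
    have e8 : t * #U + t * #(Q' \ Q) = t * #((X \ Q).erase x) + t := by
      rw [← mul_add, e7, mul_add, mul_one]
    rw [e6] at he
    linarith [Nat.zero_le (c * #((X \ Q).erase x)), Nat.zero_le (ee G (Q' \ Q) (Q' \ Q)),
      Nat.zero_le c, Nat.zero_le t]
  · rw [disjoint_insert_left]
    exact ⟨notMem_erase _ _, disjoint_sdiff.mono_right (erase_subset _ _)⟩

theorem six (hD : DiracSt) (hO : OreSt) (hl : 3 ≤ l) (ht : l ≤ t + 1)
    (hn : 2 * (t + l) + 2 ≤ #X) (he : 2 * (t + l) * #X ≤ ee G X X)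
    (h1 : ∀ Y ⊆ X, ee G Y Y ≤ 2 * (t + l) * #Y)
    (h2 : #X ≠ 2 * (t + l) + 2 → ∀ u ∈ X, ∀ v ∈ X, G.Adj u v → t + l ≤ #(cn G u v X))
    (co : ∀ A ⊆ X, ∀ B ⊆ X, Lg G (2 * l) A → D B → ¬Disjoint A B)
    (cl : ∀ K : Finset V, G.IsClique (K : Set V) → 2 * t + 2 ≤ #K → D K)
    (dn : ∀ Y ⊆ X, 2 * t * #Y < ee G Y Y → D Y) : False := by
  have hl' : 2 ≤ l := by omega
  have h0 : ∀ C ⊆ X, G.IsClique (C : Set V) → #C ≤ 2 * (t + l) := fun C c1 c2 => by
    by_contra n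
    obtain ⟨K, k1, k2⟩ := exists_subset_card_eq (show 2 * (t + l) + 1 ≤ #C by omega)
    exact step0g hD hO hl' (by omega) hn he co cl (k1.trans c1) (c2.subset (coe_subset.2 k1)) k2
  obtain ⟨s, hs⟩ : ∃ s, s + 1 = l := ⟨l - 1, by omega⟩
  have e : s + t + 1 = t + l := by omega
  obtain ⟨A, a1, B, b1, d, a2, b2⟩ := pt2 V G X s t (by omega) (by omega)
    (card_pos.1 (by omega)) (e ▸ he) (e ▸ h0)
  have c : ¬Lg G (2 * l) A := fun c => co A a1 B b1 c (dn B b1 b2) d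
  obtain ⟨Q, q1, Q', q2, q3, q4, q5⟩ := k2 hD hl' (by omega) a2 c
  have q : Bad G l X Q Q' := ⟨q1.trans a1, q2.trans a1, q3, q4, q5,
    fun c' => c (c'.mono (union_subset q1 q2))⟩
  have hB : B ⊆ X \ (Q ∪ Q') := subset_sdiff.2 ⟨b1, d.symm.mono_right (union_subset q1 q2)⟩
  rcases le_total (ee G (Q \ Q') (X \ (Q ∪ Q'))) (ee G (Q' \ Q) (X \ (Q ∪ Q'))) with c | c
  · exact fiveg hO hl q ht he h1 h2 co dn hB b2 c
  · rw [union_comm] at c hB
    exact fiveg hO hl q.symm ht he h1 h2 co dn hB b2 c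

theorem Bad.ham (hD : DiracSt) (hl : 3 ≤ l) (h : Bad G l X Q Q') : Lg G (2 * l - 2) (Q \ Q') := by
  have c := h.2.2.1.1
  obtain ⟨z, hz, e⟩ : ∃ z ∈ Q, Q.erase z ⊆ Q \ Q' := by
    rcases (Q ∩ Q').eq_empty_or_nonempty with d | ⟨z, hz⟩
    · obtain ⟨z, hz⟩ := card_pos.1 (show 0 < #Q by omega)
      exact ⟨z, hz, subset_sdiff.2 ⟨erase_subset _ _,
        (disjoint_iff_inter_eq_empty.2 d).mono_left (erase_subset _ _)⟩⟩
    · exact ⟨z, (mem_inter.1 hz).1, fun x hx => mem_sdiff.2 ⟨mem_of_mem_erase hx, fun d =>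
        ne_of_mem_erase hx (card_le_one.1 h.2.2.2.2.1 x
          (mem_inter.2 ⟨mem_of_mem_erase hx, d⟩) z hz)⟩⟩
  have := card_erase_add_one hz
  exact ⟨_, e, h.2.2.1.ham hD hl hz, by omega⟩

/-- the unequal pair -/
theorem uneq (hD : DiracSt) (hO : OreSt) (hl : 3 ≤ l) (h : Bad G l X Q Q')
    (he : (2 * l + 1) * #X ≤ ee G X X) :
    ∃ A ⊆ X, ∃ B ⊆ X, Lg G (2 * l - 2) A ∧ Lg G (2 * l) B ∧ Disjoint A B := by
  have hl' : 2 ≤ l := by omega
  set U := X \ (Q ∪ Q') with hU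
  by_cases c : ∃ x ∈ U, 2 ≤ dg G x Q'
  · obtain ⟨x, hx, c⟩ := c
    simp only [hU, mem_sdiff, mem_union, not_or] at hx
    exact ⟨_, sdiff_subset.trans h.1, _, insert_subset hx.1 h.2.1, h.ham hD hl,
      hc hO hl' h.2.2.2.1 hx.2.2 c,
      disjoint_insert_right.2 ⟨fun e => hx.2.1 (mem_sdiff.1 e).1, sdiff_disjoint⟩⟩
  push Not at c
  have hR : Q' \ Q ⊆ X := sdiff_subset.trans h.2.1
  have c1 := h.2.2.1.1
  have c2 := h.2.2.2.1.1
  have c3 := card_le_card (sdiff_subset : Q' \ Q ⊆ Q')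
  have hQ : Q ⊆ X \ (Q' \ Q) := subset_sdiff.2 ⟨h.1, disjoint_sdiff⟩
  refine ⟨_, hR, _, sdiff_subset, h.symm.ham hD hl, eg hD hl' (L := X \ (Q' \ Q))
    ((card_pos.1 (show 0 < #Q by omega)).mono hQ) (j := 2 * l - 1) (by omega) ?_, disjoint_sdiff⟩
  have e1 := ee_sdiff (G := G) hR
  have e2 := ee_self_le G (Q' \ Q)
  have e3 := card_sdiff_add_card_eq_card hR
  have d : Disjoint Q U := disjoint_sdiff.mono_left subset_union_left
  have s : X \ (Q' \ Q) = Q ∪ U := by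
    ext x
    have := @h.1 x
    simp only [hU, mem_sdiff, mem_union]
    tauto
  have e4 := ee_union_right (G := G) (C := Q' \ Q) d
  have e5 := card_union_of_disjoint d
  rw [← s] at e4 e5
  have e6 : ee G (Q' \ Q) Q ≤ 1 * #(Q' \ Q) :=
    ee_le fun a ha => h.one hO hl' (mem_sdiff.1 ha).1 (mem_sdiff.1 ha).2
  have e7 : ee G (Q' \ Q) U ≤ 1 * #U := by
    rw [ee_comm]
    exact ee_le fun a ha => by
      have := c a ha
      have := dg_mono (G := G) (v := a) (sdiff_subset : Q' \ Q ⊆ Q')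
      omega
  obtain ⟨j, hj⟩ : ∃ j, 2 * l = j + 1 := ⟨2 * l - 1, by omega⟩
  have e8 := Nat.mul_le_mul_right #(Q' \ Q) (show #(Q' \ Q) ≤ j by omega)
  rw [hj, ← e3] at he
  rw [hj, Nat.add_sub_cancel]
  have : 0 < j := by omega
  nlinarith

end Pool.Agent.Lib.MP_b07792_co.EV
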