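import Pool.Agent.Lib.MP_b07792_co.EV.Base

/-!
Counting edges, and the statement of the partition theorem.
-/

namespace Pool.Agent.Lib.MP_b07792_co.EV

open Finset
open scoped Classical

variable {V : Type}

/-- the number of adjacent pairs in `A × B`; `ee G X X` is twice the number of edges in `X` -/
noncomputable def ee (G : SimpleGraph V) (A B : Finset V) : ℕ := ∑ a ∈ A, dg G a B

/-- The partition theorem. -/
def PTSt : Prop :=
  ∀ (V : Type) (G : SimpleGraph V) (X : Finset V) (s t : ℕ), 2 ≤ s → s ≤ t → t ≤ 2 * s + 1 →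
    X.Nonempty → 2 * (s + t + 1) * #X ≤ ee G X X →
    (∀ C ⊆ X, G.IsClique (C : Set V) → #C ≤ 2 * (s + t + 1)) →
    ∃ A ⊆ X, ∃ B ⊆ X, Disjoint A B ∧ 2 * s * #A < ee G A A ∧ 2 * t * #B < ee G B B

variable {G : SimpleGraph V} {A B C : Finset V} {v : V}

theorem dg_eq (G : SimpleGraph V) (v : V) (A : Finset V) :
    dg G v A = ∑ w ∈ A, if G.Adj v w then 1 else 0 := by
  rw [dg, card_filter]

theorem dg_union (h : Disjoint A B) : dg G v (A ∪ B) = dg G v A + dg G v B := by
  rw [dg_eq, dg_eq, dg_eq, sum_union h]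

theorem dg_mono (h : A ⊆ B) : dg G v A ≤ dg G v B := card_le_card (filter_subset_filter _ h)

theorem dg_le : dg G v A ≤ #A := card_filter_le _ _

theorem dg_erase : dg G v (A.erase v) = dg G v A := by
  rw [dg, dg]
  congr 1
  ext w
  simp only [mem_filter, mem_erase]
  exact ⟨fun h => ⟨h.1.2, h.2⟩, fun h => ⟨⟨h.2.ne', h.1⟩, h.2⟩⟩

theorem dg_lt (h : v ∈ A) : dg G v A + 1 ≤ #A := by
  rw [← dg_erase, ← card_erase_add_one h]
  exact Nat.succ_le_succ dg_le

theorem ee_comm (G : SimpleGraph V) (A B : Finset V) : ee G A B = ee G B A := by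
  simp only [ee, dg_eq]
  rw [sum_comm]
  simp only [G.adj_comm]

theorem ee_union_left (h : Disjoint A B) : ee G (A ∪ B) C = ee G A C + ee G B C := sum_union h

theorem ee_union_right (h : Disjoint A B) : ee G C (A ∪ B) = ee G C A + ee G C B := by
  rw [ee_comm, ee_union_left h, ee_comm G A, ee_comm G B]

theorem ee_union (h : Disjoint A B) :
    ee G (A ∪ B) (A ∪ B) = ee G A A + ee G B B + 2 * ee G A B := by
  rw [ee_union_left h, ee_union_right h, ee_union_right h, ee_comm G B A]
  ring

theorem ee_one : ee G {v} A = dg G v A := sum_singleton _ _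

theorem ee_insert (h : v ∉ A) : ee G (insert v A) (insert v A) = ee G A A + 2 * dg G v A := by
  rw [insert_eq, ee_union (disjoint_singleton_left.2 h), ee_one, ee_one]
  have : dg G v {v} = 0 := by
    have := dg_lt (G := G) (mem_singleton_self v)
    rw [card_singleton] at this
    omega
  omega

theorem ee_erase (h : v ∈ A) : ee G A A = ee G (A.erase v) (A.erase v) + 2 * dg G v A := by
  conv_lhs => rw [← insert_erase h]
  rw [ee_insert (notMem_erase v A), dg_erase]

theorem ee_le {k : ℕ} (h : ∀ a ∈ A, dg G a B ≤ k) : ee G A B ≤ k * #A := by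
  have := sum_le_card_nsmul A _ k h
  rwa [smul_eq_mul, mul_comm] at this

theorem ee_self_le (G : SimpleGraph V) (A : Finset V) : ee G A A + #A ≤ #A * #A := by
  have := sum_le_card_nsmul A (fun a => dg G a A + 1) (#A) fun a ha => dg_lt ha
  rwa [sum_add_distrib, smul_eq_mul, sum_const, smul_eq_mul, mul_one] at this

theorem ee_mono {A' B' : Finset V} (h : A ⊆ A') (h' : B ⊆ B') : ee G A B ≤ ee G A' B' :=
  (sum_le_sum fun _ _ => dg_mono h').trans (sum_le_sum_of_subset h)

theorem dg_clique (h : G.IsClique (C : Set V)) (hv : v ∈ C) : dg G v C + 1 = #C := by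
  rw [← dg_erase, ← card_erase_add_one hv, dg, filter_true_of_mem]
  intro w hw
  exact h hv (mem_of_mem_erase hw) (ne_of_mem_erase hw).symm

theorem ee_clique (h : G.IsClique (C : Set V)) : ee G C C + #C = #C * #C := by
  have : ∑ a ∈ C, (dg G a C + 1) = ∑ _a ∈ C, #C := sum_congr rfl fun a ha => dg_clique h ha
  rwa [sum_add_distrib, sum_const, sum_const, smul_eq_mul, smul_eq_mul, mul_one] at this

end Pool.Agent.Lib.MP_b07792_co.EV
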