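import Pool.Agent.Lib.MP_b07792_co.EV.Ctr

/-!
Two near-cliques; the case of two cycles.
-/

namespace Pool.Agent.Lib.MP_b07792_co.EV

open Finset
open scoped Classical

variable {V : Type} {G : SimpleGraph V} {Q Q' R X : Finset V} {l m T : ℕ} {a b u v w z : V}

/-- two near-cliques that do not span a long cycle -/
def Bad (G : SimpleGraph V) (l : ℕ) (X Q Q' : Finset V) : Prop :=
  Q ⊆ X ∧ Q' ⊆ X ∧ NC G l Q ∧ NC G l Q' ∧ #(Q ∩ Q') ≤ 1 ∧ ¬Lg G (2 * l) (Q ∪ Q')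

theorem Bad.symm (h : Bad G l X Q Q') : Bad G l X Q' Q :=
  ⟨h.2.1, h.1, h.2.2.2.1, h.2.2.1, inter_comm Q Q' ▸ h.2.2.2.2.1, union_comm Q Q' ▸ h.2.2.2.2.2⟩

theorem Bad.one (hO : OreSt) (hl : 2 ≤ l) (h : Bad G l X Q Q') (hw : w ∈ Q') (hw' : w ∉ Q) :
    dg G w Q ≤ 1 := by
  by_contra n
  exact h.2.2.2.2.2 ((hc hO hl h.2.2.1 hw' (by omega)).mono
    (insert_subset (mem_union_right _ hw) subset_union_left))

theorem Bad.cn (hO : OreSt) (hl : 2 ≤ l) (h : Bad G l X Q Q') (hu : u ∈ Q) (hv : v ∈ Q)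
    (e : G.Adj u v) : #(cn G u v X) + 3 ≤ #(cn G u v (X \ (Q ∪ Q'))) + 2 * l := by
  have h1 : EV.cn G u v X ⊆ EV.cn G u v (X \ (Q ∪ Q')) ∪ (Q.erase u).erase v := fun w hw => by
    rw [mem_cn] at hw
    by_cases c : w ∈ Q
    · exact mem_union_right _ (mem_erase.2 ⟨hw.2.2.ne', mem_erase.2 ⟨hw.2.1.ne', c⟩⟩)
    refine mem_union_left _ (mem_cn.2 ⟨mem_sdiff.2 ⟨hw.1, fun d => ?_⟩, hw.2⟩)
    have := h.one hO hl ((mem_union.1 d).resolve_left c) c
    have := nbr_two hu hv e.ne hw.2.1.symm hw.2.2.symm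
    omega
  have := (card_le_card h1).trans (card_union_le _ _)
  have := card_erase_add_one hu
  have := card_erase_add_one (mem_erase.2 ⟨e.ne', hv⟩)
  have := h.2.2.1.1
  omega

theorem NC.edge (hl : 2 ≤ l) (h : NC G l Q) : ∃ u ∈ Q, ∃ v ∈ Q, G.Adj u v := by
  have := h.1
  obtain ⟨u, hu⟩ := card_pos.1 (show 0 < #Q by omega)
  obtain ⟨a, ha, -, -, -, e, -⟩ := two_nbr (hl.trans (h.2 u hu))
  exact ⟨u, hu, a, ha, e⟩

theorem Bad.card (h : Bad G l X Q Q') : 2 * l ≤ #(Q \ Q') + 2 := by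
  have := card_sdiff_add_card_inter Q Q'
  have := h.2.2.1.1
  have := h.2.2.2.2.1
  omega

theorem Bad.dg (hO : OreSt) (hl : 2 ≤ l) (h : Bad G l X Q Q') (hw : w ∈ Q' \ Q) :
    dg G w X + 2 * l ≤ #X + 2 := by
  rw [mem_sdiff] at hw
  have h1 : Q \ Q' ⊆ X := sdiff_subset.trans h.1
  have h2 := dg_union (G := G) (v := w) (sdiff_disjoint : Disjoint (X \ (Q \ Q')) (Q \ Q'))
  have h3 := (dg_mono sdiff_subset : EV.dg G w (Q \ Q') ≤ _).trans (h.one hO hl hw.1 hw.2)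
  have h4 := dg_lt (G := G) (show w ∈ X \ (Q \ Q') by simp [h.2.1 hw.1, hw.1])
  have := card_sdiff_add_card_eq_card h1
  have := h.card
  rw [sdiff_union_of_subset h1] at h2
  omega

theorem Bad.big (hO : OreSt) (hl : 3 ≤ l) (h : Bad G l X Q Q') (hT : T + 1 ≤ 3 * l)
    (he : 2 * T * #X ≤ ee G X X) : #X ≠ 2 * T + 2 := by
  intro n
  have d : Disjoint (Q \ Q') (Q' \ Q) := disjoint_sdiff_sdiff
  have h1 : Q \ Q' ∪ Q' \ Q ⊆ X := union_subset (sdiff_subset.trans h.1) (sdiff_subset.trans h.2.1)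
  have h2 := ee_union_left (G := G) (C := X) (sdiff_disjoint : Disjoint (X \ (Q \ Q' ∪ Q' \ Q)) _)
  have h3 := ee_le (G := G) (A := X \ (Q \ Q' ∪ Q' \ Q)) (B := X) (k := 2 * T + 1) fun a ha => by
    have := dg_lt (G := G) (mem_sdiff.1 ha).1; omega
  have h4 := ee_le (G := G) (A := Q \ Q' ∪ Q' \ Q) (B := X) (k := 2 * T + 4 - 2 * l) fun a ha => by
    rcases mem_union.1 ha with c | c
    · have := h.symm.dg hO (by omega) c; omega
    · have := h.dg hO (by omega) c; omega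
  have h5 := card_sdiff_add_card_eq_card h1
  have h6 := card_union_of_disjoint d
  have h7 := h.card
  have h8 := h.symm.card
  rw [sdiff_union_of_subset h1] at h2
  obtain ⟨c, hc⟩ : ∃ c, 2 * T + 4 - 2 * l = c := ⟨_, rfl⟩
  have h9 : c + 2 * l = 2 * T + 4 := by omega
  rw [hc] at h4
  generalize #(Q \ Q' ∪ Q' \ Q) = p at *
  generalize #(X \ (Q \ Q' ∪ Q' \ Q)) = q at *
  have h10 : 4 * l ≤ p + 4 := by omega
  nlinarith

theorem En.split {P : ℕ → V} (h : En G P m) {p i q : ℕ} (h1 : p ≤ i + 1) (h2 : i ≤ q)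
    (h3 : q ≤ m) : (Icc p q).image P = (Icc p i).image P ∪ (Icc (i + 1) q).image P ∧
      Disjoint ((Icc p i).image P) ((Icc (i + 1) q).image P) := by
  refine ⟨?_, h.disj (by simp only [mem_Icc]; omega) (by simp only [mem_Icc]; omega)
    (disjoint_left.2 fun j => by simp only [mem_Icc]; omega)⟩
  rw [← image_union]
  congr 1
  ext j
  simp only [mem_union, mem_Icc]
  omega

theorem En.ins {P : ℕ → V} (h : En G P m) {p i q : ℕ} (h1 : p ≤ i) (h2 : i < q) (h3 : q ≤ m)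
    (hw : w ∉ (Icc p q).image P) (e : G.Adj (P i) w) (e' : G.Adj (P (i + 1)) w) :
    Pth G (insert w ((Icc p q).image P)) (P p) (P q) := by
  obtain ⟨a1, a2⟩ := h.split (p := p) (i := i) (by omega) h2.le h3
  rw [a1, mem_union, not_or] at hw
  exact ((h.seg h1 (by omega)).append (.cons e'.symm hw.2 (h.seg h2 h3))
    (disjoint_insert_right.2 ⟨hw.1, a2⟩) e).of_eq (by rw [a1, union_insert])

theorem En.ins2 {P : ℕ → V} (h : En G P m) {i j : ℕ} (h1 : i < j) (h2 : j < m)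
    (hu : u ∉ (Icc 0 m).image P) (hv : v ∉ (Icc 0 m).image P) (huv : u ≠ v)
    (e1 : G.Adj (P i) u) (e2 : G.Adj (P (i + 1)) u) (e3 : G.Adj (P j) v)
    (e4 : G.Adj (P (j + 1)) v) : Pth G (insert u (insert v ((Icc 0 m).image P))) (P 0) (P m) := by
  obtain ⟨a1, a2⟩ := h.split (p := 0) (i := j) (by omega) h2.le le_rfl
  rw [a1, mem_union, not_or] at hu hv
  refine ((h.ins (Nat.zero_le i) h1 h2.le hu.1 e1 e2).append (.cons e4.symm hv.2 (h.seg h2 le_rfl))
    ?_ e3).of_eq (by rw [a1, insert_union, union_insert])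
  rw [disjoint_insert_left, disjoint_insert_right, mem_insert, not_or]
  exact ⟨⟨huv, hu.2⟩, hv.1, a2⟩

theorem dg_insert_le : dg G v (insert z R) ≤ dg G v R + 1 := by
  rw [dg, dg, filter_insert]
  split_ifs
  · exact card_insert_le _ _
  · omega

theorem NC.erase (h : NC G l Q) (hz : z ∈ Q) (hv : v ∈ Q.erase z) : l ≤ dg G v (Q.erase z) + 1 := by
  have := dg_insert_le (G := G) (v := v) (z := z) (R := Q.erase z)
  rw [insert_erase hz] at this
  exact (h.2 v (mem_of_mem_erase hv)).trans this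

theorem NC.ham (hD : DiracSt) (hl : 3 ≤ l) (h : NC G l Q) (hz : z ∈ Q) : Cy G (Q.erase z) := by
  have c := card_erase_add_one hz
  have := h.1
  obtain ⟨S, h1, h2, h3⟩ := hD V G (Q.erase z) (l - 1) (by omega)
    (fun v hv => by have := h.erase hz hv; omega) (by omega) fun Y Z hS => by
      have key : ∀ Y Z, Sep G (Q.erase z) Y Z → l ≤ #Y := fun Y Z hS => by
        obtain ⟨a, ha, ha'⟩ := not_subset.1 hS.2.2.1
        have e1 := h.erase hz (hS.facts.1 ha)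
        have e2 : dg G a (Q.erase z) ≤ dg G a Y := card_le_card fun b hb => by
          rw [mem_filter, ← hS.1, mem_union] at hb
          exact mem_filter.2 ⟨by_contra fun n =>
            hS.2.2.2.2 a ha ha' b (hb.1.resolve_left n) n hb.2, hb.2⟩
        have := dg_lt (G := G) ha
        omega
      have := key Y Z hS
      have := key Z Y ⟨union_comm Y Z ▸ hS.1, inter_comm Y Z ▸ hS.2.1, hS.2.2.2.1, hS.2.2.1,
        fun a a1 a2 b b1 b2 e => hS.2.2.2.2 b b1 b2 a a1 a2 e.symm⟩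
      have := hS.facts.2.2.2.2.2.2
      omega
  rwa [eq_of_subset_of_card_le h1 (by omega)] at h2

theorem dg_all (h : ∀ p ∈ R, G.Adj a p) : dg G a R = #R := by rw [dg, filter_true_of_mem h]

theorem NC.swap (hl : 2 ≤ l) (h : NC G l Q) (hz : z ∈ Q) (ha : a ∉ Q)
    (e : ∀ p ∈ Q.erase z, G.Adj a p) : NC G l (insert a (Q.erase z)) := by
  have c := card_erase_add_one hz
  have := h.1
  have ha' : a ∉ Q.erase z := fun c => ha (mem_of_mem_erase c)
  refine ⟨by rw [card_insert_of_notMem ha']; omega, fun v hv => ?_⟩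
  rcases mem_insert.1 hv with rfl | hv
  · have := dg_mono (G := G) (v := v) (subset_insert v (Q.erase z))
    rw [dg_all e] at this
    omega
  · have := h.erase hz hv
    rwa [dg, filter_insert, if_pos (e v hv).symm,
      card_insert_of_notMem fun c => ha' (mem_filter.1 c).1]

theorem all_adj (hD : DiracSt) (hO : OreSt) (hl : 3 ≤ l) (h : Bad G l X Q Q') (hz : Q ∩ Q' = {z})
    (h2 : ∀ u ∈ Q', ∀ v ∈ Q', G.Adj u v → 2 ≤ #(cn G u v (X \ (Q ∪ Q'))))
    (hn : ¬Nu G (2 * l) 2 X) (ha : a ∈ X \ (Q ∪ Q')) (ha2 : 2 ≤ dg G a Q) :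
    ∀ p ∈ Q'.erase z, G.Adj a p := by
  have hz' : z ∈ Q' := (mem_inter.1 (hz ▸ mem_singleton_self z)).2
  obtain ⟨p0, q0, a1, a2, -⟩ := h.2.2.2.1.ham hD hl hz'
  obtain ⟨m, P, e, rfl, rfl, hR⟩ := a1.enum
  have c := card_erase_add_one hz'
  have c1 := h.2.2.2.1.1
  have c2 := e.card (I := Icc 0 m) (by simp)
  rw [← hR, Nat.card_Icc] at c2
  have hP : ∀ i ≤ m, P i ∈ Q' := fun i hi =>
    mem_of_mem_erase (hR ▸ mem_image_of_mem P (by simpa using hi))
  have out : ∀ {y}, y ∈ X \ (Q ∪ Q') → y ∉ (Icc 0 m).image P := fun hy c =>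
    (mem_sdiff.1 hy).2 (mem_union_right _ (mem_of_mem_erase (hR ▸ c)))
  have fin : ∀ i j y y', i < j → j < m → y ∈ cn G (P i) (P (i + 1)) (X \ (Q ∪ Q')) →
      y' ∈ cn G (P j) (P (j + 1)) (X \ (Q ∪ Q')) → y ≠ y' → y ≠ a → y' ≠ a → False := by
    intro i j y y' b1 b2 b3 b4 b5 b6 b7
    rw [mem_cn] at b3 b4
    have d := e.ins2 b1 b2 (out b3.1) (out b4.1) b5 b3.2.1 b3.2.2 b4.2.1 b4.2.2
    have d1 : #(insert y (insert y' ((Icc 0 m).image P))) = 2 * l := by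
      rw [card_insert_of_notMem (by simp only [mem_insert, not_or]; exact ⟨b5, out b3.1⟩),
        card_insert_of_notMem (out b4.1), ← hR]
      omega
    simp only [mem_sdiff, mem_union, not_or] at ha b3 b4
    refine hn (Lg.two (hc hO (by omega) h.2.2.1 ha.2.1 ha2)
      ⟨_, Subset.rfl, ⟨_, _, d, a2, by omega⟩, d1.ge⟩ ?_ (insert_subset ha.1 h.1)
      (insert_subset b3.1.1 (insert_subset b4.1.1 (hR ▸ (erase_subset _ _).trans h.2.1))))
    rw [← hR, disjoint_left]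
    intro x x1 x2
    simp only [mem_insert, mem_erase] at x1 x2
    rcases x1 with rfl | x1 <;> rcases x2 with rfl | rfl | x2
    · exact b6 rfl
    · exact b7 rfl
    · exact ha.2.2 x2.2
    · exact b3.1.2.1 x1
    · exact b4.1.2.1 x1
    · exact x2.1 (mem_singleton.1 (hz ▸ mem_inter.2 ⟨x1, x2.2⟩))
  have key : ∀ i < m, a ∈ cn G (P i) (P (i + 1)) (X \ (Q ∪ Q')) := fun i hi => by
    by_contra n
    have g := fun j (hj : j < m) => h2 _ (hP j hj.le) _ (hP (j + 1) hj) (e.2 j hj)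
    rcases Nat.eq_zero_or_pos i with rfl | b
    · obtain ⟨y', b1, b2⟩ := exists_mem_ne (g 1 (by omega)) a
      obtain ⟨y, b3, b4⟩ := exists_mem_ne (g 0 hi) y'
      exact fin 0 1 y y' one_pos (by omega) b3 b1 b4 (fun c => n (c ▸ b3)) b2
    · obtain ⟨y', b1, b2⟩ := exists_mem_ne (g 0 (by omega)) a
      obtain ⟨y, b3, b4⟩ := exists_mem_ne (g i hi) y'
      exact fin 0 i y' y b hi b1 b3 b4.symm b2 fun c => n (c ▸ b3)
  intro p hp
  obtain ⟨i, hi, rfl⟩ := mem_image.1 (hR ▸ hp)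
  rcases i with _ | i
  · exact (mem_cn.1 (key 0 (by omega))).2.1.symm
  · exact (mem_cn.1 (key i (mem_Icc.1 hi).2)).2.2.symm

end Pool.Agent.Lib.MP_b07792_co.EV
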