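import Pool.Agent.Lib.MP_b07792_co.EV.Full
import Pool.Agent.Lib.MP_b07792_co.EV.C4h

/-!
The upper bound for every union of cycles.
-/

namespace Pool.Agent.Lib.MP_b07792_co.EV

open Finset

theorem up (k : ℕ) (r : Fin k → ℕ) (d : ℕ) (hk : 1 ≤ k) (hr : ∀ i, 3 ≤ r i)
    (hd : d = if (k = 1 ∧ ∀ i, Even (r i)) ∨ (∀ i, r i = 4) then ∑ i, r i - 1
      else 2 * ∑ i, (r i + 1) / 2 - 2)
    (V : Type) [Finite V] (G : SimpleGraph V) (hn : ∑ i, r i ≤ Nat.card V)
    (he : d * Nat.card V ≤ 2 * Nat.card G.edgeSet) :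
    ∃ (u : Fin k → V) (c : ∀ i, G.Walk (u i) (u i)),
      (∀ i, (c i).IsCycle ∧ r i ≤ (c i).length) ∧
      ∀ i j, i ≠ j → ∀ v, v ∈ (c i).support → v ∉ (c j).support := by
  have := Fintype.ofFinite V
  obtain ⟨k, rfl⟩ : ∃ j, k = j + 1 := ⟨k - 1, by omega⟩
  have e0 := single_le_sum (f := r) (fun _ _ => Nat.zero_le _) (mem_univ 0)
  have e1 := single_le_sum (f := fun i => (r i + 1) / 2) (fun _ _ => Nat.zero_le _) (mem_univ 0)
  have e2 := hr 0
  rw [Nat.card_eq_fintype_card (α := V), ← card_univ] at hn he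
  rw [← ee_univ] at he
  have h0 : (univ : Finset V).Nonempty := card_pos.1 (by omega)
  split_ifs at hd with c
  · rcases c with ⟨c, e⟩ | c
    · obtain rfl : k = 0 := by omega
      obtain ⟨l, hl⟩ := e 0
      rw [Fin.sum_univ_one] at hd
      have := ((eg (G := G) (j := d) (l := l) dirac (by omega) h0 (by omega) (by omega)).le
        (show r 0 ≤ 2 * l by omega)).nf
      exact NF.walks (X := univ) this
    · obtain rfl : r = fun _ => 4 := funext c
      rw [sum_const, card_univ, Fintype.card_fin, smul_eq_mul] at hd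
      obtain ⟨u, c, c1, c2⟩ :=
        (quad dirac k univ G h0 (by rwa [show 4 * k + 3 = d by omega])).walks
      exact ⟨u, c, fun i => ⟨(c1 i).1, (c1 i).2.1⟩, c2⟩
  · rw [not_or, not_forall] at c
    obtain ⟨c, j, hj⟩ := c
    obtain ⟨T, hT⟩ : ∃ T, T + 1 = ∑ i, (r i + 1) / 2 := ⟨∑ i, (r i + 1) / 2 - 1, by omega⟩
    rw [show d = 2 * T by omega] at he
    refine (full' univ (fun i _ => hr i) ⟨j, mem_univ j, hj⟩ (fun i e => ?_) T hT univ G hn
      he).walks
    by_contra n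
    refine c ⟨by simpa using congrArg card e, fun a => ?_⟩
    obtain rfl : a = i := mem_singleton.1 (e ▸ mem_univ a)
    exact Nat.not_odd_iff_even.1 n

end Pool.Agent.Lib.MP_b07792_co.EV
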